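import Pool.Agent.Work.MP_24ca2e_an.Defs0

set_option autoImplicit false

/-!
Boundedness of the Jacobi operator: existence of the bounded operator given by `jacobiFun`.
-/

namespace Pool.Agent.Work.MP_24ca2e_an

open MeasureTheory

namespace Cover

variable {V E : Type} {G : MGraph V E} (C : Cover G)

lemma shift_sum_le (d : E × Bool) (u : Ell2 C.T) (s : Finset C.T)
    (hs : ∀ t ∈ s, G.start d = C.proj t) :
    ∑ t ∈ s, ‖u (C.nbr t d)‖ ^ (2 : ℝ) ≤ ‖u‖ ^ (2 : ℝ) := by
  classical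
  have hinj : Set.InjOn (fun t => C.nbr t d) (s : Set C.T) := by
    intro t ht t' ht' h
    rw [← C.nbr_rev t d (hs t ht), ← C.nbr_rev t' d (hs t' ht')]
    exact congrArg (fun z => C.nbr z (MGraph.rev d)) h
  calc ∑ t ∈ s, ‖u (C.nbr t d)‖ ^ (2 : ℝ)
      = ∑ t ∈ s.image (fun t => C.nbr t d), ‖u t‖ ^ (2 : ℝ) := by
        rw [Finset.sum_image hinj]
    _ ≤ ‖u‖ ^ (2 : ℝ) := by
        have := lp.sum_rpow_le_norm_rpow (p := 2) (by simp) u (s.image (fun t => C.nbr t d))
        simpa using this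

open Classical in
lemma shift_sum_le' (d : E × Bool) (u : Ell2 C.T) (s : Finset C.T) :
    ∑ t ∈ s, ‖if G.start d = C.proj t then u (C.nbr t d) else 0‖ ^ (2 : ℝ) ≤ ‖u‖ ^ (2 : ℝ) := by
  have h1 : ∑ t ∈ s, ‖if G.start d = C.proj t then u (C.nbr t d) else 0‖ ^ (2 : ℝ)
      = ∑ t ∈ s.filter (fun t => G.start d = C.proj t), ‖u (C.nbr t d)‖ ^ (2 : ℝ) := by
    rw [Finset.sum_filter]
    refine Finset.sum_congr rfl (fun t _ => ?_)
    by_cases h : G.start d = C.proj t
    · simp [h]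
    · simp [h]
  rw [h1]
  exact C.shift_sum_le d u _ (fun t ht => (Finset.mem_filter.1 ht).2)

open Classical in
lemma shift_memℓp (d : E × Bool) (u : Ell2 C.T) :
    Memℓp (fun t => if G.start d = C.proj t then u (C.nbr t d) else 0) 2 := by
  refine memℓp_gen' (C := ‖u‖ ^ (2 : ℝ)) (fun s => ?_)
  simpa using C.shift_sum_le' d u s

open Classical in
/-- The operator `u ↦ (t ↦ u (nbr t d))` (zero where `d` does not start). -/
noncomputable def shiftCLM (d : E × Bool) : Ell2 C.T →L[ℂ] Ell2 C.T :=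
  LinearMap.mkContinuous
    { toFun := fun u => ⟨fun t => if G.start d = C.proj t then u (C.nbr t d) else 0,
        C.shift_memℓp d u⟩
      map_add' := by
        intro u v
        refine lp.ext (funext fun t => ?_)
        change (if G.start d = C.proj t then (u + v) (C.nbr t d) else 0) =
          (if G.start d = C.proj t then u (C.nbr t d) else 0) +
          (if G.start d = C.proj t then v (C.nbr t d) else 0)
        by_cases h : G.start d = C.proj t <;> simp [h]
      map_smul' := by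
        intro c u
        refine lp.ext (funext fun t => ?_)
        change (if G.start d = C.proj t then (c • u) (C.nbr t d) else 0) =
          c • (if G.start d = C.proj t then u (C.nbr t d) else 0)
        by_cases h : G.start d = C.proj t <;> simp [h] } 1
    (by
      intro u
      refine lp.norm_le_of_forall_sum_le (by simp) (by positivity) (fun s => ?_)
      have := C.shift_sum_le' d u s
      simpa using this)

open Classical in
lemma shiftCLM_apply (d : E × Bool) (u : Ell2 C.T) (t : C.T) :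
    C.shiftCLM d u t = if G.start d = C.proj t then u (C.nbr t d) else 0 := rfl

lemma mul_sum_le {c : C.T → ℝ} {M : ℝ} (hM : ∀ t, |c t| ≤ M) (u : Ell2 C.T) (s : Finset C.T) :
    ∑ t ∈ s, ‖(c t : ℂ) * u t‖ ^ (2 : ℝ) ≤ (|M| * ‖u‖) ^ (2 : ℝ) := by
  have h1 : ∀ t ∈ s, ‖(c t : ℂ) * u t‖ ^ (2 : ℝ) ≤ |M| ^ (2 : ℝ) * ‖u t‖ ^ (2 : ℝ) := by
    intro t _
    rw [norm_mul, Real.mul_rpow (norm_nonneg _) (norm_nonneg _)]
    refine mul_le_mul_of_nonneg_right ?_ (by positivity)
    refine Real.rpow_le_rpow (norm_nonneg _) ?_ (by norm_num)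
    rw [Complex.norm_real, Real.norm_eq_abs]
    exact (hM t).trans (le_abs_self M)
  calc ∑ t ∈ s, ‖(c t : ℂ) * u t‖ ^ (2 : ℝ)
      ≤ ∑ t ∈ s, |M| ^ (2 : ℝ) * ‖u t‖ ^ (2 : ℝ) := Finset.sum_le_sum h1
    _ = |M| ^ (2 : ℝ) * ∑ t ∈ s, ‖u t‖ ^ (2 : ℝ) := by rw [Finset.mul_sum]
    _ ≤ |M| ^ (2 : ℝ) * ‖u‖ ^ (2 : ℝ) := by
        refine mul_le_mul_of_nonneg_left ?_ (by positivity)
        have := lp.sum_rpow_le_norm_rpow (p := 2) (by simp) u s
        simpa using this
    _ = (|M| * ‖u‖) ^ (2 : ℝ) := by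
        rw [Real.mul_rpow (abs_nonneg _) (norm_nonneg _)]

/-- Multiplication by a bounded real function. -/
noncomputable def mulCLM (c : C.T → ℝ) (M : ℝ) (hM : ∀ t, |c t| ≤ M) :
    Ell2 C.T →L[ℂ] Ell2 C.T :=
  LinearMap.mkContinuous
    { toFun := fun u => ⟨fun t => (c t : ℂ) * u t,
        memℓp_gen' (C := (|M| * ‖u‖) ^ (2 : ℝ)) (fun s => by simpa using C.mul_sum_le hM u s)⟩
      map_add' := by
        intro u v
        refine lp.ext (funext fun t => ?_)
        change (c t : ℂ) * (u + v) t = (c t : ℂ) * u t + (c t : ℂ) * v t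
        simp [mul_add]
      map_smul' := by
        intro a u
        refine lp.ext (funext fun t => ?_)
        change (c t : ℂ) * (a • u) t = a • ((c t : ℂ) * u t)
        simp [mul_left_comm] } |M|
    (by
      intro u
      refine lp.norm_le_of_forall_sum_le (by simp) (by positivity) (fun s => ?_)
      have := C.mul_sum_le hM u s
      simpa using this)

lemma mulCLM_apply (c : C.T → ℝ) (M : ℝ) (hM : ∀ t, |c t| ≤ M) (u : Ell2 C.T) (t : C.T) :
    C.mulCLM c M hM u t = (c t : ℂ) * u t := rfl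

lemma exists_bound [Finite V] (b : V → ℝ) : ∃ M : ℝ, ∀ t : C.T, |b (C.proj t)| ≤ M := by
  obtain ⟨M, hM⟩ := (Set.finite_range (fun x => |b x|)).bddAbove
  exact ⟨M, fun t => hM ⟨C.proj t, rfl⟩⟩

lemma exists_clm_aux [Finite V] [Fintype E] (J : Params V E) :
    ∃ H : Ell2 C.T →L[ℂ] Ell2 C.T, ∀ u : Ell2 C.T, ⇑(H u) = C.jacobiFun J ⇑u := by
  classical
  obtain ⟨M, hM⟩ := C.exists_bound J.1.1
  refine ⟨C.mulCLM (fun t => J.1.1 (C.proj t)) M hM +
    ∑ d : E × Bool, (J.1.2 d.1 : ℂ) • C.shiftCLM d, fun u => ?_⟩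
  funext t
  simp only [add_apply, sum_apply, smul_apply, lp.coeFn_add, lp.coeFn_sum, Pi.add_apply, Finset.sum_apply,
    lp.coeFn_smul, Pi.smul_apply, smul_eq_mul, mulCLM_apply, shiftCLM_apply, jacobiFun]
  congr 1
  refine Finset.sum_congr rfl (fun d _ => ?_)
  by_cases h : G.start d = C.proj t <;> simp [h]

end Cover

end Pool.Agent.Work.MP_24ca2e_an
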