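import Pool.Agent.Work.MP_24ca2e_an.Trace

set_option autoImplicit false
set_option linter.unusedSectionVars false

/-!
The bouquet of `k` two-cycles and the trace of the kernel projection of its Jacobi operators.
-/

namespace Pool.Agent.Work.MP_24ca2e_an

open MeasureTheory Filter Topology

/-! ### Equivariance of the Jacobi operator of the forest -/

section ForestEqv

variable {V E : Type} {G : MGraph V E}

lemma adjoint_trans {Γ : Type} [Group Γ] (h : Γ) :
    ContinuousLinearMap.adjoint (trans V h) = trans V h⁻¹ := by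
  classical
  refine clm_ext (fun i => ell2_ext (fun j => ?_))
  rw [← inner_delta_left j, ContinuousLinearMap.adjoint_inner_right, inner_delta_right,
    trans_apply, trans_apply, delta_apply, delta_apply]
  by_cases h1 : (h⁻¹ * j.1, j.2) = i
  · rw [if_pos h1, if_pos]
    · simp
    · rw [← h1]; simp
  · rw [if_neg h1, if_neg]
    · simp
    · intro h2
      apply h1
      rw [← h2]; simp

lemma kerProj_eqv {Γ : Type} [Group Γ] {S : Ell2 (Γ × V) →L[ℂ] Ell2 (Γ × V)} (hS : Eqv S) :
    Eqv (kerProj S) := by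
  intro h
  refine ContinuousLinearMap.ext (fun u => ?_)
  change kerProj S (trans V h u) = trans V h (kerProj S u)
  refine eq_kerProj S ?_ ?_
  · rw [hS.apply, apply_kerProj, map_zero]
  · intro w hw
    rw [← map_sub, ← ContinuousLinearMap.adjoint_inner_right, adjoint_trans]
    have h1 : S (trans V h⁻¹ w) = 0 := by rw [hS.apply, hw, map_zero]
    have h2 : inner ℂ (kerProj S u) (trans V h⁻¹ w) = inner ℂ u (trans V h⁻¹ w) := by
      rw [inner_kerProj_left, kerProj_eq_self S h1]
    rw [inner_sub_left, h2, sub_self]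

lemma shift_eqv (d : E × Bool) : Eqv (Γ := FreeGroup E) (V := V) ((forest G).shiftCLM d) := by
  classical
  intro h
  refine ContinuousLinearMap.ext (fun u => ell2_ext (fun i => ?_))
  change (forest G).shiftCLM d (trans V h u) i = (forest G).shiftCLM d u (h * i.1, i.2)
  rw [Cover.shiftCLM_apply, Cover.shiftCLM_apply]
  by_cases h1 : G.start d = i.2
  · rw [if_pos h1, if_pos h1, trans_apply]
    change u (h * (i.1 * FreeGroup.mk [d]), G.stop d) = u (h * i.1 * FreeGroup.mk [d], G.stop d)
    rw [mul_assoc]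
  · rw [if_neg h1, if_neg h1]

lemma fib_eqv (x : V) : Eqv (Γ := FreeGroup E) (V := V) ((forest G).fib x) := by
  classical
  intro h
  refine ContinuousLinearMap.ext (fun u => ell2_ext (fun i => ?_))
  change (forest G).fib x (trans V h u) i = (forest G).fib x u (h * i.1, i.2)
  rw [Cover.fib_apply, Cover.fib_apply]
  rfl

lemma jacobi_eqv [Fintype V] [Fintype E] (J : Params V E) :
    Eqv (Γ := FreeGroup E) (V := V) ((forest G).jacobiOp J) := by
  rw [Cover.jacobiOp_eq]
  exact (Eqv.sum _ (fun x _ => (fib_eqv x).smul _)).add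
    (Eqv.sum _ (fun d _ => (shift_eqv d).smul _))

lemma tr_fib [Fintype V] (x : V) :
    tr (Γ := FreeGroup E) (V := V) ((forest G).fib x) = 1 := by
  classical
  unfold tr
  rw [Finset.sum_eq_single x]
  · rw [Cover.fib_apply, delta_self]
    exact if_pos rfl
  · intro y _ hy
    rw [Cover.fib_apply]
    exact if_neg hy
  · intro h; exact absurd (Finset.mem_univ _) h

lemma tr_one {Γ : Type} [Group Γ] [Fintype V] :
    tr (1 : Ell2 (Γ × V) →L[ℂ] Ell2 (Γ × V)) = Fintype.card V := by
  unfold tr
  have : ∀ x : V, ((1 : Ell2 (Γ × V) →L[ℂ] Ell2 (Γ × V)) (delta (1, x))) (1, x) = 1 :=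
    fun x => delta_self _
  simp only [this]
  simp

lemma tr_kerProj {Γ : Type} [Group Γ] [Fintype V] (S : Ell2 (Γ × V) →L[ℂ] Ell2 (Γ × V)) :
    tr (kerProj S) = ((∑ x : V, ‖kerProj S (delta (1, x))‖ ^ 2 : ℝ) : ℂ) := by
  unfold tr
  push_cast
  refine Finset.sum_congr rfl (fun x _ => ?_)
  rw [← inner_delta_left, inner_self_kerProj]
  push_cast
  rfl

/-- If `L` and `K` are self-adjoint idempotents with `L K = K` then `tr K ≤ tr L`. -/
lemma tr_mono {Γ : Type} [Group Γ] [Fintype V] {L K : Ell2 (Γ × V) →L[ℂ] Ell2 (Γ × V)}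
    (hL : IsSelfAdjoint L) (hL2 : L * L = L) (hK : IsSelfAdjoint K) (hK2 : K * K = K)
    (hLK : L * K = K) : (tr K).re ≤ (tr L).re := by
  have hKL : K * L = K := by
    have := congrArg ContinuousLinearMap.adjoint hLK
    rw [ContinuousLinearMap.mul_def, ContinuousLinearMap.adjoint_comp, hL.adjoint_eq,
      hK.adjoint_eq] at this
    exact this
  have hD : IsSelfAdjoint (L - K) := hL.sub hK
  have hD2 : (L - K) * (L - K) = L - K := by
    rw [sub_mul, mul_sub, mul_sub, hL2, hLK, hKL, hK2]
    abel
  have h1 : 0 ≤ (tr (L - K)).re := by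
    refine tr_re_nonneg (fun u => ?_)
    have e1 : (L - K) u = (L - K) ((L - K) u) := by
      conv_lhs => rw [← hD2]
      rfl
    rw [e1, ← ContinuousLinearMap.adjoint_inner_left, hD.adjoint_eq, inner_self_eq_norm_sq_to_K]
    norm_cast
    exact sq_nonneg _
  rw [tr_sub, Complex.sub_re] at h1
  linarith

lemma kerProj_mul_self {Γ : Type} [Group Γ] (S : Ell2 (Γ × V) →L[ℂ] Ell2 (Γ × V)) :
    kerProj S * kerProj S = kerProj S :=
  ContinuousLinearMap.ext (fun u => kerProj_kerProj S u)

end ForestEqv

/-! ### The bouquet -/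

/-- The bouquet of `k` two-cycles: the centre `none` is joined to each vertex `some c` by the two
edges `(c, false)` and `(c, true)`. -/
def bouquet (k : ℕ) : MGraph (Option (Fin k)) (Fin k × Bool) where
  fst := fun _ => none
  snd := fun e => some e.1

section Bouquet

variable {k : ℕ}

/-- The Hilbert space of the forest over the bouquet. -/
abbrev HB (k : ℕ) : Type := Ell2 (FreeGroup (Fin k × Bool) × Option (Fin k))

/-- The Jacobi operator on the forest. -/
noncomputable def HJ (J : Params (Option (Fin k)) (Fin k × Bool)) : HB k →L[ℂ] HB k :=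
  (forest (bouquet k)).jacobiOp J

/-- The projection on the fibre of `x`. -/
noncomputable def Pr (x : Option (Fin k)) : HB k →L[ℂ] HB k := (forest (bouquet k)).fib x

/-- The isometry from the functions over the centre to the functions over `some c` given by the
edge `e = (c, κ)`. -/
noncomputable def Up (e : Fin k × Bool) : HB k →L[ℂ] HB k :=
  (forest (bouquet k)).shiftCLM (e, true)

/-- The part of the Jacobi operator mapping functions over the centre to functions over the other
vertices. -/
noncomputable def Wp (J : Params (Option (Fin k)) (Fin k × Bool)) : HB k →L[ℂ] HB k :=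
  ∑ e : Fin k × Bool, (J.1.2 e : ℂ) • Up e

lemma Pr_apply (x : Option (Fin k)) (u : HB k) (t : FreeGroup (Fin k × Bool) × Option (Fin k)) :
    Pr x u t = if t.2 = x then u t else 0 := by
  have h := (forest (bouquet k)).fib_apply x u t
  by_cases h1 : t.2 = x
  · rw [if_pos h1]
    exact h.trans (if_pos h1)
  · rw [if_neg h1]
    exact h.trans (if_neg h1)

lemma Up_apply (e : Fin k × Bool) (u : HB k) (t : FreeGroup (Fin k × Bool) × Option (Fin k)) :
    Up e u t = if some e.1 = t.2 then u (t.1 * FreeGroup.mk [(e, true)], none) else 0 := by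
  have h := (forest (bouquet k)).shiftCLM_apply (e, true) u t
  by_cases h1 : some e.1 = t.2
  · rw [if_pos h1]
    exact h.trans (if_pos h1)
  · rw [if_neg h1]
    exact h.trans (if_neg h1)

lemma adjoint_Up (e : Fin k × Bool) :
    ContinuousLinearMap.adjoint (Up e) = (forest (bouquet k)).shiftCLM (e, false) :=
  (forest (bouquet k)).adjoint_shift (e, true)

lemma Down_apply (e : Fin k × Bool) (u : HB k)
    (t : FreeGroup (Fin k × Bool) × Option (Fin k)) :
    ContinuousLinearMap.adjoint (Up e) u t =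
      if none = t.2 then u (t.1 * FreeGroup.mk [(e, false)], some e.1) else 0 := by
  rw [adjoint_Up]
  have h := (forest (bouquet k)).shiftCLM_apply (e, false) u t
  by_cases h1 : none = t.2
  · rw [if_pos h1]
    exact h.trans (if_pos h1)
  · rw [if_neg h1]
    exact h.trans (if_neg h1)

lemma adjoint_Pr (x : Option (Fin k)) : ContinuousLinearMap.adjoint (Pr x) = Pr x :=
  (forest (bouquet k)).adjoint_fib x

lemma Pr_mul_self (x : Option (Fin k)) : Pr x * Pr x = Pr x := (forest (bouquet k)).fib_mul_self x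

lemma Pr_mul_ne {x y : Option (Fin k)} (h : x ≠ y) : Pr x * Pr y = 0 := by
  classical
  refine ContinuousLinearMap.ext (fun u => ell2_ext (fun t => ?_))
  change Pr x (Pr y u) t = 0
  rw [Pr_apply, Pr_apply]
  by_cases h1 : t.2 = x
  · rw [if_pos h1, if_neg]
    rw [h1]; exact h
  · rw [if_neg h1]

lemma sum_Pr : ∑ x : Option (Fin k), Pr x = 1 := by
  classical
  refine ContinuousLinearMap.ext (fun u => ell2_ext (fun t => ?_))
  rw [sum_apply, lp.coeFn_sum, Finset.sum_apply]
  simp only [Pr_apply]
  simp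

lemma Pr_some_mul_Up (e : Fin k × Bool) : Pr (some e.1) * Up e = Up e := by
  classical
  refine ContinuousLinearMap.ext (fun u => ell2_ext (fun t => ?_))
  change Pr (some e.1) (Up e u) t = Up e u t
  rw [Pr_apply, Up_apply]
  by_cases h1 : t.2 = some e.1
  · rw [if_pos h1]
  · rw [if_neg h1, if_neg (fun h => h1 h.symm)]

lemma Up_mul_Pr_none (e : Fin k × Bool) : Up e * Pr none = Up e := by
  classical
  refine ContinuousLinearMap.ext (fun u => ell2_ext (fun t => ?_))
  change Up e (Pr none u) t = Up e u t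
  rw [Up_apply, Up_apply, Pr_apply]
  simp

lemma norm_Up (e : Fin k × Bool) (u : HB k) : ‖Up e u‖ = ‖Pr none u‖ :=
  (forest (bouquet k)).norm_shift (e, true) u

lemma Pr_mul_Wp_some (J : Params (Option (Fin k)) (Fin k × Bool)) (c : Fin k) :
    Pr (some c) * Wp J = (J.1.2 (c, false) : ℂ) • Up (c, false) +
      (J.1.2 (c, true) : ℂ) • Up (c, true) := by
  classical
  unfold Wp
  rw [Finset.mul_sum, Fintype.sum_prod_type]
  rw [Finset.sum_eq_single c]
  · rw [Fintype.sum_bool, add_comm, mul_smul_comm, mul_smul_comm]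
    rw [Pr_some_mul_Up (c, false), Pr_some_mul_Up (c, true)]
  · intro c' _ hc'
    refine Finset.sum_eq_zero (fun κ _ => ?_)
    rw [mul_smul_comm, ← Pr_some_mul_Up (c', κ), ← mul_assoc, Pr_mul_ne, zero_mul, smul_zero]
    simpa using hc'.symm
  · intro h; exact absurd (Finset.mem_univ _) h

lemma Pr_none_mul_Wp (J : Params (Option (Fin k)) (Fin k × Bool)) : Pr none * Wp J = 0 := by
  unfold Wp
  rw [Finset.mul_sum]
  refine Finset.sum_eq_zero (fun e _ => ?_)
  rw [mul_smul_comm, ← Pr_some_mul_Up e, ← mul_assoc, Pr_mul_ne (by simp), zero_mul, smul_zero]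

lemma Wp_mul_Pr_none (J : Params (Option (Fin k)) (Fin k × Bool)) : Wp J * Pr none = Wp J := by
  unfold Wp
  rw [Finset.sum_mul]
  refine Finset.sum_congr rfl (fun e _ => ?_)
  rw [smul_mul_assoc, Up_mul_Pr_none]

lemma HJ_eq (J : Params (Option (Fin k)) (Fin k × Bool)) :
    HJ J = ∑ x, (J.1.1 x : ℂ) • Pr x + (Wp J + ContinuousLinearMap.adjoint (Wp J)) := by
  unfold HJ
  rw [Cover.jacobiOp_eq]
  congr 1
  rw [Fintype.sum_prod_type]
  simp only [Fintype.sum_bool]
  rw [Finset.sum_add_distrib]
  congr 1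
  unfold Wp
  rw [map_sum]
  refine Finset.sum_congr rfl (fun e _ => ?_)
  rw [map_smulₛₗ, adjoint_Up]
  simp

lemma HJ_isSelfAdjoint (J : Params (Option (Fin k)) (Fin k × Bool)) : IsSelfAdjoint (HJ J) :=
  (forest (bouquet k)).jacobiOp_isSelfAdjoint J

lemma HJ_eqv (J : Params (Option (Fin k)) (Fin k × Bool)) : Eqv (HJ J) := jacobi_eqv J

lemma Pr_eqv (x : Option (Fin k)) : Eqv (Pr x) := fib_eqv x

lemma Up_eqv (e : Fin k × Bool) : Eqv (Up e) := shift_eqv (e, true)

lemma Wp_eqv (J : Params (Option (Fin k)) (Fin k × Bool)) : Eqv (Wp J) :=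
  Eqv.sum _ (fun e _ => (Up_eqv e).smul _)

lemma tr_Pr (x : Option (Fin k)) : tr (Pr x) = 1 := tr_fib x

end Bouquet

end Pool.Agent.Work.MP_24ca2e_an
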