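import Pool.Agent.Work.MP_24ca2e_an.KerProj

set_option autoImplicit false
set_option linter.unusedSectionVars false

/-!
Basic facts about the Jacobi operator of a covering graph.
-/

namespace Pool.Agent.Work.MP_24ca2e_an

open MeasureTheory Filter Topology

section Ell2

variable {ι : Type}

lemma delta_self (i : ι) : (delta i : Ell2 ι) i = 1 := by
  classical
  unfold delta
  exact lp.single_apply_self (E := fun _ : ι => ℂ) 2 i 1

lemma delta_ne {i j : ι} (h : j ≠ i) : (delta i : Ell2 ι) j = 0 := by
  classical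
  unfold delta
  exact lp.single_apply_ne (E := fun _ : ι => ℂ) 2 i 1 h

lemma delta_apply [DecidableEq ι] (i j : ι) : (delta i : Ell2 ι) j = if j = i then 1 else 0 := by
  by_cases h : j = i
  · subst h
    rw [delta_self, if_pos rfl]
  · rw [if_neg h, delta_ne h]

lemma inner_delta_left (i : ι) (u : Ell2 ι) : inner ℂ (delta i) u = u i := by
  classical
  unfold delta
  rw [lp.inner_single_left]
  simp

lemma inner_delta_right (i : ι) (u : Ell2 ι) : inner ℂ u (delta i) = (starRingEnd ℂ) (u i) := by
  rw [← inner_conj_symm, inner_delta_left]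

lemma norm_delta (i : ι) : ‖(delta i : Ell2 ι)‖ = 1 := by
  classical
  unfold delta
  rw [lp.norm_single (by norm_num)]
  simp

lemma clm_ext {κ : Type} {S T : Ell2 ι →L[ℂ] Ell2 κ} (h : ∀ i, S (delta i) = T (delta i)) :
    S = T := by
  classical
  refine ContinuousLinearMap.ext (fun u => ?_)
  have h1 := lp.hasSum_single (p := 2) (by norm_num) u
  have h2 : ∀ i, S (lp.single 2 i (u i)) = T (lp.single 2 i (u i)) := by
    intro i
    have : (lp.single 2 i (u i) : Ell2 ι) = (u i) • delta i := by
      unfold delta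
      rw [← lp.single_smul]
      simp
    rw [this, map_smul, map_smul, h i]
  have h3 := (S.hasSum h1)
  have h4 := (T.hasSum h1)
  simp only [h2] at h3
  exact h3.unique h4

lemma ell2_ext {u v : Ell2 ι} (h : ∀ i, u i = v i) : u = v := lp.ext (funext h)

end Ell2

namespace Cover

variable {V E : Type} {G : MGraph V E} (C : Cover G)

lemma start_rev (G : MGraph V E) (d : E × Bool) : G.start (MGraph.rev d) = G.stop d := by
  rcases d with ⟨e, b⟩
  cases b <;> rfl

lemma stop_rev (G : MGraph V E) (d : E × Bool) : G.stop (MGraph.rev d) = G.start d := by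
  rcases d with ⟨e, b⟩
  cases b <;> rfl

lemma rev_rev (d : E × Bool) : MGraph.rev (MGraph.rev d) = d := by
  rcases d with ⟨e, b⟩
  cases b <;> rfl

lemma nbr_eq_iff (d : E × Bool) (s t : C.T) :
    (G.start d = C.proj s ∧ C.nbr s d = t) ↔
      (G.start (MGraph.rev d) = C.proj t ∧ C.nbr t (MGraph.rev d) = s) := by
  constructor
  · rintro ⟨h1, h2⟩
    subst h2
    exact ⟨by rw [start_rev, C.proj_nbr s d h1], C.nbr_rev s d h1⟩
  · rintro ⟨h1, h2⟩
    subst h2
    refine ⟨?_, ?_⟩
    · rw [C.proj_nbr t _ h1, stop_rev]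
    · have := C.nbr_rev t (MGraph.rev d) h1
      rwa [rev_rev] at this

lemma shift_delta (d : E × Bool) (t : C.T) (h : G.start (MGraph.rev d) = C.proj t) :
    C.shiftCLM d (delta t) = delta (C.nbr t (MGraph.rev d)) := by
  classical
  refine ell2_ext (fun s => ?_)
  rw [shiftCLM_apply, delta_apply, delta_apply]
  have key := C.nbr_eq_iff d s t
  by_cases h1 : s = C.nbr t (MGraph.rev d)
  · rw [if_pos h1]
    obtain ⟨h2, h3⟩ := key.2 ⟨h, h1.symm⟩
    rw [if_pos h2, if_pos h3]
  · rw [if_neg h1]
    by_cases h2 : G.start d = C.proj s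
    · rw [if_pos h2]
      by_cases h3 : C.nbr s d = t
      · exact absurd (key.1 ⟨h2, h3⟩).2.symm h1
      · rw [if_neg h3]
    · rw [if_neg h2]

lemma shift_delta_zero (d : E × Bool) (t : C.T) (h : G.start (MGraph.rev d) ≠ C.proj t) :
    C.shiftCLM d (delta t) = 0 := by
  classical
  refine ell2_ext (fun s => ?_)
  rw [shiftCLM_apply, delta_apply]
  have key := C.nbr_eq_iff d s t
  change _ = (0 : ℂ)
  by_cases h2 : G.start d = C.proj s
  · rw [if_pos h2]
    by_cases h3 : C.nbr s d = t
    · exact absurd (key.1 ⟨h2, h3⟩).1 h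
    · rw [if_neg h3]
  · rw [if_neg h2]

/-- The adjoint of a shift is the reverse shift. -/
lemma adjoint_shift (d : E × Bool) :
    ContinuousLinearMap.adjoint (C.shiftCLM d) = C.shiftCLM (MGraph.rev d) := by
  classical
  refine clm_ext (fun t => ell2_ext (fun s => ?_))
  rw [← inner_delta_left s, ContinuousLinearMap.adjoint_inner_right, inner_delta_right]
  by_cases h : G.start (MGraph.rev d) = C.proj s
  · rw [C.shift_delta d s h, shiftCLM_apply, if_pos h, delta_apply, delta_apply]
    by_cases h2 : t = C.nbr s (MGraph.rev d)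
    · rw [if_pos h2, if_pos h2.symm]; simp
    · rw [if_neg h2, if_neg (fun h3 => h2 h3.symm)]; simp
  · rw [C.shift_delta_zero d s h, shiftCLM_apply, if_neg h]
    change (starRingEnd ℂ) (0 : ℂ) = 0
    simp

open Classical in
/-- The projection onto the functions supported on the fibre of `x`. -/
noncomputable def fib (x : V) : Ell2 C.T →L[ℂ] Ell2 C.T :=
  C.mulCLM (fun t => if C.proj t = x then 1 else 0) 1 (fun t => by
    by_cases h : C.proj t = x <;> simp [h])

open Classical in
lemma fib_apply (x : V) (u : Ell2 C.T) (t : C.T) :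
    C.fib x u t = if C.proj t = x then u t else 0 := by
  unfold fib
  rw [mulCLM_apply]
  by_cases h : C.proj t = x <;> simp [h]

lemma adjoint_mulCLM (c : C.T → ℝ) (M : ℝ) (hM : ∀ t, |c t| ≤ M) :
    ContinuousLinearMap.adjoint (C.mulCLM c M hM) = C.mulCLM c M hM := by
  classical
  refine clm_ext (fun t => ell2_ext (fun s => ?_))
  rw [← inner_delta_left s, ContinuousLinearMap.adjoint_inner_right, inner_delta_right]
  rw [mulCLM_apply, mulCLM_apply, delta_apply, delta_apply]
  by_cases h : t = s
  · subst h; simp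
  · rw [if_neg h, if_neg (fun h2 => h h2.symm)]; simp

lemma adjoint_fib (x : V) : ContinuousLinearMap.adjoint (C.fib x) = C.fib x :=
  C.adjoint_mulCLM _ _ _

lemma fib_delta_self (t : C.T) : C.fib (C.proj t) (delta t) = delta t := by
  classical
  refine ell2_ext (fun s => ?_)
  rw [fib_apply, delta_apply]
  by_cases h : s = t
  · subst h; simp
  · simp [h]

lemma fib_delta_ne {x : V} (t : C.T) (h : C.proj t ≠ x) : C.fib x (delta t) = 0 := by
  classical
  refine ell2_ext (fun s => ?_)
  rw [fib_apply, delta_apply]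
  change _ = (0 : ℂ)
  by_cases h2 : s = t
  · subst h2; simp [h]
  · simp [h2]

lemma fib_mul_self (x : V) : C.fib x * C.fib x = C.fib x := by
  classical
  refine clm_ext (fun t => ?_)
  change C.fib x (C.fib x (delta t)) = C.fib x (delta t)
  by_cases h : C.proj t = x
  · subst h; rw [C.fib_delta_self, C.fib_delta_self]
  · rw [C.fib_delta_ne t h, map_zero]

/-- A shift is an isometry on the fibre over its end. -/
lemma shift_rev_mul_shift (d : E × Bool) :
    C.shiftCLM (MGraph.rev d) * C.shiftCLM d = C.fib (G.stop d) := by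
  classical
  refine clm_ext (fun t => ?_)
  change C.shiftCLM (MGraph.rev d) (C.shiftCLM d (delta t)) = _
  by_cases h : G.start (MGraph.rev d) = C.proj t
  · rw [C.shift_delta d t h]
    have h1 : G.stop d = C.proj t := by rw [← start_rev, h]
    have h2 := C.nbr_rev t (MGraph.rev d) h
    have h3 := C.proj_nbr t (MGraph.rev d) h
    rw [stop_rev] at h3
    rw [C.shift_delta (MGraph.rev d) _ (by rw [rev_rev, h3])]
    rw [h2, h1, C.fib_delta_self]
  · rw [C.shift_delta_zero d t h, map_zero]
    rw [C.fib_delta_ne t]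
    intro h1
    exact h (by rw [start_rev, h1])

lemma norm_shift (d : E × Bool) (u : Ell2 C.T) :
    ‖C.shiftCLM d u‖ = ‖C.fib (G.stop d) u‖ := by
  have h1 : ‖C.shiftCLM d u‖ ^ 2 = ‖C.fib (G.stop d) u‖ ^ 2 := by
    have e1 : inner ℂ (C.shiftCLM d u) (C.shiftCLM d u)
        = inner ℂ (C.fib (G.stop d) u) (C.fib (G.stop d) u) := by
      rw [← ContinuousLinearMap.adjoint_inner_right, C.adjoint_shift,
        ← ContinuousLinearMap.adjoint_inner_right (C.fib (G.stop d)), C.adjoint_fib]
      have e2 : C.shiftCLM (MGraph.rev d) (C.shiftCLM d u)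
          = (C.shiftCLM (MGraph.rev d) * C.shiftCLM d) u := rfl
      have e3 : C.fib (G.stop d) (C.fib (G.stop d) u)
          = (C.fib (G.stop d) * C.fib (G.stop d)) u := rfl
      rw [e2, e3, C.shift_rev_mul_shift, C.fib_mul_self]
    rw [inner_self_eq_norm_sq_to_K, inner_self_eq_norm_sq_to_K] at e1
    exact_mod_cast e1
  exact (sq_eq_sq₀ (norm_nonneg _) (norm_nonneg _)).1 h1

section Jac

variable [Fintype V] [Fintype E]

lemma jacobiOp_eq (J : Params V E) :
    C.jacobiOp J = ∑ x : V, (J.1.1 x : ℂ) • C.fib x +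
      ∑ d : E × Bool, (J.1.2 d.1 : ℂ) • C.shiftCLM d := by
  classical
  refine ContinuousLinearMap.ext (fun u => ell2_ext (fun t => ?_))
  rw [jacobiOp_apply]
  simp only [add_apply, sum_apply, smul_apply, lp.coeFn_add, lp.coeFn_sum, Pi.add_apply,
    Finset.sum_apply, lp.coeFn_smul, Pi.smul_apply, smul_eq_mul, shiftCLM_apply, fib_apply,
    jacobiFun]
  congr 1
  · simp
  · refine Finset.sum_congr rfl (fun d _ => ?_)
    by_cases h : G.start d = C.proj t <;> simp [h]

lemma jacobiOp_isSelfAdjoint (J : Params V E) : IsSelfAdjoint (C.jacobiOp J) := by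
  rw [IsSelfAdjoint, ContinuousLinearMap.star_eq_adjoint, jacobiOp_eq, map_add, map_sum, map_sum]
  congr 1
  · refine Finset.sum_congr rfl (fun x _ => ?_)
    rw [map_smulₛₗ, C.adjoint_fib]
    simp
  · have h : ∀ d : E × Bool, ContinuousLinearMap.adjoint ((J.1.2 d.1 : ℂ) • C.shiftCLM d)
        = (J.1.2 (MGraph.rev d).1 : ℂ) • C.shiftCLM (MGraph.rev d) := by
      intro d
      rw [map_smulₛₗ, C.adjoint_shift]
      simp [MGraph.rev]
    simp only [h]
    exact Function.Bijective.sum_comp (e := MGraph.rev)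
      (Function.Involutive.bijective (fun d => rev_rev d))
      (fun d : E × Bool => (J.1.2 d.1 : ℂ) • C.shiftCLM d)

open Classical in
lemma jacobiOp_delta (J : Params V E) (t : C.T) :
    C.jacobiOp J (delta t) = (J.1.1 (C.proj t) : ℂ) • delta t +
      ∑ d : E × Bool, if G.start d = C.proj t then (J.1.2 d.1 : ℂ) • delta (C.nbr t d) else 0 := by
  rw [jacobiOp_eq, add_apply, sum_apply, sum_apply]
  congr 1
  · rw [Finset.sum_eq_single (C.proj t)]
    · rw [smul_apply, C.fib_delta_self]
    · intro x _ hx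
      rw [smul_apply, C.fib_delta_ne t (fun h => hx h.symm), smul_zero]
    · intro h; exact absurd (Finset.mem_univ _) h
  · rw [← Function.Bijective.sum_comp (e := MGraph.rev)
      (Function.Involutive.bijective (fun d => rev_rev d))
      (fun d : E × Bool => if G.start d = C.proj t then (J.1.2 d.1 : ℂ) • delta (C.nbr t d) else 0)]
    refine Finset.sum_congr rfl (fun d _ => ?_)
    rw [smul_apply]
    by_cases h : G.start (MGraph.rev d) = C.proj t
    · rw [C.shift_delta d t h, if_pos h]
      rfl
    · rw [C.shift_delta_zero d t h, if_neg h, smul_zero]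

end Jac

end Cover

end Pool.Agent.Work.MP_24ca2e_an
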