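import Pool.Agent.Work.MP_24ca2e_an.Bounded

set_option autoImplicit false

/-!
The Jacobi operator, the density of states and the IsoDOS set.
-/

namespace Pool.Agent.Work.MP_24ca2e_an

open MeasureTheory

namespace Cover

variable {V E : Type} {G : MGraph V E} (C : Cover G)

lemma exists_clm [Finite V] [Fintype E] (J : Params V E) :
    ∃ H : Op C.T, C.IsJacobiOp J H := C.exists_clm_aux J

/-- The periodic Jacobi matrix `H` on `ℓ²(T)`, the bounded operator given by `jacobiFun`
(see `jacobiOp_apply`). -/
noncomputable def jacobiOp [Finite V] [Fintype E] (J : Params V E) : Op C.T :=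
  (C.exists_clm J).choose

lemma jacobiOp_apply [Finite V] [Fintype E] (J : Params V E) (u : Ell2 C.T) (t : C.T) :
    C.jacobiOp J u t = C.jacobiFun J u t := congrFun ((C.exists_clm J).choose_spec u) t

/-- `k` is the density of states of `J`: a probability measure on `ℝ` with
`∫ f dk = (1/p) ∑ ⟨δ, f(H) δ⟩` for every continuous `f`, the sum being over the `p` vertices `x` of
`G` and `δ` the basis vector at any vertex `ℓ x` of the covering tree over `x`. -/
def IsDOS [Fintype V] [Fintype E] (J : Params V E) (k : Measure ℝ) : Prop :=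
  IsProbabilityMeasure k ∧
    ∀ ℓ : V → C.T, (∀ x, C.proj (ℓ x) = x) → ∀ f : ℝ → ℝ, Continuous f →
      ((∫ x, f x ∂k : ℝ) : ℂ) = (1 / (Fintype.card V : ℂ)) *
        ∑ x, specInt (C.jacobiOp J) (delta (ℓ x)) f

/-- The IsoDOS set of `J₀`: all `J` whose density of states equals that of `J₀`, with the
subspace topology. -/
def isoDOS [Fintype V] [Fintype E] (J₀ : Params V E) : Set (Params V E) :=
  {J | ∃ k : Measure ℝ, C.IsDOS J k ∧ C.IsDOS J₀ k}

end Cover

end Pool.Agent.Work.MP_24ca2e_an
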