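import Mathlib

set_option autoImplicit false

/-!
Definitions for IsoDOS sets of periodic Jacobi matrices on trees.
-/

namespace Pool.Agent.Work.MP_24ca2e_an

open MeasureTheory

/-- A multigraph with vertex type `V` and edge type `E`.  The edge `e` has the two ends `fst e` and
`snd e`; loops (`fst e = snd e`) and multiple edges are allowed. -/
structure MGraph (V E : Type) where
  /-- one end of an edge -/
  fst : E → V
  /-- the other end of an edge -/
  snd : E → V

namespace MGraph

variable {V E : Type} (G : MGraph V E)

/-- A dart is an edge together with a direction: `(e, false)` runs from `fst e` to `snd e` and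
`(e, true)` runs from `snd e` to `fst e`.  This is the start of a dart. -/
def start (d : E × Bool) : V := if d.2 then G.snd d.1 else G.fst d.1

/-- The end of a dart. -/
def stop (d : E × Bool) : V := if d.2 then G.fst d.1 else G.snd d.1

/-- The reversed dart. -/
def rev (d : E × Bool) : E × Bool := (d.1, !d.2)

open Classical in
/-- The degree of a vertex: the number of darts starting there (a loop contributes `2`). -/
noncomputable def degree [Fintype E] (x : V) : ℕ :=
  (Finset.univ.filter (fun d : E × Bool => G.start d = x)).card

/-- `IsWalk x w y`: the list of darts `w` is a walk from `x` to `y`. -/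
def IsWalk : V → List (E × Bool) → V → Prop
  | x, [], y => x = y
  | x, d :: w, y => G.start d = x ∧ IsWalk (G.stop d) w y

/-- `G` is connected. -/
def Connected : Prop := ∀ x y, ∃ w, G.IsWalk x w y

/-- A list of darts is non-backtracking if no dart is followed by its reverse. -/
def NonBacktracking (w : List (E × Bool)) : Prop := List.IsChain (fun d d' => d' ≠ rev d) w

end MGraph

/-- A covering graph of the multigraph `G`: a vertex type `T` with a projection to `V`, and for
every vertex `t` and every dart `d` of `G` starting at `proj t` a neighbour `nbr t d` lying over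
the end of `d`, such that the reversed dart leads back to `t`.  (The values `nbr t d` for darts `d`
not starting at `proj t` play no role.) -/
structure Cover {V E : Type} (G : MGraph V E) where
  /-- the vertices of the covering graph -/
  T : Type
  /-- the covering map on vertices -/
  proj : T → V
  /-- the neighbour of a vertex along a dart -/
  nbr : T → E × Bool → T
  proj_nbr : ∀ t d, G.start d = proj t → proj (nbr t d) = G.stop d
  nbr_rev : ∀ t d, G.start d = proj t → nbr (nbr t d) (MGraph.rev d) = t

/-- The space `P(G)` of Jacobi matrices on a graph with vertices `V` and edges `E`: pairs `(b, a)`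
of a real function on the vertices and a positive function on the edges, with the Euclidean
topology. -/
abbrev Params (V E : Type) : Type := {J : (V → ℝ) × (E → ℝ) // ∀ e, 0 < J.2 e}

/-- The Hilbert space `ℓ²(ι)`. -/
abbrev Ell2 (ι : Type) : Type := lp (fun _ : ι => ℂ) 2

/-- `ℓ²(ι)` is complete. -/
instance ell2Complete (ι : Type) : CompleteSpace (Ell2 ι) :=
  inferInstanceAs (CompleteSpace (lp (fun _ : ι => ℂ) 2))

/-- The bounded operators on `ℓ²(ι)`. -/
abbrev Op (ι : Type) : Type := Ell2 ι →L[ℂ] Ell2 ι

/-- The coordinate function `ι → ℂ` of a vector of `ℓ²(ι)`. -/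
noncomputable abbrev coords {ι : Type} (u : Ell2 ι) : ι → ℂ := u

/-- The value `H u` of a bounded operator `H` at a vector `u`. -/
noncomputable abbrev applyOp {ι : Type} (H : Op ι) (u : Ell2 ι) : Ell2 ι := H u

open Classical in
/-- The standard basis vector. -/
noncomputable def delta {ι : Type} (i : ι) : Ell2 ι := lp.single 2 i (1 : ℂ)

/-- The number `⟨v, f(A) v⟩` for a self-adjoint operator `A` on a Hilbert space, a vector `v` and a
continuous function `f` on the real line (`cfc` is the continuous functional calculus). -/
noncomputable def specInt {X : Type} [NormedAddCommGroup X] [InnerProductSpace ℂ X]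
    [CompleteSpace X] (A : X →L[ℂ] X) (v : X) (f : ℝ → ℝ) : ℂ :=
  inner ℂ v (cfc f A v)

namespace Cover

variable {V E : Type} {G : MGraph V E} (C : Cover G)

/-- Follow a list of darts in the covering graph. -/
def follow (t : C.T) (w : List (E × Bool)) : C.T := w.foldl C.nbr t

/-- `C` is the universal cover of `G`: it is connected and it is a tree, i.e. no nonempty
non-backtracking walk is closed. -/
structure IsUniversal : Prop where
  nonempty : Nonempty C.T
  connected : ∀ t t' : C.T, ∃ w, G.IsWalk (C.proj t) w (C.proj t') ∧ C.follow t w = t'
  tree : ∀ (t : C.T) (w : List (E × Bool)), G.IsWalk (C.proj t) w (C.proj t) →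
    MGraph.NonBacktracking w → C.follow t w = t → w = []

open Classical in
/-- The formula defining the Jacobi operator:
`(H u)(t) = b(Ξ t) u(t) + ∑ a(e) u(t')`, the sum over the neighbours `t'` of `t`, one for each
dart starting at `Ξ t`. -/
noncomputable def jacobiFun [Fintype E] (J : Params V E) (u : C.T → ℂ) (t : C.T) : ℂ :=
  (J.1.1 (C.proj t) : ℂ) * u t +
    ∑ d : E × Bool, if G.start d = C.proj t then (J.1.2 d.1 : ℂ) * u (C.nbr t d) else 0

/-- The bounded operator `H` on `ℓ²(T)` is given by the formula `jacobiFun`. -/
def IsJacobiOp [Fintype E] (J : Params V E) (H : Op C.T) : Prop :=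
  ∀ u : Ell2 C.T, coords (applyOp H u) = C.jacobiFun J (coords u)

end Cover

end Pool.Agent.Work.MP_24ca2e_an
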