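import Pool.Agent.Work.MP_24ca2e_an.Defs

set_option autoImplicit false

/-!
Facts about self-adjoint operators on abstract Hilbert spaces: spectral functionals are determined
by moments, existence of the averaged spectral measure, and the mass of the kernel.
-/

namespace Pool.Agent.Work.MP_24ca2e_an

open MeasureTheory Filter Topology

section Moments

variable {X : Type} [NormedAddCommGroup X] [InnerProductSpace ℂ X] [CompleteSpace X]
variable {Y : Type} [NormedAddCommGroup Y] [InnerProductSpace ℂ Y] [CompleteSpace Y]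

lemma specInt_pow (A : X →L[ℂ] X) (hA : IsSelfAdjoint A) (v : X) (n : ℕ) :
    specInt A v (fun x => x ^ n) = inner ℂ v ((A ^ n) v) := by
  unfold specInt
  rw [cfc_pow_id (R := ℝ) A n hA]

lemma specInt_poly (A : X →L[ℂ] X) (hA : IsSelfAdjoint A) (v : X) (p : Polynomial ℝ) :
    specInt A v (fun x => p.eval x) = ∑ n ∈ p.support, (p.coeff n : ℂ) * inner ℂ v ((A ^ n) v) := by
  unfold specInt
  rw [cfc_polynomial (R := ℝ) p A hA, Polynomial.aeval_eq_sum_range' (n := p.natDegree + 1) (by omega)]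
  rw [sum_apply, inner_sum]
  rw [← Finset.sum_subset (s₁ := p.support) (s₂ := Finset.range (p.natDegree + 1))]
  · refine Finset.sum_congr rfl (fun n _ => ?_)
    rw [smul_apply]
    rw [← Complex.coe_smul (p.coeff n), inner_smul_right]
  · intro n hn
    rw [Finset.mem_range]
    exact Nat.lt_succ_of_le (Polynomial.le_natDegree_of_mem_supp n hn)
  · intro n _ hn
    rw [Polynomial.notMem_support_iff.1 hn]
    simp

lemma norm_specInt_sub_le (A : X →L[ℂ] X) (v : X) (f g : ℝ → ℝ)
    (hf : Continuous f) (hg : Continuous g) (ε R : ℝ) (hε : 0 ≤ ε) (hR : ‖A‖ * ‖(1 : X →L[ℂ] X)‖ ≤ R)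
    (h : ∀ x ∈ Set.Icc (-R) R, |f x - g x| ≤ ε) :
    ‖specInt A v f - specInt A v g‖ ≤ ε * ‖v‖ ^ 2 := by
  unfold specInt
  rw [← inner_sub_right]
  have h1 : cfc f A v - cfc g A v = (cfc (fun x => f x - g x) A) v := by
    rw [cfc_sub f g A hf.continuousOn hg.continuousOn]
    rfl
  rw [h1]
  have h2 : ‖cfc (fun x => f x - g x) A‖ ≤ ε := by
    refine norm_cfc_le hε (fun x hx => ?_)
    rw [Real.norm_eq_abs]
    refine h x ?_
    have := spectrum.norm_le_norm_mul_of_mem hx
    rw [Real.norm_eq_abs] at this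
    exact abs_le.1 (this.trans hR)
  calc ‖inner ℂ v ((cfc (fun x => f x - g x) A) v)‖
      ≤ ‖v‖ * ‖(cfc (fun x => f x - g x) A) v‖ := norm_inner_le_norm _ _
    _ ≤ ‖v‖ * (ε * ‖v‖) := by
        refine mul_le_mul_of_nonneg_left ?_ (norm_nonneg _)
        exact ContinuousLinearMap.le_of_opNorm_le _ h2 _
    _ = ε * ‖v‖ ^ 2 := by ring

/-- Spectral functionals are determined by the moments. -/
theorem sum_specInt_congr {I : Type} [Fintype I] (A : X →L[ℂ] X) (hA : IsSelfAdjoint A)
    (B : Y →L[ℂ] Y) (hB : IsSelfAdjoint B) (v : I → X) (w : I → Y)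
    (h : ∀ n : ℕ, ∑ i, inner ℂ (v i) ((A ^ n) (v i)) = ∑ i, inner ℂ (w i) ((B ^ n) (w i)))
    (f : ℝ → ℝ) (hf : Continuous f) :
    ∑ i, specInt A (v i) f = ∑ i, specInt B (w i) f := by
  have hpoly : ∀ p : Polynomial ℝ, ∑ i, specInt A (v i) (fun x => p.eval x)
      = ∑ i, specInt B (w i) (fun x => p.eval x) := by
    intro p
    simp only [specInt_poly A hA, specInt_poly B hB]
    rw [Finset.sum_comm, Finset.sum_comm (s := Finset.univ) (t := p.support)]
    refine Finset.sum_congr rfl (fun n _ => ?_)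
    rw [← Finset.mul_sum, ← Finset.mul_sum, h n]
  set R : ℝ := max (‖A‖ * ‖(1 : X →L[ℂ] X)‖) (‖B‖ * ‖(1 : Y →L[ℂ] Y)‖) with hRdef
  set K : ℝ := ∑ i, ‖v i‖ ^ 2 + ∑ i, ‖w i‖ ^ 2 with hK
  have hK0 : 0 ≤ K := by positivity
  have key : ∀ ε : ℝ, 0 < ε → ‖∑ i, specInt A (v i) f - ∑ i, specInt B (w i) f‖ ≤ ε * K := by
    intro ε hε
    obtain ⟨p, hp⟩ := exists_polynomial_near_of_continuousOn (-R) R f hf.continuousOn ε hε
    have hp' : ∀ x ∈ Set.Icc (-R) R, |f x - p.eval x| ≤ ε := by
      intro x hx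
      rw [abs_sub_comm]
      exact (hp x hx).le
    have e1 : ∑ i, specInt A (v i) f - ∑ i, specInt B (w i) f
        = ∑ i, (specInt A (v i) f - specInt A (v i) (fun x => p.eval x))
          - ∑ i, (specInt B (w i) f - specInt B (w i) (fun x => p.eval x)) := by
      rw [Finset.sum_sub_distrib, Finset.sum_sub_distrib, hpoly p]
      ring
    rw [e1]
    refine (norm_sub_le _ _).trans ?_
    have b1 : ‖∑ i, (specInt A (v i) f - specInt A (v i) (fun x => p.eval x))‖
        ≤ ε * ∑ i, ‖v i‖ ^ 2 := by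
      refine (norm_sum_le _ _).trans ?_
      rw [Finset.mul_sum]
      refine Finset.sum_le_sum (fun i _ => ?_)
      exact norm_specInt_sub_le A (v i) f _ hf p.continuous ε R hε.le (le_max_left _ _) hp'
    have b2 : ‖∑ i, (specInt B (w i) f - specInt B (w i) (fun x => p.eval x))‖
        ≤ ε * ∑ i, ‖w i‖ ^ 2 := by
      refine (norm_sum_le _ _).trans ?_
      rw [Finset.mul_sum]
      refine Finset.sum_le_sum (fun i _ => ?_)
      exact norm_specInt_sub_le B (w i) f _ hf p.continuous ε R hε.le (le_max_right _ _) hp'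
    calc _ ≤ ε * ∑ i, ‖v i‖ ^ 2 + ε * ∑ i, ‖w i‖ ^ 2 := add_le_add b1 b2
      _ = ε * K := by rw [hK]; ring
  have h0 : ‖∑ i, specInt A (v i) f - ∑ i, specInt B (w i) f‖ ≤ 0 := by
    refine le_of_forall_pos_le_add (fun ε hε => ?_)
    have := key (ε / (K + 1)) (by positivity)
    refine this.trans ?_
    rw [zero_add, div_mul_eq_mul_div, div_le_iff₀ (by positivity)]
    nlinarith
  have := norm_le_zero_iff.1 h0
  exact sub_eq_zero.1 this

end Moments

section Measure

variable {X : Type} [NormedAddCommGroup X] [InnerProductSpace ℂ X] [CompleteSpace X]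

lemma cfcHom_inner_nonneg (A : X →L[ℂ] X) (hA : IsSelfAdjoint A)
    (g : C(spectrum ℝ A, ℝ)) (hg : ∀ x, 0 ≤ g x) (v : X) :
    0 ≤ (inner ℂ v (cfcHom hA g v)).re := by
  set h : C(spectrum ℝ A, ℝ) := ⟨fun x => Real.sqrt (g x), by fun_prop⟩ with hh
  have h1 : g = h * h := by
    ext x
    change g x = Real.sqrt (g x) * Real.sqrt (g x)
    exact (Real.mul_self_sqrt (hg x)).symm
  have h2 : IsSelfAdjoint (cfcHom hA h) := by
    have : star h = h := by
      ext x; simp
    rw [IsSelfAdjoint, ← map_star, this]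
  rw [h1, map_mul]
  have e : (cfcHom hA h * cfcHom hA h) v = cfcHom hA h (cfcHom hA h v) := rfl
  rw [e]
  have h3 := h2.adjoint_eq
  rw [← ContinuousLinearMap.adjoint_inner_left, h3]
  rw [inner_self_eq_norm_sq_to_K]
  norm_cast
  exact sq_nonneg _

lemma cfcHom_inner_im (A : X →L[ℂ] X) (hA : IsSelfAdjoint A)
    (g : C(spectrum ℝ A, ℝ)) (v : X) :
    (inner ℂ v (cfcHom hA g v)).im = 0 := by
  have h2 : IsSelfAdjoint (cfcHom hA g) := by
    have : star g = g := by
      ext x; simp
    rw [IsSelfAdjoint, ← map_star, this]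
  have h3 := h2.adjoint_eq
  have h4 : inner ℂ v (cfcHom hA g v) = inner ℂ (cfcHom hA g v) v := by
    rw [← ContinuousLinearMap.adjoint_inner_left, h3]
  have h5 := inner_conj_symm (𝕜 := ℂ) v (cfcHom hA g v)
  rw [← h4] at h5
  exact Complex.conj_eq_iff_im.1 h5

theorem exists_measure {I : Type} [Fintype I] [Nonempty I] (A : X →L[ℂ] X)
    (hA : IsSelfAdjoint A) (v : I → X) (hv : ∀ i, ‖v i‖ = 1) :
    ∃ k : Measure ℝ, IsProbabilityMeasure k ∧ ∀ f : ℝ → ℝ, Continuous f →
      ((∫ x, f x ∂k : ℝ) : ℂ) = (1 / (Fintype.card I : ℂ)) * ∑ i, specInt A (v i) f := by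
  classical
  have hK : CompactSpace (spectrum ℝ A) := inferInstance
  let F : C(spectrum ℝ A, ℝ) → ℝ := fun g => (1 / (Fintype.card I : ℝ)) *
        ∑ i, (inner ℂ (v i) (cfcHom hA g (v i))).re
  have Fadd : ∀ f g, F (f + g) = F f + F g := by
    intro f g
    simp only [F]
    rw [map_add, ← mul_add, ← Finset.sum_add_distrib]
    congr 1
    refine Finset.sum_congr rfl (fun i _ => ?_)
    rw [add_apply, inner_add_right, Complex.add_re]
  have Fsmul : ∀ (c : ℝ) g, F (c • g) = c * F g := by
    intro c g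
    simp only [F]
    have h : ∀ i, (inner ℂ (v i) (cfcHom hA (c • g) (v i))).re
        = c * (inner ℂ (v i) (cfcHom hA g (v i))).re := by
      intro i
      rw [map_smul, smul_apply, ← Complex.coe_smul, inner_smul_right]
      simp
    simp only [h]
    rw [← Finset.mul_sum]
    ring
  have Fnonneg : ∀ g : C(spectrum ℝ A, ℝ), (∀ x, 0 ≤ g x) → 0 ≤ F g := by
    intro g hg
    have h0 : 0 ≤ ∑ i, (inner ℂ (v i) (cfcHom hA g (v i))).re :=
      Finset.sum_nonneg (fun i _ => cfcHom_inner_nonneg A hA g hg (v i))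
    exact mul_nonneg (by positivity) h0
  let Λ : CompactlySupportedContinuousMap (spectrum ℝ A) ℝ →ₚ[ℝ] ℝ :=
    { toFun := fun g => F g.toContinuousMap
      map_add' := fun f g => Fadd f.toContinuousMap g.toContinuousMap
      map_smul' := fun c g => Fsmul c g.toContinuousMap
      monotone' := by
        intro f g hfg
        have h1 : g.toContinuousMap = f.toContinuousMap + (g.toContinuousMap - f.toContinuousMap) := by
          simp
        change F f.toContinuousMap ≤ F g.toContinuousMap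
        rw [h1, Fadd]
        have : 0 ≤ F (g.toContinuousMap - f.toContinuousMap) :=
          Fnonneg _ (fun x => sub_nonneg.2 (hfg x))
        linarith }
  have hΛ : ∀ g : C(spectrum ℝ A, ℝ), ∫ x, g x ∂(RealRMK.rieszMeasure Λ) = F g := by
    intro g
    let g' : CompactlySupportedContinuousMap (spectrum ℝ A) ℝ :=
      { toFun := g
        hasCompactSupport' := HasCompactSupport.of_compactSpace _ }
    exact RealRMK.integral_rieszMeasure Λ g'
  have hF1 : F 1 = 1 := by
    simp only [F, map_one]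
    have : ∀ i, (inner ℂ (v i) ((1 : X →L[ℂ] X) (v i))).re = 1 := by
      intro i
      change (inner ℂ (v i) (v i)).re = 1
      rw [inner_self_eq_norm_sq_to_K, hv i]
      simp
    simp only [this]
    simp
  have hint : ∀ f : ℝ → ℝ, Continuous f →
      ∫ x, f x ∂((RealRMK.rieszMeasure Λ).map Subtype.val) =
        ∫ x : spectrum ℝ A, f x.1 ∂(RealRMK.rieszMeasure Λ) := by
    intro f hf
    rw [integral_map (φ := Subtype.val) (by fun_prop) (by fun_prop)]
  refine ⟨(RealRMK.rieszMeasure Λ).map Subtype.val, ?_, ?_⟩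
  · constructor
    rw [Measure.map_apply (by fun_prop) MeasurableSet.univ, Set.preimage_univ]
    have h1 := hΛ 1
    rw [hF1] at h1
    simp only [ContinuousMap.one_apply, integral_const, smul_eq_mul, mul_one] at h1
    rw [Measure.real, ENNReal.toReal_eq_one_iff] at h1
    exact h1
  · intro f hf
    rw [hint f hf]
    have h1 := hΛ ⟨fun x => f x.1, by fun_prop⟩
    change ∫ x : spectrum ℝ A, f x.1 ∂(RealRMK.rieszMeasure Λ) = _ at h1
    rw [h1]
    simp only [F]
    push_cast
    congr 1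
    refine Finset.sum_congr rfl (fun i _ => ?_)
    unfold specInt
    rw [cfc_apply f A hA hf.continuousOn]
    apply Complex.ext
    · simp only [Complex.ofReal_re]
      rfl
    · rw [Complex.ofReal_im]
      exact (cfcHom_inner_im A hA _ (v i)).symm

end Measure

end Pool.Agent.Work.MP_24ca2e_an
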