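import Pool.Agent.Work.MP_24ca2e_an.Moments

set_option autoImplicit false
set_option linter.unusedSectionVars false

/-!
The IsoDOS set in terms of moments.
-/

namespace Pool.Agent.Work.MP_24ca2e_an

open MeasureTheory Filter Topology

section General

variable {V E : Type} {G : MGraph V E} {C : Cover G}

lemma Cover.IsUniversal.exists_section (hC : C.IsUniversal) (hG : G.Connected) :
    ∃ ℓ : V → C.T, ∀ x, C.proj (ℓ x) = x := by
  obtain ⟨t₀⟩ := hC.nonempty
  choose w hw using fun x => hG (C.proj t₀) x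
  exact ⟨fun x => C.follow t₀ (w x), fun x => Cover.proj_follow C (hw x)⟩

variable [Fintype V] [Fintype E]

/-- The moments of `J`. -/
noncomputable def mom (G : MGraph V E) (J : Params V E) (n : ℕ) : ℂ :=
  tr (Γ := FreeGroup E) (V := V) ((forest G).jacobiOp J ^ n)

lemma Cover.IsUniversal.sum_moment (hC : C.IsUniversal) (J : Params V E) {ℓ : V → C.T}
    (hℓ : ∀ x, C.proj (ℓ x) = x) (n : ℕ) :
    ∑ x, inner ℂ (delta (ℓ x)) ((C.jacobiOp J ^ n) (delta (ℓ x))) = mom G J n := by
  unfold mom tr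
  refine Finset.sum_congr rfl (fun x _ => ?_)
  rw [hC.moment_eq J (ℓ x) n, inner_delta_left, hℓ x]

theorem Cover.IsUniversal.mem_isoDOS_iff [Nonempty V] (hC : C.IsUniversal) (hG : G.Connected)
    (J J₀ : Params V E) : J ∈ C.isoDOS J₀ ↔ ∀ n, mom G J n = mom G J₀ n := by
  obtain ⟨ℓ₀, hℓ₀⟩ := hC.exists_section hG
  constructor
  · rintro ⟨k, ⟨_, h1⟩, ⟨_, h2⟩⟩ n
    have e1 := h1 ℓ₀ hℓ₀ (fun x => x ^ n) (by fun_prop)
    have e2 := h2 ℓ₀ hℓ₀ (fun x => x ^ n) (by fun_prop)
    rw [e1] at e2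
    have hV : (1 / (Fintype.card V : ℂ)) ≠ 0 := by
      have : (Fintype.card V : ℂ) ≠ 0 := Nat.cast_ne_zero.2 Fintype.card_ne_zero
      exact one_div_ne_zero this
    have e3 := mul_left_cancel₀ hV e2
    simp only [specInt_pow _ (C.jacobiOp_isSelfAdjoint _)] at e3
    rwa [hC.sum_moment J hℓ₀ n, hC.sum_moment J₀ hℓ₀ n] at e3
  · intro h
    obtain ⟨k, hk1, hk2⟩ := exists_measure (C.jacobiOp J) (C.jacobiOp_isSelfAdjoint J)
      (fun x => (delta (ℓ₀ x) : Ell2 C.T)) (fun x => norm_delta _)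
    refine ⟨k, ⟨hk1, ?_⟩, ⟨hk1, ?_⟩⟩
    · intro ℓ hℓ f hf
      rw [hk2 f hf]
      congr 1
      refine sum_specInt_congr _ (C.jacobiOp_isSelfAdjoint J) _ (C.jacobiOp_isSelfAdjoint J) _ _
        (fun n => ?_) f hf
      rw [hC.sum_moment J hℓ₀ n, hC.sum_moment J hℓ n]
    · intro ℓ hℓ f hf
      rw [hk2 f hf]
      congr 1
      refine sum_specInt_congr _ (C.jacobiOp_isSelfAdjoint J) _ (C.jacobiOp_isSelfAdjoint J₀) _ _
        (fun n => ?_) f hf
      rw [hC.sum_moment J hℓ₀ n, hC.sum_moment J₀ hℓ n, h n]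

/-- Every `J` has exactly one density of states. -/
theorem Cover.IsUniversal.existsUnique_isDOS [Nonempty V] (hC : C.IsUniversal)
    (hG : G.Connected) (J : Params V E) : ∃! k, C.IsDOS J k := by
  obtain ⟨ℓ, hℓ⟩ := hC.exists_section hG
  obtain ⟨k, hk, _⟩ := (hC.mem_isoDOS_iff hG J J).2 (fun _ => rfl)
  refine ⟨k, hk, fun k' hk' => ?_⟩
  have h1 := hk.1
  have h2 := hk'.1
  refine ext_of_forall_integral_eq_of_IsFiniteMeasure (fun f => ?_)
  have e1 := hk.2 ℓ hℓ f f.continuous
  have e2 := hk'.2 ℓ hℓ f f.continuous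
  rw [← e1] at e2
  exact_mod_cast e2

end General

variable {k : ℕ}

lemma bouquet_connected : (bouquet k).Connected := by
  have h1 : ∀ x : Option (Fin k), ∃ w, (bouquet k).IsWalk x w none := by
    intro x
    rcases x with _ | c
    · exact ⟨[], rfl⟩
    · exact ⟨[((c, false), true)], rfl, rfl⟩
  have h2 : ∀ y : Option (Fin k), ∃ w, (bouquet k).IsWalk none w y := by
    intro x
    rcases x with _ | c
    · exact ⟨[], rfl⟩
    · exact ⟨[((c, false), false)], rfl, rfl⟩
  intro x y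
  obtain ⟨w, hw⟩ := h1 x
  obtain ⟨w', hw'⟩ := h2 y
  exact ⟨w ++ w', MGraph.isWalk_append.2 ⟨none, hw, hw'⟩⟩

lemma bouquet_degree (hk : 1 ≤ k) (x : Option (Fin k)) : 2 ≤ (bouquet k).degree x := by
  classical
  unfold MGraph.degree
  rcases x with _ | c
  · have h : ({((⟨0, hk⟩, false), false), ((⟨0, hk⟩, true), false)} :
        Finset ((Fin k × Bool) × Bool)) ⊆
        Finset.univ.filter (fun d => (bouquet k).start d = none) := by
      intro d hd
      simp only [Finset.mem_insert, Finset.mem_singleton] at hd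
      rw [Finset.mem_filter]
      refine ⟨Finset.mem_univ _, ?_⟩
      rcases hd with rfl | rfl <;> rfl
    calc 2 = ({((⟨0, hk⟩, false), false), ((⟨0, hk⟩, true), false)} :
        Finset ((Fin k × Bool) × Bool)).card := by
          rw [Finset.card_pair]
          simp
      _ ≤ _ := by
        convert Finset.card_le_card h
  · have h : ({((c, false), true), ((c, true), true)} :
        Finset ((Fin k × Bool) × Bool)) ⊆
        Finset.univ.filter (fun d => (bouquet k).start d = some c) := by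
      intro d hd
      simp only [Finset.mem_insert, Finset.mem_singleton] at hd
      rw [Finset.mem_filter]
      refine ⟨Finset.mem_univ _, ?_⟩
      rcases hd with rfl | rfl <;> rfl
    calc 2 = ({((c, false), true), ((c, true), true)} :
        Finset ((Fin k × Bool) × Bool)).card := by
          rw [Finset.card_pair]
          simp
      _ ≤ _ := by
        convert Finset.card_le_card h

/-- The IsoDOS set over the bouquet. -/
theorem isoDOS_bouquet (hk : 3 ≤ k) {C : Cover (bouquet k)} (hC : C.IsUniversal)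
    {J₀ : Params (Option (Fin k)) (Fin k × Bool)}
    (hb₀ : J₀.1.1 = 0) {A : ℝ} (hA : ∀ c, AJ J₀ c = A)
    (hρ : 0 < ∑ c, (J₀.1.2 (c, false) - J₀.1.2 (c, true)) ^ 2)
    (J : Params (Option (Fin k)) (Fin k × Bool)) :
    J ∈ C.isoDOS J₀ ↔ J.1.1 = 0 ∧ SJ J = SJ J₀ ∧ ∀ c, AJ J c = A := by
  rw [hC.mem_isoDOS_iff bouquet_connected]
  constructor
  · intro h
    exact rigidity hk hb₀ hA hρ h
  · rintro ⟨h1, h2, h3⟩ n
    exact moments_of_eq h1 hb₀ h2 (fun c => (h3 c).trans (hA c).symm) n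

end Pool.Agent.Work.MP_24ca2e_an
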