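import Pool.Agent.Work.MP_24ca2e_an.Hilbert

set_option autoImplicit false
set_option linter.unusedSectionVars false

/-!
The orthogonal projection onto the kernel of a self-adjoint operator; its diagonal entries are
determined by moments (von Neumann's mean ergodic theorem).
-/

namespace Pool.Agent.Work.MP_24ca2e_an

open MeasureTheory Filter Topology

variable {X : Type} [NormedAddCommGroup X] [InnerProductSpace ℂ X] [CompleteSpace X]
variable {Y : Type} [NormedAddCommGroup Y] [InnerProductSpace ℂ Y] [CompleteSpace Y]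

/-- The kernel of a continuous linear map as a submodule. -/
def kerSub (A : X →L[ℂ] X) : Submodule ℂ X := LinearMap.ker (A : X →ₗ[ℂ] X)

lemma mem_kerSub (A : X →L[ℂ] X) (v : X) : v ∈ kerSub A ↔ A v = 0 := LinearMap.mem_ker

instance (A : X →L[ℂ] X) : CompleteSpace (kerSub A) :=
  (ContinuousLinearMap.isClosed_ker A).completeSpace_coe

/-- The orthogonal projection onto the kernel. -/
noncomputable def kerProj (A : X →L[ℂ] X) : X →L[ℂ] X := (kerSub A).starProjection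

lemma apply_kerProj (A : X →L[ℂ] X) (v : X) : A (kerProj A v) = 0 :=
  (mem_kerSub A _).1 ((kerSub A).starProjection_apply_mem v)

lemma kerProj_eq_self (A : X →L[ℂ] X) {v : X} (h : A v = 0) : kerProj A v = v :=
  Submodule.starProjection_eq_self_iff.2 ((mem_kerSub A v).2 h)

lemma kerProj_kerProj (A : X →L[ℂ] X) (v : X) : kerProj A (kerProj A v) = kerProj A v :=
  kerProj_eq_self A (apply_kerProj A v)

lemma inner_kerProj_left (A : X →L[ℂ] X) (u v : X) :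
    inner ℂ (kerProj A u) v = inner ℂ u (kerProj A v) :=
  Submodule.inner_starProjection_left_eq_right _ u v

lemma kerProj_isSelfAdjoint (A : X →L[ℂ] X) : IsSelfAdjoint (kerProj A) := by
  rw [ContinuousLinearMap.isSelfAdjoint_iff_isSymmetric]
  exact inner_kerProj_left A

lemma inner_self_kerProj (A : X →L[ℂ] X) (v : X) :
    inner ℂ v (kerProj A v) = ((‖kerProj A v‖ ^ 2 : ℝ) : ℂ) := by
  rw [← kerProj_kerProj A v, ← inner_kerProj_left, inner_self_eq_norm_sq_to_K,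
    kerProj_kerProj]
  norm_cast

lemma norm_kerProj_le (A : X →L[ℂ] X) (v : X) : ‖kerProj A v‖ ≤ ‖v‖ :=
  Submodule.norm_starProjection_apply_le _ v

lemma eq_kerProj (A : X →L[ℂ] X) {u v : X} (h : A v = 0)
    (h2 : ∀ w, A w = 0 → inner ℂ (u - v) w = 0) : kerProj A u = v :=
  Submodule.eq_starProjection_of_mem_of_inner_eq_zero ((mem_kerSub A v).2 h)
    (fun w hw => h2 w ((mem_kerSub A w).1 hw))

lemma norm_one_sub_le (A : X →L[ℂ] X) (hA : IsSelfAdjoint A) (c : ℝ) (hc : 0 ≤ c)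
    (hcA : c * ‖A‖ ^ 2 ≤ 1) : ‖(1 : X →L[ℂ] X) - (c : ℂ) • (A * A)‖ ≤ 1 := by
  refine ContinuousLinearMap.opNorm_le_bound _ zero_le_one (fun u => ?_)
  rw [one_mul]
  have hsym := (ContinuousLinearMap.isSelfAdjoint_iff_isSymmetric.1 hA)
  have e1 : ((1 : X →L[ℂ] X) - (c : ℂ) • (A * A)) u = u - (c : ℂ) • A (A u) := rfl
  rw [e1]
  have h1 : ‖u - (c : ℂ) • A (A u)‖ ^ 2
      = ‖u‖ ^ 2 - 2 * (c * ‖A u‖ ^ 2) + c ^ 2 * ‖A (A u)‖ ^ 2 := by
    rw [@norm_sub_sq ℂ]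
    have h2 : inner ℂ u ((c : ℂ) • A (A u)) = ((c * ‖A u‖ ^ 2 : ℝ) : ℂ) := by
      rw [inner_smul_right]
      have := hsym u (A u)
      have h3 : inner ℂ u (A (A u)) = inner ℂ (A u) (A u) := this.symm
      rw [h3, inner_self_eq_norm_sq_to_K]
      push_cast
      rfl
    have h9 : RCLike.re (((c * ‖A u‖ ^ 2 : ℝ) : ℂ)) = c * ‖A u‖ ^ 2 := Complex.ofReal_re _
    rw [h2, h9, norm_smul, mul_pow, Complex.norm_real, Real.norm_eq_abs, sq_abs]
  have h4 : ‖A (A u)‖ ≤ ‖A‖ * ‖A u‖ := A.le_opNorm _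
  have h5 : ‖A (A u)‖ ^ 2 ≤ ‖A‖ ^ 2 * ‖A u‖ ^ 2 := by
    rw [← mul_pow]
    exact pow_le_pow_left₀ (norm_nonneg _) h4 2
  have h6 : c ^ 2 * ‖A (A u)‖ ^ 2 ≤ c * ‖A u‖ ^ 2 := by
    calc c ^ 2 * ‖A (A u)‖ ^ 2 ≤ c ^ 2 * (‖A‖ ^ 2 * ‖A u‖ ^ 2) :=
          mul_le_mul_of_nonneg_left h5 (sq_nonneg c)
      _ = (c * ‖A‖ ^ 2) * (c * ‖A u‖ ^ 2) := by ring
      _ ≤ 1 * (c * ‖A u‖ ^ 2) := mul_le_mul_of_nonneg_right hcA (by positivity)
      _ = c * ‖A u‖ ^ 2 := one_mul _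
  have h7 : 0 ≤ c * ‖A u‖ ^ 2 := by positivity
  have h8 : ‖u - (c : ℂ) • A (A u)‖ ^ 2 ≤ ‖u‖ ^ 2 := by rw [h1]; linarith
  exact le_of_sq_le_sq h8 (norm_nonneg _)

lemma fixed_iff (A : X →L[ℂ] X) (hA : IsSelfAdjoint A) (c : ℝ) (hc : 0 < c) (u : X) :
    ((1 : X →L[ℂ] X) - (c : ℂ) • (A * A)) u = u ↔ A u = 0 := by
  have e1 : ((1 : X →L[ℂ] X) - (c : ℂ) • (A * A)) u = u - (c : ℂ) • A (A u) := rfl
  rw [e1, sub_eq_self]
  constructor
  · intro h
    have hsym := (ContinuousLinearMap.isSelfAdjoint_iff_isSymmetric.1 hA)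
    have h1 : A (A u) = 0 := by
      rcases smul_eq_zero.1 h with h | h
      · exact absurd (Complex.ofReal_eq_zero.1 h) hc.ne'
      · exact h
    have h2 : inner ℂ (A u) (A u) = 0 := by
      have : inner ℂ (A u) (A u) = inner ℂ u (A (A u)) := hsym u (A u)
      rw [this, h1, inner_zero_right]
    exact inner_self_eq_zero.1 h2
  · intro h
    rw [h, map_zero, smul_zero]

lemma tendsto_kerProj (A : X →L[ℂ] X) (hA : IsSelfAdjoint A) (c : ℝ) (hc : 0 < c)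
    (hcA : c * ‖A‖ ^ 2 ≤ 1) (u : X) :
    Tendsto (fun N : ℕ => (N : ℂ)⁻¹ • ∑ n ∈ Finset.range N,
      (((1 : X →L[ℂ] X) - (c : ℂ) • (A * A)) ^ n) u) atTop (𝓝 (kerProj A u)) := by
  set B : X →L[ℂ] X := (1 : X →L[ℂ] X) - (c : ℂ) • (A * A) with hB
  have h1 := B.tendsto_birkhoffAverage_orthogonalProjection
    (norm_one_sub_le A hA c hc.le hcA) u
  have h2 : kerProj A u =
      ((B.eqLocus (1 : X →L[ℂ] X)).orthogonalProjectionOnto u : X) := by
    refine eq_kerProj A ?_ ?_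
    · have := ((B.eqLocus (1 : X →L[ℂ] X)).orthogonalProjectionOnto u).2
      have h3 : B ((B.eqLocus (1 : X →L[ℂ] X)).orthogonalProjectionOnto u : X)
          = ((B.eqLocus (1 : X →L[ℂ] X)).orthogonalProjectionOnto u : X) := this
      exact (fixed_iff A hA c hc _).1 h3
    · intro w hw
      have hw' : w ∈ B.eqLocus (1 : X →L[ℂ] X) := (fixed_iff A hA c hc w).2 hw
      exact Submodule.starProjection_inner_eq_zero u w hw'
  rw [h2]
  refine h1.congr (fun N => ?_)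
  rw [birkhoffAverage, birkhoffSum]
  congr 1
  refine Finset.sum_congr rfl (fun n _ => ?_)
  simp only [id_eq]
  rw [FunLike.coe_pow_eq_iterate]

lemma inner_pow_eq_specInt (A : X →L[ℂ] X) (hA : IsSelfAdjoint A) (c : ℝ) (n : ℕ) (u : X) :
    inner ℂ u ((((1 : X →L[ℂ] X) - (c : ℂ) • (A * A)) ^ n) u)
      = specInt A u (fun x => (1 - c * (x * x)) ^ n) := by
  unfold specInt
  have h1 : (fun x : ℝ => (1 - c * (x * x)) ^ n) =
      fun x => Polynomial.eval x ((1 - Polynomial.C c * (Polynomial.X * Polynomial.X)) ^ n) := by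
    funext x
    simp
  rw [h1, cfc_polynomial (R := ℝ) _ A hA]
  congr 2
  rw [map_pow]
  congr 1
  simp only [map_sub, map_one, map_mul, Polynomial.aeval_C, Polynomial.aeval_X]
  congr 1

/-- The total mass of the kernel projection is determined by the moments. -/
theorem sum_kerProj_congr {I : Type} [Fintype I] (A : X →L[ℂ] X) (hA : IsSelfAdjoint A)
    (B : Y →L[ℂ] Y) (hB : IsSelfAdjoint B) (v : I → X) (w : I → Y)
    (h : ∀ n : ℕ, ∑ i, inner ℂ (v i) ((A ^ n) (v i)) = ∑ i, inner ℂ (w i) ((B ^ n) (w i))) :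
    ∑ i, ‖kerProj A (v i)‖ ^ 2 = ∑ i, ‖kerProj B (w i)‖ ^ 2 := by
  set c : ℝ := 1 / (‖A‖ ^ 2 + ‖B‖ ^ 2 + 1) with hc
  have hpos : 0 < ‖A‖ ^ 2 + ‖B‖ ^ 2 + 1 := by positivity
  have hc0 : 0 < c := by positivity
  have hcA : c * ‖A‖ ^ 2 ≤ 1 := by
    rw [hc, div_mul_eq_mul_div, one_mul, div_le_one hpos]
    nlinarith [sq_nonneg ‖B‖]
  have hcB : c * ‖B‖ ^ 2 ≤ 1 := by
    rw [hc, div_mul_eq_mul_div, one_mul, div_le_one hpos]
    nlinarith [sq_nonneg ‖A‖]
  have lim : ∀ {Z : Type} [NormedAddCommGroup Z] [InnerProductSpace ℂ Z] [CompleteSpace Z]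
      (S : Z →L[ℂ] Z) (_ : IsSelfAdjoint S) (_ : c * ‖S‖ ^ 2 ≤ 1) (z : I → Z),
      Tendsto (fun N : ℕ => (N : ℂ)⁻¹ * ∑ n ∈ Finset.range N,
        ∑ i, specInt S (z i) (fun x => (1 - c * (x * x)) ^ n)) atTop
        (𝓝 (∑ i, ((‖kerProj S (z i)‖ ^ 2 : ℝ) : ℂ))) := by
    intro Z _ _ _ S hS hcS z
    have h1 : ∀ i, Tendsto (fun N : ℕ => (N : ℂ)⁻¹ * ∑ n ∈ Finset.range N,
        specInt S (z i) (fun x => (1 - c * (x * x)) ^ n)) atTop
        (𝓝 ((‖kerProj S (z i)‖ ^ 2 : ℝ) : ℂ)) := by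
      intro i
      rw [← inner_self_kerProj]
      have h2 := (tendsto_const_nhds (x := z i)).inner (𝕜 := ℂ) (tendsto_kerProj S hS c hc0 hcS (z i))
      refine h2.congr (fun N => ?_)
      rw [inner_smul_right, inner_sum]
      congr 1
      refine Finset.sum_congr rfl (fun n _ => ?_)
      exact inner_pow_eq_specInt S hS c n (z i)
    have h3 := tendsto_finsetSum (Finset.univ : Finset I) (fun i _ => h1 i)
    refine h3.congr (fun N => ?_)
    rw [← Finset.mul_sum, Finset.sum_comm]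
  have e := tendsto_nhds_unique (lim A hA hcA v) ((lim B hB hcB w).congr (fun N => by
    congr 1
    refine Finset.sum_congr rfl (fun n _ => ?_)
    exact (sum_specInt_congr A hA B hB v w h _ (by fun_prop)).symm))
  have e2 : ((∑ i, ‖kerProj A (v i)‖ ^ 2 : ℝ) : ℂ) = ((∑ i, ‖kerProj B (w i)‖ ^ 2 : ℝ) : ℂ) := by
    push_cast at e ⊢
    exact e
  exact_mod_cast e2

end Pool.Agent.Work.MP_24ca2e_an
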