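import Pool.Agent.Work.MP_24ca2e_an.Bouquet

set_option autoImplicit false
set_option linter.unusedSectionVars false

/-!
The trace of the kernel projection of Jacobi operators over the bouquet.
-/

namespace Pool.Agent.Work.MP_24ca2e_an

open MeasureTheory Filter Topology

variable {k : ℕ}

lemma norm_sq_eq_sum_Pr (v : HB k) : ‖v‖ ^ 2 = ∑ x, ‖Pr x v‖ ^ 2 := by
  have h1 : ∀ x : Option (Fin k), inner ℂ v (Pr x v) = ((‖Pr x v‖ ^ 2 : ℝ) : ℂ) := by
    intro x
    have e1 : Pr x v = Pr x (Pr x v) := by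
      conv_lhs => rw [← Pr_mul_self x]
      rfl
    rw [e1, ← ContinuousLinearMap.adjoint_inner_left, adjoint_Pr, ← e1, inner_self_eq_norm_sq_to_K]
    norm_cast
  have h2 : inner ℂ v v = ∑ x : Option (Fin k), inner ℂ v (Pr x v) := by
    rw [← inner_sum]
    congr 1
    have := congrArg (fun S : HB k →L[ℂ] HB k => S v) (sum_Pr (k := k))
    simp only [sum_apply] at this
    exact this.symm
  simp only [h1] at h2
  rw [inner_self_eq_norm_sq_to_K] at h2
  have h3 : ((‖v‖ ^ 2 : ℝ) : ℂ) = ((∑ x, ‖Pr x v‖ ^ 2 : ℝ) : ℂ) := by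
    rw [Complex.ofReal_sum, ← h2, Complex.ofReal_pow]
    rfl
  exact Complex.ofReal_injective h3

lemma norm_Pr_le (x : Option (Fin k)) (v : HB k) : ‖Pr x v‖ ^ 2 ≤ ‖v‖ ^ 2 := by
  rw [norm_sq_eq_sum_Pr v]
  exact Finset.single_le_sum (f := fun x => ‖Pr x v‖ ^ 2) (fun _ _ => sq_nonneg _)
    (Finset.mem_univ x)

lemma norm_Wp_ge (J : Params (Option (Fin k)) (Fin k × Bool)) (u : HB k) :
    (∑ c, (J.1.2 (c, false) - J.1.2 (c, true)) ^ 2) * ‖Pr none u‖ ^ 2 ≤ ‖Wp J u‖ ^ 2 := by
  rw [norm_sq_eq_sum_Pr (Wp J u), Fintype.sum_option, Finset.sum_mul]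
  have h0 : 0 ≤ ‖Pr none (Wp J u)‖ ^ 2 := sq_nonneg _
  have h1 : ∑ c, (J.1.2 (c, false) - J.1.2 (c, true)) ^ 2 * ‖Pr none u‖ ^ 2
      ≤ ∑ c, ‖Pr (some c) (Wp J u)‖ ^ 2 := by
    refine Finset.sum_le_sum (fun c _ => ?_)
    have e1 : Pr (some c) (Wp J u) = (J.1.2 (c, false) : ℂ) • Up (c, false) u +
        (J.1.2 (c, true) : ℂ) • Up (c, true) u := by
      have := congrArg (fun S : HB k →L[ℂ] HB k => S u) (Pr_mul_Wp_some J c)
      exact this
    rw [e1]
    have h2 := abs_norm_sub_norm_le ((J.1.2 (c, false) : ℂ) • Up (c, false) u)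
      (-((J.1.2 (c, true) : ℂ) • Up (c, true) u))
    rw [norm_neg, sub_neg_eq_add, norm_smul, norm_smul, norm_Up, norm_Up, Complex.norm_real,
      Complex.norm_real, Real.norm_eq_abs, Real.norm_eq_abs, abs_of_pos (J.2 _),
      abs_of_pos (J.2 _)] at h2
    have h3 := pow_le_pow_left₀ (abs_nonneg _) h2 2
    rw [sq_abs] at h3
    calc _ = (J.1.2 (c, false) * ‖Pr none u‖ - J.1.2 (c, true) * ‖Pr none u‖) ^ 2 := by ring
      _ ≤ _ := h3
  linarith

lemma Pr_some_mul_adjoint_Wp (J : Params (Option (Fin k)) (Fin k × Bool)) (c : Fin k) :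
    Pr (some c) * ContinuousLinearMap.adjoint (Wp J) = 0 := by
  have h : Wp J * Pr (some c) = 0 := by
    rw [← Wp_mul_Pr_none, mul_assoc, Pr_mul_ne (by simp), mul_zero]
  have := congrArg ContinuousLinearMap.adjoint h
  rw [ContinuousLinearMap.mul_def, ContinuousLinearMap.adjoint_comp, adjoint_Pr, map_zero] at this
  exact this

lemma Pr_some_mul_HJ (J : Params (Option (Fin k)) (Fin k × Bool)) (c : Fin k) :
    Pr (some c) * HJ J = (J.1.1 (some c) : ℂ) • Pr (some c) + Pr (some c) * Wp J := by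
  classical
  rw [HJ_eq, mul_add, mul_add, Pr_some_mul_adjoint_Wp, add_zero, Finset.mul_sum]
  congr 1
  rw [Finset.sum_eq_single (some c)]
  · rw [mul_smul_comm, Pr_mul_self]
  · intro x _ hx
    rw [mul_smul_comm, Pr_mul_ne hx.symm, smul_zero]
  · intro h; exact absurd (Finset.mem_univ _) h

/-- For a vector in the kernel. -/
lemma ker_some {J : Params (Option (Fin k)) (Fin k × Bool)} {u : HB k} (hu : HJ J u = 0)
    (c : Fin k) : (J.1.1 (some c) : ℂ) • Pr (some c) u + Pr (some c) (Wp J u) = 0 := by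
  have h1 := congrArg (fun S : HB k →L[ℂ] HB k => S u) (Pr_some_mul_HJ J c)
  have h2 : Pr (some c) (HJ J u) = (J.1.1 (some c) : ℂ) • Pr (some c) u
    + Pr (some c) (Wp J u) := h1
  rw [← h2, hu, map_zero]

lemma card_V : (Fintype.card (Option (Fin k)) : ℂ) = (k : ℂ) + 1 := by
  simp

theorem tr_kerProj_ge {J : Params (Option (Fin k)) (Fin k × Bool)} (hb : J.1.1 = 0)
    (hρ : 0 < ∑ c, (J.1.2 (c, false) - J.1.2 (c, true)) ^ 2) :
    (k : ℝ) - 1 ≤ (tr (kerProj (HJ J))).re := by
  obtain ⟨Q, R, hQe, hQsa, hQ2, hQZ, hQR, hQtr⟩ := exists_range_proj (E₀ := Pr none) (Z := Wp J)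
    (Pr_eqv none) (Wp_eqv J) (by
      rw [IsSelfAdjoint, ContinuousLinearMap.star_eq_adjoint]; exact adjoint_Pr none)
    (Pr_mul_self none) (Wp_mul_Pr_none J) hρ (fun u => norm_Wp_ge J u)
  have hEsa : IsSelfAdjoint (Pr none : HB k →L[ℂ] HB k) := by
    rw [IsSelfAdjoint, ContinuousLinearMap.star_eq_adjoint]; exact adjoint_Pr none
  have hEQ : Pr none * Q = 0 := by
    rw [hQR, ← mul_assoc, Pr_none_mul_Wp, zero_mul]
  have hQE : Q * Pr none = 0 := by
    have := congrArg ContinuousLinearMap.adjoint hEQ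
    rw [ContinuousLinearMap.mul_def, ContinuousLinearMap.adjoint_comp, hQsa.adjoint_eq,
      adjoint_Pr, map_zero] at this
    exact this
  set K : HB k →L[ℂ] HB k := 1 - Pr none - Q with hK
  have hKsa : IsSelfAdjoint K := ((IsSelfAdjoint.one _).sub hEsa).sub hQsa
  have hK2 : K * K = K := by
    rw [hK]
    simp only [sub_mul, mul_sub, one_mul, mul_one, Pr_mul_self, hEQ, hQE, hQ2]
    abel
  have hKW : K * Wp J = 0 := by
    rw [hK, sub_mul, sub_mul, one_mul, Pr_none_mul_Wp, hQZ, sub_zero, sub_self]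
  have hWK : Wp J * K = 0 := by
    have h1 : Wp J * Q = 0 := by
      rw [← Wp_mul_Pr_none, mul_assoc, hEQ, mul_zero]
    rw [hK, mul_sub, mul_sub, mul_one, Wp_mul_Pr_none, h1, sub_self, sub_zero]
  have hWK' : ContinuousLinearMap.adjoint (Wp J) * K = 0 := by
    have := congrArg ContinuousLinearMap.adjoint hKW
    rw [ContinuousLinearMap.mul_def, ContinuousLinearMap.adjoint_comp, hKsa.adjoint_eq,
      map_zero] at this
    exact this
  have hHK : HJ J * K = 0 := by
    rw [HJ_eq, hb]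
    simp only [Pi.zero_apply, Complex.ofReal_zero, zero_smul, Finset.sum_const_zero, zero_add]
    rw [add_mul, hWK, hWK', add_zero]
  have hPK : kerProj (HJ J) * K = K := by
    refine ContinuousLinearMap.ext (fun u => ?_)
    have h1 : HJ J (K u) = 0 := congrArg (fun S : HB k →L[ℂ] HB k => S u) hHK
    exact kerProj_eq_self _ h1
  have h := tr_mono (kerProj_isSelfAdjoint (HJ J)) (kerProj_mul_self (HJ J)) hKsa hK2 hPK
  have h2 : tr K = (k : ℂ) - 1 := by
    rw [hK, tr_sub, tr_sub, tr_one, hQtr, tr_Pr, card_V]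
    ring
  rw [h2] at h
  simpa using h

theorem tr_kerProj_le_one {J : Params (Option (Fin k)) (Fin k × Bool)}
    (hb : ∀ c, J.1.1 (some c) ≠ 0) : (tr (kerProj (HJ J))).re ≤ 1 := by
  classical
  set D : HB k →L[ℂ] HB k := ∑ c : Fin k, ((J.1.1 (some c))⁻¹ : ℂ) • Pr (some c) with hD
  set Z : HB k →L[ℂ] HB k := Pr none - D * Wp J with hZ
  have hDe : Eqv D := Eqv.sum _ (fun c _ => (Pr_eqv _).smul _)
  have hED : Pr none * D = 0 := by
    rw [hD, Finset.mul_sum]
    refine Finset.sum_eq_zero (fun c _ => ?_)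
    rw [mul_smul_comm, Pr_mul_ne (by simp), smul_zero]
  have hZE : Z * Pr none = Z := by
    rw [hZ, sub_mul, Pr_mul_self, mul_assoc, Wp_mul_Pr_none]
  have hEZ : Pr none * Z = Pr none := by
    rw [hZ, mul_sub, Pr_mul_self, ← mul_assoc, hED, zero_mul, sub_zero]
  have hlow : ∀ u, 1 * ‖Pr none u‖ ^ 2 ≤ ‖Z u‖ ^ 2 := by
    intro u
    rw [one_mul]
    have h1 : Pr none u = Pr none (Z u) := by
      conv_lhs => rw [← hEZ]
      rfl
    rw [h1]
    exact norm_Pr_le none (Z u)
  obtain ⟨Q, R, hQe, hQsa, hQ2, hQZ, hQR, hQtr⟩ := exists_range_proj (E₀ := Pr none) (Z := Z)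
    (Pr_eqv none) ((Pr_eqv none).sub (hDe.mul (Wp_eqv J))) (by
      rw [IsSelfAdjoint, ContinuousLinearMap.star_eq_adjoint]; exact adjoint_Pr none)
    (Pr_mul_self none) hZE one_pos hlow
  have hZP : Z * kerProj (HJ J) = kerProj (HJ J) := by
    refine ContinuousLinearMap.ext (fun v => ?_)
    set u := kerProj (HJ J) v with hu
    have hHu : HJ J u = 0 := apply_kerProj _ _
    change Z u = u
    have h1 : Z u = Pr none u - ∑ c : Fin k, ((J.1.1 (some c))⁻¹ : ℂ) • Pr (some c) (Wp J u) := by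
      rw [hZ, hD]
      change Pr none u - (∑ c : Fin k, ((J.1.1 (some c))⁻¹ : ℂ) • Pr (some c)) (Wp J u) = _
      rw [sum_apply]
      rfl
    have h2 : ∀ c : Fin k, ((J.1.1 (some c))⁻¹ : ℂ) • Pr (some c) (Wp J u) = - Pr (some c) u := by
      intro c
      have h3 := ker_some hHu c
      have h4 : Pr (some c) (Wp J u) = - ((J.1.1 (some c) : ℂ) • Pr (some c) u) := by
        rw [add_comm] at h3
        exact eq_neg_of_add_eq_zero_left h3
      have h5 : (J.1.1 (some c) : ℂ) ≠ 0 := Complex.ofReal_ne_zero.2 (hb c)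
      rw [h4, smul_neg, smul_smul, inv_mul_cancel₀ h5, one_smul]
    rw [h1]
    simp only [h2]
    rw [Finset.sum_neg_distrib, sub_neg_eq_add]
    have h6 := congrArg (fun S : HB k →L[ℂ] HB k => S u) (sum_Pr (k := k))
    rw [Fintype.sum_option] at h6
    change Pr none u + (∑ c : Fin k, Pr (some c)) u = u at h6
    rw [sum_apply] at h6
    exact h6
  have hQP : Q * kerProj (HJ J) = kerProj (HJ J) := by
    calc Q * kerProj (HJ J) = Q * (Z * kerProj (HJ J)) := by rw [hZP]
      _ = kerProj (HJ J) := by rw [← mul_assoc, hQZ, hZP]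
  have h := tr_mono hQsa hQ2 (kerProj_isSelfAdjoint (HJ J)) (kerProj_mul_self (HJ J)) hQP
  rw [hQtr, tr_Pr] at h
  simpa using h

/-! ### The mixed case -/

lemma ell2_tendsto {ι : Type} (u : Ell2 ι) {φ : ℕ → ι} (hφ : Function.Injective φ) :
    Tendsto (fun n => ‖u (φ n)‖) atTop (𝓝 0) := by
  have h1 : Summable (fun i => ‖u i‖ ^ (2 : ℝ)) := by
    have := (lp.memℓp u).summable (by simp)
    simpa using this
  have h2 := (h1.comp_injective hφ).tendsto_atTop_zero
  have h3 : Tendsto (fun n => Real.sqrt (‖u (φ n)‖ ^ (2 : ℝ))) atTop (𝓝 (Real.sqrt 0)) :=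
    (Real.continuous_sqrt.tendsto 0).comp h2
  rw [Real.sqrt_zero] at h3
  refine h3.congr (fun n => ?_)
  rw [Real.rpow_two, Real.sqrt_sq (norm_nonneg _)]

lemma seq_zero {p q : ℝ} (hq : 0 < q) (hpq : q ≤ p) {y : ℕ → ℂ}
    (h : ∀ n, (p : ℂ) * y n + (q : ℂ) * y (n + 1) = 0)
    (hy : Tendsto (fun n => ‖y n‖) atTop (𝓝 0)) : y 0 = 0 := by
  have hp : 0 < p := lt_of_lt_of_le hq hpq
  have h1 : ∀ n, ‖y n‖ ≤ ‖y (n + 1)‖ := by
    intro n
    have h2 : (q : ℂ) * y (n + 1) = - ((p : ℂ) * y n) := by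
      have := h n
      rw [add_comm] at this
      exact eq_neg_of_add_eq_zero_left this
    have h3 := congrArg norm h2
    rw [norm_neg, norm_mul, norm_mul, Complex.norm_real, Complex.norm_real, Real.norm_eq_abs,
      Real.norm_eq_abs, abs_of_pos hq, abs_of_pos hp] at h3
    by_contra h4
    push Not at h4
    have h5 : q * ‖y (n + 1)‖ < p * ‖y n‖ := by
      calc q * ‖y (n + 1)‖ < q * ‖y n‖ := mul_lt_mul_of_pos_left h4 hq
        _ ≤ p * ‖y n‖ := mul_le_mul_of_nonneg_right hpq (norm_nonneg _)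
    exact absurd h3 h5.ne
  have h6 : ∀ n, ‖y 0‖ ≤ ‖y n‖ := by
    intro n
    induction n with
    | zero => exact le_refl _
    | succ n ih => exact ih.trans (h1 n)
  have h7 : ‖y 0‖ ≤ 0 := ge_of_tendsto' hy h6
  exact norm_le_zero_iff.1 h7

/-- A homomorphism detecting powers. -/
noncomputable def theta (c : Fin k) : FreeGroup (Fin k × Bool) →* Multiplicative ℤ :=
  FreeGroup.lift (fun e => if e = (c, true) then Multiplicative.ofAdd 1 else 1)

lemma mk_true (e : Fin k × Bool) : FreeGroup.mk [(e, true)] = FreeGroup.of e := rfl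

lemma zpow_injective (c : Fin k) (g : FreeGroup (Fin k × Bool)) :
    Function.Injective (fun n : ℤ => g *
      ((FreeGroup.of (c, false))⁻¹ * FreeGroup.of (c, true) : FreeGroup (Fin k × Bool)) ^ n) := by
  intro m n h
  have h1 := mul_left_cancel h
  have h2 := congrArg (theta c) h1
  rw [map_zpow, map_zpow] at h2
  have h3 : theta c ((FreeGroup.of (c, false))⁻¹ * FreeGroup.of (c, true))
      = Multiplicative.ofAdd (1 : ℤ) := by
    rw [map_mul, map_inv]
    unfold theta
    rw [FreeGroup.lift_apply_of, FreeGroup.lift_apply_of]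
    simp
  rw [h3, ← ofAdd_zsmul, ← ofAdd_zsmul] at h2
  simpa using h2

lemma ker_none {J : Params (Option (Fin k)) (Fin k × Bool)} {u : HB k} (hu : HJ J u = 0)
    {c : Fin k} (hc : J.1.1 (some c) = 0) : Pr none u = 0 := by
  have h1 : ∀ h : FreeGroup (Fin k × Bool),
      (J.1.2 (c, false) : ℂ) * u (h * FreeGroup.of (c, false), none) +
        (J.1.2 (c, true) : ℂ) * u (h * FreeGroup.of (c, true), none) = 0 := by
    intro h
    have h2 := ker_some hu c
    rw [hc, Complex.ofReal_zero, zero_smul, zero_add] at h2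
    have e1 : Pr (some c) (Wp J u) = (J.1.2 (c, false) : ℂ) • Up (c, false) u +
        (J.1.2 (c, true) : ℂ) • Up (c, true) u := by
      have := congrArg (fun S : HB k →L[ℂ] HB k => S u) (Pr_mul_Wp_some J c)
      exact this
    rw [e1] at h2
    have h3 := congrArg (fun v : HB k => v (h, some c)) h2
    change (J.1.2 (c, false) : ℂ) * Up (c, false) u (h, some c) +
      (J.1.2 (c, true) : ℂ) * Up (c, true) u (h, some c) = 0 at h3
    rw [Up_apply, Up_apply, if_pos rfl, if_pos rfl] at h3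
    exact h3
  refine ell2_ext (fun t => ?_)
  rw [Pr_apply]
  change _ = (0 : ℂ)
  by_cases ht : t.2 = none
  swap
  · rw [if_neg ht]
  rw [if_pos ht]
  obtain ⟨g, x⟩ := t
  have ht' : x = none := ht
  subst ht'
  set τ : FreeGroup (Fin k × Bool) := (FreeGroup.of (c, false))⁻¹ * FreeGroup.of (c, true) with hτ
  have h4 : ∀ n : ℤ, (J.1.2 (c, false) : ℂ) * u (g * τ ^ n, none) +
      (J.1.2 (c, true) : ℂ) * u (g * τ ^ (n + 1), none) = 0 := by
    intro n
    have h5 := h1 (g * τ ^ n * (FreeGroup.of (c, false))⁻¹)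
    rw [inv_mul_cancel_right] at h5
    have e2 : g * τ ^ n * (FreeGroup.of (c, false))⁻¹ * FreeGroup.of (c, true)
        = g * τ ^ (n + 1) := by
      rw [zpow_add_one, hτ]
      simp only [mul_assoc]
    rw [e2] at h5
    exact h5
  have hinj := zpow_injective c g
  rcases le_total (J.1.2 (c, true)) (J.1.2 (c, false)) with hle | hle
  · have h6 := seq_zero (y := fun n : ℕ => u (g * τ ^ (n : ℤ), none)) (J.2 (c, true)) hle
      (fun n => by
        have := h4 (n : ℤ)
        push_cast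
        exact this)
      (ell2_tendsto u (φ := fun n : ℕ => (g * τ ^ (n : ℤ), (none : Option (Fin k))))
        (fun m n hmn => by
          have := hinj (congrArg Prod.fst hmn)
          exact_mod_cast this))
    simpa using h6
  · have h6 := seq_zero (y := fun n : ℕ => u (g * τ ^ (-(n : ℤ)), none)) (J.2 (c, false)) hle
      (fun n => by
        have := h4 (-((n : ℤ) + 1))
        have e : -((n : ℤ) + 1) + 1 = -(n : ℤ) := by ring
        rw [e, add_comm] at this
        push_cast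
        exact this)
      (ell2_tendsto u (φ := fun n : ℕ => (g * τ ^ (-(n : ℤ)), (none : Option (Fin k))))
        (fun m n hmn => by
          have := hinj (congrArg Prod.fst hmn)
          have h7 := neg_injective this
          exact_mod_cast h7))
    simpa using h6

lemma HJ_apply_some (J : Params (Option (Fin k)) (Fin k × Bool)) (u : HB k)
    (h : FreeGroup (Fin k × Bool)) (c : Fin k) :
    HJ J u (h, some c) = (J.1.1 (some c) : ℂ) * u (h, some c) +
      ((J.1.2 (c, false) : ℂ) * u (h * FreeGroup.of (c, false), none) +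
        (J.1.2 (c, true) : ℂ) * u (h * FreeGroup.of (c, true), none)) := by
  have h1 : Pr (some c) (HJ J u) (h, some c) = HJ J u (h, some c) := by
    rw [Pr_apply, if_pos rfl]
  have h2 : Pr (some c) (HJ J u) = (J.1.1 (some c) : ℂ) • Pr (some c) u
      + ((J.1.2 (c, false) : ℂ) • Up (c, false) u + (J.1.2 (c, true) : ℂ) • Up (c, true) u) := by
    have h3 := congrArg (fun S : HB k →L[ℂ] HB k => S u) (Pr_some_mul_HJ J c)
    rw [Pr_mul_Wp_some] at h3
    exact h3
  rw [← h1, h2]
  change (J.1.1 (some c) : ℂ) * Pr (some c) u (h, some c) +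
    ((J.1.2 (c, false) : ℂ) * Up (c, false) u (h, some c) +
      (J.1.2 (c, true) : ℂ) * Up (c, true) u (h, some c)) = _
  rw [Pr_apply, if_pos rfl, Up_apply, if_pos rfl, Up_apply, if_pos rfl]
  rfl

lemma norm_kerProj_delta_lt (J : Params (Option (Fin k)) (Fin k × Bool)) (c : Fin k) :
    ‖kerProj (HJ J) (delta (1, some c))‖ ^ 2 < 1 := by
  classical
  set δ : HB k := delta (1, some c) with hδ
  have hn : ‖δ‖ = 1 := norm_delta _
  have h1 : ‖kerProj (HJ J) δ‖ ≤ 1 := hn ▸ norm_kerProj_le _ _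
  rcases h1.lt_or_eq with h2 | h2
  · calc ‖kerProj (HJ J) δ‖ ^ 2 < 1 ^ 2 := pow_lt_pow_left₀ h2 (norm_nonneg _) two_ne_zero
      _ = 1 := one_pow 2
  · exfalso
    have h3 : inner ℂ δ (kerProj (HJ J) δ) = 1 := by
      rw [inner_self_kerProj, h2]
      norm_num
    have h4 : δ = kerProj (HJ J) δ := by
      rw [← inner_eq_one_iff_of_norm_eq_one (𝕜 := ℂ) hn h2]
      exact h3
    have h5 : HJ J δ = 0 := by rw [h4]; exact apply_kerProj _ _
    have h6 : inner ℂ (HJ J (delta (FreeGroup.of (c, false), none))) δ = 0 := by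
      rw [← ContinuousLinearMap.adjoint_inner_right, (HJ_isSelfAdjoint J).adjoint_eq, h5,
        inner_zero_right]
    rw [hδ, inner_delta_right, HJ_apply_some] at h6
    have e1 : (delta (FreeGroup.of (c, false), none) : HB k) (1, some c) = 0 :=
      delta_ne (by simp)
    have e2 : (delta (FreeGroup.of (c, false), none) : HB k)
        (1 * FreeGroup.of (c, false), none) = 1 := by
      rw [one_mul]; exact delta_self _
    have e3 : (delta (FreeGroup.of (c, false), none) : HB k)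
        (1 * FreeGroup.of (c, true), none) = 0 := by
      refine delta_ne ?_
      intro h
      rw [one_mul] at h
      have := FreeGroup.of_injective (congrArg Prod.fst h)
      simp at this
    rw [e1, e2, e3] at h6
    have h7 := (J.2 (c, false)).ne'
    simp [h7] at h6

theorem tr_kerProj_lt {J : Params (Option (Fin k)) (Fin k × Bool)} {c₀ c₁ : Fin k}
    (h0 : J.1.1 (some c₀) = 0) (h1 : J.1.1 (some c₁) ≠ 0) :
    (tr (kerProj (HJ J))).re < (k : ℝ) - 1 := by
  classical
  have hnone : ∀ v, Pr none (kerProj (HJ J) v) = 0 := fun v => ker_none (apply_kerProj _ _) h0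
  have hc₁ : ∀ v, Pr (some c₁) (kerProj (HJ J) v) = 0 := by
    intro v
    have h2 := ker_some (apply_kerProj (HJ J) v) c₁
    have h3 : Wp J (kerProj (HJ J) v) = 0 := by
      rw [← Wp_mul_Pr_none]
      change Wp J (Pr none (kerProj (HJ J) v)) = 0
      rw [hnone, map_zero]
    rw [h3, map_zero, add_zero, smul_eq_zero] at h2
    exact h2.resolve_left (Complex.ofReal_ne_zero.2 h1)
  have hval : ∀ x : Option (Fin k), Pr x (kerProj (HJ J) (delta (1, x))) = 0 →
      ‖kerProj (HJ J) (delta (1, x))‖ ^ 2 = 0 := by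
    intro x hx
    have h2 : inner ℂ (delta ((1 : FreeGroup (Fin k × Bool)), x)) (kerProj (HJ J) (delta (1, x))) = 0 := by
      rw [inner_delta_left]
      have h3 := congrArg (fun v : HB k => v (1, x)) hx
      change Pr x (kerProj (HJ J) (delta (1, x))) (1, x) = 0 at h3
      rw [Pr_apply, if_pos rfl] at h3
      exact h3
    rw [inner_self_kerProj] at h2
    exact_mod_cast h2
  rw [tr_kerProj, Complex.ofReal_re, Fintype.sum_option, hval none (hnone _), zero_add]
  have hne : c₀ ≠ c₁ := by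
    rintro rfl
    exact h1 h0
  rw [← Finset.add_sum_erase _ _ (Finset.mem_univ c₁), hval (some c₁) (hc₁ _), zero_add]
  have h4 : ∑ c ∈ Finset.univ.erase c₁, ‖kerProj (HJ J) (delta (1, some c))‖ ^ 2 <
      ∑ c ∈ Finset.univ.erase c₁, (1 : ℝ) := by
    refine Finset.sum_lt_sum_of_nonempty ⟨c₀, Finset.mem_erase.2 ⟨hne, Finset.mem_univ _⟩⟩
      (fun c _ => norm_kerProj_delta_lt J c)
  refine h4.trans_le ?_
  rw [Finset.sum_const, Finset.card_erase_of_mem (Finset.mem_univ _), Finset.card_univ,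
    Fintype.card_fin, nsmul_eq_mul, mul_one, Nat.cast_sub]
  · simp
  · exact Nat.one_le_iff_ne_zero.2 (by rintro rfl; exact c₀.elim0)

/-- If the kernel projection is at least as large as for `b = 0`, then `b` vanishes on all the
outer vertices. -/
theorem b_some_eq_zero (hk : 3 ≤ k) {J : Params (Option (Fin k)) (Fin k × Bool)}
    (h : (k : ℝ) - 1 ≤ (tr (kerProj (HJ J))).re) (c : Fin k) : J.1.1 (some c) = 0 := by
  by_contra hc
  by_cases h2 : ∀ c', J.1.1 (some c') ≠ 0
  · have h3 := tr_kerProj_le_one h2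
    have h4 : (3 : ℝ) ≤ k := by exact_mod_cast hk
    linarith
  · push Not at h2
    obtain ⟨c₀, h0⟩ := h2
    have := tr_kerProj_lt h0 hc
    linarith

end Pool.Agent.Work.MP_24ca2e_an
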