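import Mathlib

set_option autoImplicit false

/-!
Spheres of dimension at least two are not tori.
-/

namespace Pool.Agent.Work.MP_24ca2e_an

open Filter Topology

/-- Two real lifts of the same map to the circle differ by a constant. -/
lemma lift_unique {X : Type*} [TopologicalSpace X] [PreconnectedSpace X] {F₁ F₂ : X → ℝ}
    (h₁ : Continuous F₁) (h₂ : Continuous F₂)
    (h : ∀ x, Circle.exp (F₁ x) = Circle.exp (F₂ x)) (x y : X) :
    F₁ x - F₂ x = F₁ y - F₂ y := by
  have key : ∀ x y, ¬ (F₁ x - F₂ x < F₁ y - F₂ y) := by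
    intro x y hlt
    have hD : Continuous (fun z => F₁ z - F₂ z) := h₁.sub h₂
    have hexp : ∀ z, ∃ n : ℤ, F₁ z - F₂ z = n * (2 * Real.pi) := by
      intro z
      rw [← Circle.exp_eq_one, Circle.exp_sub, h z, div_self']
    obtain ⟨a, ha⟩ := hexp x
    obtain ⟨b, hb⟩ := hexp y
    have hpi := Real.pi_pos
    have hab : a < b := by
      rw [ha, hb] at hlt
      have := lt_of_mul_lt_mul_right hlt (by positivity)
      exact_mod_cast this
    have hab' : (a : ℝ) + 1 ≤ b := by exact_mod_cast hab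
    obtain ⟨z, hz⟩ := mem_range_of_exists_le_of_exists_ge hD (c := ((a : ℝ) + 1 / 2) * (2 * Real.pi))
      ⟨x, by rw [ha]; nlinarith⟩ ⟨y, by rw [hb]; nlinarith⟩
    obtain ⟨c, hc⟩ := hexp z
    have hz' : F₁ z - F₂ z = ((a : ℝ) + 1 / 2) * (2 * Real.pi) := hz
    rw [hc] at hz'
    have h3 : (c : ℝ) = (a : ℝ) + 1 / 2 := mul_right_cancel₀ (by positivity) hz'
    have h4 : (2 * c : ℝ) = 2 * a + 1 := by linarith
    have h5 : 2 * c = 2 * a + 1 := by exact_mod_cast h4
    omega
  exact le_antisymm (not_lt.1 (key y x)) (not_lt.1 (key x y))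

/-- Maps of a contractible space to the circle lift. -/
lemma exists_lift {X : Type*} [NormedAddCommGroup X] [NormedSpace ℝ X] {f : X → Circle}
    (hf : Continuous f) : ∃ F : X → ℝ, Continuous F ∧ ∀ x, Circle.exp (F x) = f x := by
  obtain ⟨e, he⟩ := Circle.isCoveringMap_exp.isLocalHomeomorph.isOpenMap |> fun _ =>
    (show Function.Surjective Circle.exp from fun z => ⟨Complex.arg z, Circle.exp_arg z⟩) (f 0)
  obtain ⟨F, ⟨_, hF⟩, _⟩ := Circle.isCoveringMap_exp.existsUnique_continuousMap_lifts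
    (⟨f, hf⟩ : C(X, Circle)) 0 e he
  exact ⟨F, F.continuous, fun x => congrFun hF x⟩

variable {n : ℕ}

/-- Radial retraction on the unit ball. -/
noncomputable def rad (x : EuclideanSpace ℝ (Fin n)) : EuclideanSpace ℝ (Fin n) :=
  (max 1 ‖x‖)⁻¹ • x

lemma rad_continuous : Continuous (rad (n := n)) := by
  unfold rad
  refine Continuous.smul (Continuous.inv₀ (continuous_const.max continuous_norm) (fun x => ?_))
    continuous_id
  exact ne_of_gt (lt_of_lt_of_le one_pos (le_max_left 1 ‖x‖))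

lemma rad_eq {x : EuclideanSpace ℝ (Fin n)} (h : ‖x‖ ≤ 1) : rad x = x := by
  unfold rad
  rw [max_eq_left h, inv_one, one_smul]

lemma norm_rad_le (x : EuclideanSpace ℝ (Fin n)) : ‖rad x‖ ≤ 1 := by
  unfold rad
  rw [norm_smul, norm_inv, Real.norm_eq_abs, abs_of_pos (by positivity : 0 < max 1 ‖x‖)]
  rw [inv_mul_le_one₀ (by positivity)]
  exact le_max_right _ _

/-- The hemisphere parametrisation. -/
noncomputable def hem (ε : ℝ) (x : EuclideanSpace ℝ (Fin n)) : EuclideanSpace ℝ (Fin (n + 1)) :=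
  WithLp.toLp 2 (Fin.cons (ε * Real.sqrt (1 - ‖x‖ ^ 2)) x.ofLp)

lemma hem_continuous (ε : ℝ) : Continuous (hem (n := n) ε) := by
  unfold hem
  refine (PiLp.continuous_toLp 2 _).comp (continuous_pi (fun i => ?_))
  refine Fin.cases ?_ (fun j => ?_) i
  · simp only [Fin.cons_zero]
    fun_prop
  · simp only [Fin.cons_succ]
    fun_prop

lemma hem_mem {ε : ℝ} (hε : ε ^ 2 = 1) {x : EuclideanSpace ℝ (Fin n)} (hx : ‖x‖ ≤ 1) :
    hem ε x ∈ Metric.sphere (0 : EuclideanSpace ℝ (Fin (n + 1))) 1 := by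
  rw [EuclideanSpace.sphere_zero_eq 1 zero_le_one]
  change ∑ i, (hem ε x) i ^ 2 = 1 ^ 2
  rw [Fin.sum_univ_succ]
  have h1 : (hem ε x) 0 = ε * Real.sqrt (1 - ‖x‖ ^ 2) := rfl
  have h2 : ∀ i : Fin n, (hem ε x) i.succ = x i := fun i => rfl
  simp only [h1, h2]
  have h3 : ∑ i, x i ^ 2 = ‖x‖ ^ 2 := by
    rw [EuclideanSpace.norm_sq_eq]
    simp
  rw [h3, mul_pow, hε, Real.sq_sqrt]
  · ring
  · have : ‖x‖ ^ 2 ≤ 1 := pow_le_one₀ (norm_nonneg _) hx
    linarith

/-- Forget the zeroth coordinate. -/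
noncomputable def tl (y : EuclideanSpace ℝ (Fin (n + 1))) : EuclideanSpace ℝ (Fin n) :=
  WithLp.toLp 2 (fun i => y i.succ)

lemma tl_continuous : Continuous (tl (n := n)) := by
  unfold tl
  refine (PiLp.continuous_toLp 2 _).comp (continuous_pi (fun i => ?_))
  fun_prop

lemma tl_norm {y : EuclideanSpace ℝ (Fin (n + 1))}
    (hy : y ∈ Metric.sphere (0 : EuclideanSpace ℝ (Fin (n + 1))) 1) :
    ‖tl y‖ ^ 2 = 1 - y 0 ^ 2 := by
  rw [EuclideanSpace.sphere_zero_eq 1 zero_le_one] at hy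
  have hy' : ∑ i, y i ^ 2 = 1 ^ 2 := hy
  rw [Fin.sum_univ_succ] at hy'
  rw [EuclideanSpace.norm_sq_eq]
  have h2 : ∀ i : Fin n, ‖(tl y) i‖ ^ 2 = y i.succ ^ 2 := by
    intro i
    rw [Real.norm_eq_abs, sq_abs]
    rfl
  simp only [h2]
  linarith

lemma tl_norm_le {y : EuclideanSpace ℝ (Fin (n + 1))}
    (hy : y ∈ Metric.sphere (0 : EuclideanSpace ℝ (Fin (n + 1))) 1) : ‖tl y‖ ≤ 1 := by
  have h := tl_norm hy
  have h2 : ‖tl y‖ ^ 2 ≤ 1 ^ 2 := by
    rw [h]
    nlinarith [sq_nonneg (y 0)]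
  exact (pow_le_pow_iff_left₀ (norm_nonneg _) zero_le_one two_ne_zero).1 h2

lemma hem_tl {ε : ℝ} {y : EuclideanSpace ℝ (Fin (n + 1))}
    (hy : y ∈ Metric.sphere (0 : EuclideanSpace ℝ (Fin (n + 1))) 1) (h : ε * |y 0| = y 0) :
    hem ε (tl y) = y := by
  refine PiLp.ext (fun i => ?_)
  refine Fin.cases ?_ (fun j => ?_) i
  · change ε * Real.sqrt (1 - ‖tl y‖ ^ 2) = y 0
    rw [tl_norm hy, sub_sub_cancel, Real.sqrt_sq_eq_abs, h]
  · rfl

/-- Every continuous map from a sphere of dimension at least two to the circle lifts. -/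
theorem exists_lift_sphere (hn : 2 ≤ n)
    (g : C(Metric.sphere (0 : EuclideanSpace ℝ (Fin (n + 1))) 1, Circle)) :
    ∃ F : C(Metric.sphere (0 : EuclideanSpace ℝ (Fin (n + 1))) 1, ℝ),
      ∀ y, Circle.exp (F y) = g y := by
  have hlift : ∀ ε : ℝ, ∀ hε : ε ^ 2 = 1, ∃ F : EuclideanSpace ℝ (Fin n) → ℝ, Continuous F ∧
      ∀ x, Circle.exp (F x) = g ⟨hem ε (rad x), hem_mem hε (norm_rad_le x)⟩ := by
    intro ε hε
    refine exists_lift (f := fun x => g ⟨hem ε (rad x), hem_mem hε (norm_rad_le x)⟩) ?_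
    exact g.continuous.comp (((hem_continuous ε).comp rad_continuous).subtype_mk _)
  obtain ⟨P, hP, hP2⟩ := hlift 1 (by norm_num)
  obtain ⟨Q, hQ, hQ2⟩ := hlift (-1) (by norm_num)
  -- the equator
  have heq : ∀ x : Metric.sphere (0 : EuclideanSpace ℝ (Fin n)) 1,
      Circle.exp (P x) = Circle.exp (Q x) := by
    intro x
    rw [hP2, hQ2]
    congr 2
    have hx : ‖(x : EuclideanSpace ℝ (Fin n))‖ = 1 := by simp
    rw [rad_eq hx.le]
    unfold hem
    rw [hx]
    simp
  have hrank : 1 < Module.rank ℝ (EuclideanSpace ℝ (Fin n)) := by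
    rw [← Module.finrank_eq_rank, finrank_euclideanSpace_fin]
    exact_mod_cast hn
  have hpre : PreconnectedSpace (Metric.sphere (0 : EuclideanSpace ℝ (Fin n)) 1) :=
    isPreconnected_iff_preconnectedSpace.1 (isPreconnected_sphere hrank 0 1)
  obtain ⟨x₀⟩ : Nonempty (Metric.sphere (0 : EuclideanSpace ℝ (Fin n)) 1) := by
    have : Nontrivial (EuclideanSpace ℝ (Fin n)) := by
      have : Nonempty (Fin n) := ⟨⟨0, by omega⟩⟩
      infer_instance
    exact (NormedSpace.sphere_nonempty.2 zero_le_one).to_subtype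
  set c := P x₀ - Q x₀ with hc
  have hconst : ∀ x : Metric.sphere (0 : EuclideanSpace ℝ (Fin n)) 1, P x = Q x + c := by
    intro x
    have := lift_unique (hP.comp continuous_subtype_val) (hQ.comp continuous_subtype_val) heq x x₀
    simp only [Function.comp] at this
    rw [hc]
    linarith
  have hcexp : Circle.exp c = 1 := by
    rw [hc, Circle.exp_sub, heq x₀, div_self']
  refine ⟨⟨fun y => if (0 : ℝ) ≤ y.1 0 then P (tl y.1) else Q (tl y.1) + c, ?_⟩, ?_⟩
  · refine Continuous.if_le ?_ ?_ continuous_const ?_ ?_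
    · exact hP.comp (tl_continuous.comp continuous_subtype_val)
    · exact (hQ.comp (tl_continuous.comp continuous_subtype_val)).add continuous_const
    · fun_prop
    · intro y hy
      have h1 : ‖tl y.1‖ ^ 2 = 1 := by
        rw [tl_norm y.2, ← hy]; simp
      have h2 : ‖tl y.1‖ = 1 := by
        have := (pow_eq_one_iff_of_nonneg (norm_nonneg (tl y.1)) two_ne_zero).1 h1
        exact this
      exact hconst ⟨tl y.1, by simpa using h2⟩
  · intro y
    change Circle.exp (if (0 : ℝ) ≤ y.1 0 then P (tl y.1) else Q (tl y.1) + c) = g y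
    by_cases h : (0 : ℝ) ≤ y.1 0
    · rw [if_pos h, hP2]
      congr 1
      refine Subtype.ext ?_
      change hem 1 (rad (tl y.1)) = y.1
      rw [rad_eq (tl_norm_le y.2), hem_tl y.2]
      rw [one_mul, abs_of_nonneg h]
    · rw [if_neg h, Circle.exp_add, hcexp, mul_one, hQ2]
      congr 1
      refine Subtype.ext ?_
      change hem (-1) (rad (tl y.1)) = y.1
      rw [rad_eq (tl_norm_le y.2), hem_tl y.2]
      rw [abs_of_neg (not_le.1 h)]
      ring

/-- A sphere of dimension at least two is not homeomorphic to a torus. -/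
theorem sphere_not_torus (hn : 2 ≤ n) (m : ℕ) :
    IsEmpty (Metric.sphere (0 : EuclideanSpace ℝ (Fin (n + 1))) 1 ≃ₜ (Fin m → Circle)) := by
  refine ⟨fun h => ?_⟩
  rcases m with _ | m
  · have hn1 : Nontrivial (EuclideanSpace ℝ (Fin (n + 1))) := inferInstance
    obtain ⟨x, hx⟩ := (NormedSpace.sphere_nonempty (E := EuclideanSpace ℝ (Fin (n + 1)))
      (x := 0) (r := 1)).2 zero_le_one
    have hx' : -x ∈ Metric.sphere (0 : EuclideanSpace ℝ (Fin (n + 1))) 1 := by
      simpa using hx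
    have h1 : (⟨x, hx⟩ : Metric.sphere (0 : EuclideanSpace ℝ (Fin (n + 1))) 1) = ⟨-x, hx'⟩ :=
      h.injective (Subsingleton.elim _ _)
    have h2 : x = -x := congrArg Subtype.val h1
    have h3 : x = 0 := by
      have h4 : (2 : ℝ) • x = 0 := by
        rw [two_smul]
        nth_rw 2 [h2]
        exact add_neg_cancel x
      exact (smul_eq_zero.1 h4).resolve_left two_ne_zero
    rw [h3] at hx
    simp at hx
  · obtain ⟨F, hF⟩ := exists_lift_sphere hn
      ⟨fun y => h y 0, (continuous_apply (0 : Fin (m + 1))).comp h.continuous⟩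
    have hcont : Continuous (fun θ : ℝ =>
        F (h.symm (Function.update (fun _ => (1 : Circle)) 0 (Circle.exp θ)))) := by
      refine F.continuous.comp (h.symm.continuous.comp ?_)
      exact continuous_const.update 0 (by fun_prop)
    have hexp : ∀ θ : ℝ, Circle.exp
        (F (h.symm (Function.update (fun _ => (1 : Circle)) 0 (Circle.exp θ)))) =
        Circle.exp θ := by
      intro θ
      rw [hF]
      change (h (h.symm (Function.update (fun _ => (1 : Circle)) 0 (Circle.exp θ)))) 0 = _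
      rw [h.apply_symm_apply, Function.update_self]
    have h1 := lift_unique hcont continuous_id hexp 0 (2 * Real.pi)
    simp only [Circle.exp_two_pi, Circle.exp_zero, id] at h1
    have := Real.pi_pos
    linarith

end Pool.Agent.Work.MP_24ca2e_an
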