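import Pool.Agent.Work.MP_24ca2e_an.Iso
import Pool.Agent.Work.MP_24ca2e_an.Topo

set_option autoImplicit false
set_option linter.unusedSectionVars false

/-!
The IsoDOS set which is a sphere.
-/

namespace Pool.Agent.Work.MP_24ca2e_an

open Filter Topology

variable {n : ℕ}

/-- The base point. -/
noncomputable def J0 (n : ℕ) : Params (Option (Fin (n + 1))) (Fin (n + 1) × Bool) :=
  ⟨(0, fun e => if e.1 = 0 then (if e.2 then 1 else 2) else Real.sqrt 2), by
    intro e
    simp only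
    split_ifs <;> positivity⟩

lemma AJ_J0 (c : Fin (n + 1)) : AJ (J0 n) c = 2 := by
  unfold AJ J0
  by_cases h : c = 0
  · simp [h]
  · simp [h]

lemma sub_J0 (c : Fin (n + 1)) :
    (J0 n).1.2 (c, false) - (J0 n).1.2 (c, true) = if c = 0 then 1 else 0 := by
  unfold J0
  by_cases h : c = 0
  · simp [h]
    norm_num
  · simp [h]

lemma sum_J0 : ∑ c, ((J0 n).1.2 (c, false) - (J0 n).1.2 (c, true)) ^ 2 = 1 := by
  simp only [sub_J0]
  simp

lemma SJ_eq (J : Params (Option (Fin (n + 1))) (Fin (n + 1) × Bool)) :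
    SJ J = ∑ c, (J.1.2 (c, false) - J.1.2 (c, true)) ^ 2 + 2 * ∑ c, AJ J c := by
  unfold SJ AJ
  rw [Fintype.sum_prod_type, Finset.mul_sum, ← Finset.sum_add_distrib]
  refine Finset.sum_congr rfl (fun c _ => ?_)
  rw [Fintype.sum_bool]
  ring

/-- Membership in the IsoDOS set. -/
lemma mem_iff (hn : 2 ≤ n) {C : Cover (bouquet (n + 1))} (hC : C.IsUniversal)
    (J : Params (Option (Fin (n + 1))) (Fin (n + 1) × Bool)) :
    J ∈ C.isoDOS (J0 n) ↔ J.1.1 = 0 ∧
      ∑ c, (J.1.2 (c, false) - J.1.2 (c, true)) ^ 2 = 1 ∧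
      ∀ c, J.1.2 (c, false) * J.1.2 (c, true) = 2 := by
  have hρ : 0 < ∑ c, ((J0 n).1.2 (c, false) - (J0 n).1.2 (c, true)) ^ 2 := by
    rw [sum_J0]; exact one_pos
  rw [isoDOS_bouquet (by omega) hC rfl AJ_J0 hρ]
  have h : ∀ (_ : ∀ c, AJ J c = 2), (SJ J = SJ (J0 n) ↔
      ∑ c, (J.1.2 (c, false) - J.1.2 (c, true)) ^ 2 = 1) := by
    intro hA
    rw [SJ_eq, SJ_eq, sum_J0]
    simp only [hA, AJ_J0]
    exact add_left_inj _
  constructor
  · rintro ⟨h1, h2, h3⟩
    exact ⟨h1, (h h3).1 h2, h3⟩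
  · rintro ⟨h1, h2, h3⟩
    exact ⟨h1, (h h3).2 h2, h3⟩

/-- The point with given differences. -/
noncomputable def Jd (d : EuclideanSpace ℝ (Fin (n + 1))) :
    Params (Option (Fin (n + 1))) (Fin (n + 1) × Bool) :=
  ⟨(0, fun e => (Real.sqrt (d e.1 ^ 2 + 8) + (if e.2 then -1 else 1) * d e.1) / 2), by
    intro e
    simp only
    have h1 : |d e.1| < Real.sqrt (d e.1 ^ 2 + 8) := by
      rw [Real.lt_sqrt (abs_nonneg _), sq_abs]
      linarith
    have h2 := abs_lt.1 h1
    split_ifs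
    · linarith [h2.2]
    · linarith [h2.1]⟩

lemma Jd_false (d : EuclideanSpace ℝ (Fin (n + 1))) (c : Fin (n + 1)) :
    (Jd d).1.2 (c, false) = (Real.sqrt (d c ^ 2 + 8) + d c) / 2 := by
  unfold Jd
  simp

lemma Jd_true (d : EuclideanSpace ℝ (Fin (n + 1))) (c : Fin (n + 1)) :
    (Jd d).1.2 (c, true) = (Real.sqrt (d c ^ 2 + 8) - d c) / 2 := by
  unfold Jd
  simp
  ring

lemma Jd_continuous : Continuous (Jd (n := n)) := by
  unfold Jd
  refine Continuous.subtype_mk (Continuous.prodMk continuous_const (continuous_pi (fun e => ?_))) _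
  fun_prop

/-- The IsoDOS set is homeomorphic to a sphere. -/
noncomputable def sphereHomeo (hn : 2 ≤ n) {C : Cover (bouquet (n + 1))} (hC : C.IsUniversal) :
    C.isoDOS (J0 n) ≃ₜ Metric.sphere (0 : EuclideanSpace ℝ (Fin (n + 1))) 1 where
  toFun J := ⟨WithLp.toLp 2 (fun c => J.1.1.2 (c, false) - J.1.1.2 (c, true)), by
    rw [EuclideanSpace.sphere_zero_eq 1 zero_le_one, one_pow]
    exact ((mem_iff hn hC J.1).1 J.2).2.1⟩
  invFun d := ⟨Jd d.1, by
    rw [mem_iff hn hC]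
    refine ⟨rfl, ?_, ?_⟩
    · simp only [Jd_false, Jd_true]
      have h' : ∑ i, d.1 i ^ 2 = 1 ^ 2 :=
        (Set.ext_iff.1 (EuclideanSpace.sphere_zero_eq 1 zero_le_one) d.1).1 d.2
      rw [one_pow] at h'
      refine (Finset.sum_congr rfl (fun c _ => ?_)).trans h'
      ring
    · intro c
      rw [Jd_false, Jd_true]
      have h := Real.sq_sqrt (show 0 ≤ d.1 c ^ 2 + 8 by positivity)
      linear_combination h / 4⟩
  left_inv J := by
    have hJ := (mem_iff hn hC J.1).1 J.2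
    refine Subtype.ext (Subtype.ext (Prod.ext hJ.1.symm (funext fun e => ?_)))
    obtain ⟨c, κ⟩ := e
    have h1 : (0 : ℝ) < J.1.1.2 (c, false) := J.1.2 _
    have h2 : (0 : ℝ) < J.1.1.2 (c, true) := J.1.2 _
    have h3 : Real.sqrt ((J.1.1.2 (c, false) - J.1.1.2 (c, true)) ^ 2 + 8) =
        J.1.1.2 (c, false) + J.1.1.2 (c, true) := by
      rw [show (J.1.1.2 (c, false) - J.1.1.2 (c, true)) ^ 2 + 8 =
        (J.1.1.2 (c, false) + J.1.1.2 (c, true)) ^ 2 by
          linear_combination (-4) * hJ.2.2 c]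
      exact Real.sqrt_sq (by linarith)
    cases κ
    · refine (Jd_false _ c).trans ?_
      change (Real.sqrt ((J.1.1.2 (c, false) - J.1.1.2 (c, true)) ^ 2 + 8) +
        (J.1.1.2 (c, false) - J.1.1.2 (c, true))) / 2 = _
      rw [h3]; ring
    · refine (Jd_true _ c).trans ?_
      change (Real.sqrt ((J.1.1.2 (c, false) - J.1.1.2 (c, true)) ^ 2 + 8) -
        (J.1.1.2 (c, false) - J.1.1.2 (c, true))) / 2 = _
      rw [h3]; ring
  right_inv d := by
    refine Subtype.ext (PiLp.ext (fun c => ?_))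
    change (Jd d.1).1.2 (c, false) - (Jd d.1).1.2 (c, true) = d.1 c
    rw [Jd_false, Jd_true]
    ring
  continuous_toFun := by
    refine Continuous.subtype_mk ((PiLp.continuous_toLp 2 _).comp (continuous_pi (fun c => ?_))) _
    fun_prop
  continuous_invFun := by
    refine Continuous.subtype_mk (Jd_continuous.comp continuous_subtype_val) _

theorem isoDOS_main (hn : 2 ≤ n) {C : Cover (bouquet (n + 1))} (hC : C.IsUniversal) :
    Nonempty (C.isoDOS (J0 n) ≃ₜ Metric.sphere (0 : EuclideanSpace ℝ (Fin (n + 1))) 1) ∧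
      ∀ (x : C.isoDOS (J0 n)) (m : ℕ), IsEmpty (connectedComponent x ≃ₜ (Fin m → Circle)) := by
  refine ⟨⟨sphereHomeo hn hC⟩, fun x m => ⟨fun h => ?_⟩⟩
  have hrank : 1 < Module.rank ℝ (EuclideanSpace ℝ (Fin (n + 1))) := by
    rw [← Module.finrank_eq_rank, finrank_euclideanSpace_fin]
    have : 1 < n + 1 := by omega
    exact_mod_cast this
  have hpre : PreconnectedSpace (Metric.sphere (0 : EuclideanSpace ℝ (Fin (n + 1))) 1) :=
    isPreconnected_iff_preconnectedSpace.1 (isPreconnected_sphere hrank 0 1)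
  have hpre2 : PreconnectedSpace (C.isoDOS (J0 n)) :=
    (sphereHomeo hn hC).symm.surjective.denseRange.preconnectedSpace
      (sphereHomeo hn hC).symm.continuous
  have huniv : connectedComponent x = Set.univ := PreconnectedSpace.connectedComponent_eq_univ x
  have e1 : connectedComponent x ≃ₜ C.isoDOS (J0 n) :=
    (Homeomorph.setCongr huniv).trans (Homeomorph.Set.univ _)
  exact (sphere_not_torus hn m).false ((sphereHomeo hn hC).symm.trans (e1.symm.trans h))

lemma J0_mem (hn : 2 ≤ n) {C : Cover (bouquet (n + 1))} (hC : C.IsUniversal) :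
    J0 n ∈ C.isoDOS (J0 n) := by
  rw [mem_iff hn hC]
  exact ⟨rfl, sum_J0, fun c => AJ_J0 c⟩

/-- The final statement. -/
theorem main_theorem (n : ℕ) (hn : 2 ≤ n) :
    ∃ (V E : Type) (_ : Fintype V) (_ : Fintype E) (G : MGraph V E) (J₀ : Params V E),
      Nonempty V ∧ G.Connected ∧ (∀ x, 2 ≤ G.degree x) ∧ (∃ C : Cover G, C.IsUniversal) ∧
      ∀ C : Cover G, C.IsUniversal →
        (∀ J : Params V E, ∃! k, C.IsDOS J k) ∧
        J₀ ∈ C.isoDOS J₀ ∧
        Nonempty (C.isoDOS J₀ ≃ₜ Metric.sphere (0 : EuclideanSpace ℝ (Fin (n + 1))) 1) ∧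
        ∀ (x : C.isoDOS J₀) (m : ℕ), IsEmpty (connectedComponent x ≃ₜ (Fin m → Circle)) :=
  ⟨Option (Fin (n + 1)), Fin (n + 1) × Bool, inferInstance, inferInstance, bouquet (n + 1), J0 n,
    inferInstance, bouquet_connected, bouquet_degree (by omega),
    ⟨treeCover (bouquet (n + 1)) none, treeCover_isUniversal none⟩,
    fun _ hC => ⟨fun J => hC.existsUnique_isDOS bouquet_connected J, J0_mem hn hC,
      (isoDOS_main hn hC).1, (isoDOS_main hn hC).2⟩⟩

end Pool.Agent.Work.MP_24ca2e_an
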