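import Pool.Agent.Work.MP_24ca2e_an.Rigidity

set_option autoImplicit false
set_option linter.unusedSectionVars false

/-!
Moments of Jacobi operators over the bouquet and rigidity.
-/

namespace Pool.Agent.Work.MP_24ca2e_an

open MeasureTheory Filter Topology

variable {k : ℕ}

lemma tr_Pr_none_mul {S : HB k →L[ℂ] HB k} (hS : Eqv S) (h : Pr none * S = 0)
    (h2 : S * Pr none = S) : tr S = 0 := by
  rw [← h2, tr_comm hS (Pr_eqv none), h, tr_zero]

lemma adjoint_Wp_mul_Pr_none (J : Params (Option (Fin k)) (Fin k × Bool)) :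
    ContinuousLinearMap.adjoint (Wp J) * Pr none = 0 := by
  have := congrArg ContinuousLinearMap.adjoint (Pr_none_mul_Wp J)
  rw [ContinuousLinearMap.mul_def, ContinuousLinearMap.adjoint_comp, adjoint_Pr, map_zero] at this
  exact this

lemma Pr_none_mul_adjoint_Wp (J : Params (Option (Fin k)) (Fin k × Bool)) :
    Pr none * ContinuousLinearMap.adjoint (Wp J) = ContinuousLinearMap.adjoint (Wp J) := by
  have := congrArg ContinuousLinearMap.adjoint (Wp_mul_Pr_none J)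
  rw [ContinuousLinearMap.mul_def, ContinuousLinearMap.adjoint_comp, adjoint_Pr] at this
  exact this

lemma Wp_mul_Wp (J : Params (Option (Fin k)) (Fin k × Bool)) : Wp J * Wp J = 0 := by
  calc Wp J * Wp J = (Wp J * Pr none) * Wp J := by rw [Wp_mul_Pr_none]
    _ = 0 := by rw [mul_assoc, Pr_none_mul_Wp, mul_zero]

lemma adjoint_Wp_mul_adjoint_Wp (J : Params (Option (Fin k)) (Fin k × Bool)) :
    ContinuousLinearMap.adjoint (Wp J) * ContinuousLinearMap.adjoint (Wp J) = 0 := by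
  have := congrArg ContinuousLinearMap.adjoint (Wp_mul_Wp J)
  rw [ContinuousLinearMap.mul_def, ContinuousLinearMap.adjoint_comp, map_zero] at this
  exact this

lemma tr_HJ (J : Params (Option (Fin k)) (Fin k × Bool)) :
    tr (HJ J) = ∑ x, (J.1.1 x : ℂ) := by
  rw [HJ_eq, tr_add, tr_add, tr_sum, tr_Pr_none_mul (Wp_eqv J) (Pr_none_mul_Wp J)
    (Wp_mul_Pr_none J)]
  have h1 : tr (ContinuousLinearMap.adjoint (Wp J)) = 0 := by
    rw [← Pr_none_mul_adjoint_Wp, tr_comm (Pr_eqv none) (Wp_eqv J).adjoint,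
      adjoint_Wp_mul_Pr_none, tr_zero]
  rw [h1, add_zero, add_zero]
  refine Finset.sum_congr rfl (fun x _ => ?_)
  rw [tr_smul, tr_Pr, mul_one]

lemma HJ_b0 {J : Params (Option (Fin k)) (Fin k × Bool)} (hb : J.1.1 = 0) :
    HJ J = Wp J + ContinuousLinearMap.adjoint (Wp J) := by
  rw [HJ_eq, hb]
  simp

/-- The grading operator. -/
noncomputable def Gr : HB k →L[ℂ] HB k := (2 : ℂ) • Pr none - 1

lemma Gr_eqv : Eqv (Gr (k := k)) := ((Pr_eqv none).smul _).sub Eqv.one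

lemma Gr_mul_self : (Gr * Gr : HB k →L[ℂ] HB k) = 1 := by
  unfold Gr
  rw [sub_mul, mul_sub, mul_sub, smul_mul_smul_comm, Pr_mul_self, mul_one, one_mul, mul_one]
  module

lemma Gr_mul_HJ {J : Params (Option (Fin k)) (Fin k × Bool)} (hb : J.1.1 = 0) :
    Gr * HJ J = - (HJ J * Gr) := by
  rw [HJ_b0 hb]
  unfold Gr
  rw [sub_mul, mul_sub, one_mul, mul_one, smul_mul_assoc, mul_smul_comm, mul_add, add_mul,
    Pr_none_mul_Wp, Pr_none_mul_adjoint_Wp, Wp_mul_Pr_none, adjoint_Wp_mul_Pr_none]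
  module

lemma Gr_mul_HJ_pow {J : Params (Option (Fin k)) (Fin k × Bool)} (hb : J.1.1 = 0) (n : ℕ) :
    Gr * HJ J ^ n = ((-1 : ℂ) ^ n) • (HJ J ^ n * Gr) := by
  induction n with
  | zero => simp
  | succ n ih =>
    calc Gr * HJ J ^ (n + 1) = (Gr * HJ J ^ n) * HJ J := by rw [pow_succ, mul_assoc]
      _ = ((-1 : ℂ) ^ n) • (HJ J ^ n * (Gr * HJ J)) := by rw [ih, smul_mul_assoc, mul_assoc]
      _ = ((-1 : ℂ) ^ (n + 1)) • (HJ J ^ (n + 1) * Gr) := by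
        rw [Gr_mul_HJ hb, pow_succ (HJ J), pow_succ (-1 : ℂ), mul_neg, mul_neg_one, neg_smul,
          smul_neg, mul_assoc]

lemma tr_HJ_odd {J : Params (Option (Fin k)) (Fin k × Bool)} (hb : J.1.1 = 0) {n : ℕ}
    (hn : Odd n) : tr (HJ J ^ n) = 0 := by
  have h1 : tr (HJ J ^ n) = - tr (HJ J ^ n) := by
    calc tr (HJ J ^ n) = tr (Gr * (Gr * HJ J ^ n)) := by rw [← mul_assoc, Gr_mul_self, one_mul]
      _ = tr ((Gr * HJ J ^ n) * Gr) := tr_comm Gr_eqv (Gr_eqv.mul ((HJ_eqv J).pow n))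
      _ = - tr (HJ J ^ n) := by
        rw [Gr_mul_HJ_pow hb, hn.neg_one_pow, smul_mul_assoc, mul_assoc, Gr_mul_self, mul_one,
          tr_smul, neg_one_mul]
  have h2 : (2 : ℂ) * tr (HJ J ^ n) = 0 := by linear_combination h1
  simpa using h2

lemma pow_add_of_mul_eq_zero {R : Type} [Ring R] {P Q : R} (h1 : P * Q = 0) (h2 : Q * P = 0)
    (n : ℕ) : (P + Q) ^ (n + 1) = P ^ (n + 1) + Q ^ (n + 1) := by
  induction n with
  | zero => simp
  | succ n ih =>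
    have e1 : P ^ (n + 1) * Q = 0 := by rw [pow_succ, mul_assoc, h1, mul_zero]
    have e2 : Q ^ (n + 1) * P = 0 := by rw [pow_succ, mul_assoc, h2, mul_zero]
    rw [pow_succ, ih, add_mul, mul_add, mul_add, e1, e2, add_zero, zero_add, ← pow_succ,
      ← pow_succ]

lemma mul_pow_swap {R : Type} [Ring R] (P Q : R) (n : ℕ) :
    (P * Q) ^ (n + 1) = P * ((Q * P) ^ n * Q) := by
  induction n with
  | zero => simp
  | succ n ih =>
    rw [pow_succ, ih, pow_succ]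
    simp only [mul_assoc]

lemma tr_HJ_even {J : Params (Option (Fin k)) (Fin k × Bool)} (hb : J.1.1 = 0) (m : ℕ) :
    tr (HJ J ^ (2 * (m + 1))) = 2 * tr (NJ J ^ (m + 1)) := by
  set W := Wp J with hW
  set Ws := ContinuousLinearMap.adjoint (Wp J) with hWs
  have h2 : HJ J ^ 2 = Ws * W + W * Ws := by
    rw [HJ_b0 hb, sq, add_mul, mul_add, mul_add, Wp_mul_Wp, adjoint_Wp_mul_adjoint_Wp, zero_add,
      add_zero, add_comm]
  have h3 : (Ws * W) * (W * Ws) = 0 := by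
    rw [mul_assoc, ← mul_assoc W W, hW, Wp_mul_Wp, zero_mul, mul_zero]
  have h4 : (W * Ws) * (Ws * W) = 0 := by
    rw [mul_assoc, ← mul_assoc Ws Ws, hWs, adjoint_Wp_mul_adjoint_Wp, zero_mul, mul_zero]
  rw [pow_mul, h2, pow_add_of_mul_eq_zero h3 h4, tr_add]
  have h5 : tr ((W * Ws) ^ (m + 1)) = tr ((Ws * W) ^ (m + 1)) := by
    have hWe : Eqv W := Wp_eqv J
    have hWse : Eqv Ws := (Wp_eqv J).adjoint
    rw [mul_pow_swap, tr_comm hWe (((hWse.mul hWe).pow m).mul hWse), mul_assoc, ← pow_succ]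
  rw [h5]
  unfold NJ
  ring

/-- The moments are determined by the sum of squares and the products. -/
theorem moments_of_eq {J J' : Params (Option (Fin k)) (Fin k × Bool)} (hb : J.1.1 = 0)
    (hb' : J'.1.1 = 0) (hS : SJ J = SJ J') (hA : ∀ c, AJ J c = AJ J' c) (n : ℕ) :
    tr (HJ J ^ n) = tr (HJ J' ^ n) := by
  rcases Nat.even_or_odd' n with ⟨m, rfl | rfl⟩
  · rcases m with _ | m
    · simp
    · rw [tr_HJ_even hb, tr_HJ_even hb']
      have : NJ J = NJ J' := by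
        rw [NJ_eq, NJ_eq, hS]
        unfold YJ
        simp only [hA]
      rw [this]
  · rw [tr_HJ_odd hb ⟨m, rfl⟩, tr_HJ_odd hb' ⟨m, rfl⟩]

lemma NJ_mul_Pr (J : Params (Option (Fin k)) (Fin k × Bool)) : NJ J * Pr none = NJ J := by
  unfold NJ
  rw [mul_assoc, Wp_mul_Pr_none]

lemma Pr_mul_NJ (J : Params (Option (Fin k)) (Fin k × Bool)) : Pr none * NJ J = NJ J := by
  unfold NJ
  rw [← mul_assoc, Pr_none_mul_adjoint_Wp]

lemma tr_YJ (J : Params (Option (Fin k)) (Fin k × Bool)) : tr (YJ J) = 0 := by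
  unfold YJ
  rw [tr_sum]
  refine Finset.sum_eq_zero (fun h _ => ?_)
  rw [tr_smul, tr_Rt, if_neg, mul_zero]
  rw [psi_eq_one_iff]
  intro h2
  rw [← FreeGroup.toWord_inj, FreeGroup.toWord_mk] at h2
  simp [FreeGroup.reduce] at h2

lemma tr_NJ (J : Params (Option (Fin k)) (Fin k × Bool)) : tr (NJ J) = SJ J := by
  rw [NJ_eq, tr_add, tr_YJ, tr_smul, tr_Pr, mul_one, add_zero]

lemma YJ_sq' (J : Params (Option (Fin k)) (Fin k × Bool)) :
    YJ J * YJ J = NJ J ^ 2 - (2 * SJ J : ℂ) • NJ J + ((SJ J : ℂ) ^ 2) • Pr none := by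
  have h : YJ J = NJ J - (SJ J : ℂ) • Pr none := by
    rw [NJ_eq]; abel
  rw [h]
  generalize (SJ J : ℂ) = s
  rw [sub_mul, mul_sub, mul_sub, smul_mul_smul_comm, Pr_mul_self, mul_smul_comm, NJ_mul_Pr,
    smul_mul_assoc, Pr_mul_NJ, ← sq]
  module

lemma YJ_four' (J : Params (Option (Fin k)) (Fin k × Bool)) :
    (YJ J * YJ J) * (YJ J * YJ J) = NJ J ^ 4 - (4 * SJ J : ℂ) • NJ J ^ 3 +
      (6 * (SJ J : ℂ) ^ 2) • NJ J ^ 2 - (4 * (SJ J : ℂ) ^ 3) • NJ J ^ 1 +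
      ((SJ J : ℂ) ^ 4) • Pr none := by
  rw [YJ_sq']
  generalize (SJ J : ℂ) = s
  have e1 : NJ J ^ 2 * Pr none = NJ J ^ 2 := by rw [sq, mul_assoc, NJ_mul_Pr]
  have e2 : Pr none * NJ J ^ 2 = NJ J ^ 2 := by rw [sq, ← mul_assoc, Pr_mul_NJ]
  simp only [sub_mul, add_mul, mul_sub, mul_add, smul_mul_assoc, mul_smul_comm, Pr_mul_self,
    NJ_mul_Pr, Pr_mul_NJ, e1, e2, pow_one]
  rw [← pow_add, ← pow_succ, ← pow_succ', ← sq]
  norm_num
  module

theorem rigidity_A {J J₀ : Params (Option (Fin k)) (Fin k × Bool)} (hb : J.1.1 = 0)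
    (hb₀ : J₀.1.1 = 0) {A : ℝ} (hA : ∀ c, AJ J₀ c = A)
    (h : ∀ n, tr (HJ J ^ n) = tr (HJ J₀ ^ n)) : SJ J = SJ J₀ ∧ ∀ c, AJ J c = A := by
  have hN : ∀ m : ℕ, tr (NJ J ^ (m + 1)) = tr (NJ J₀ ^ (m + 1)) := by
    intro m
    have h1 := h (2 * (m + 1))
    rw [tr_HJ_even hb, tr_HJ_even hb₀] at h1
    exact mul_left_cancel₀ two_ne_zero h1
  have hS : SJ J = SJ J₀ := by
    have h1 := hN 0
    rw [zero_add, pow_one, pow_one, tr_NJ, tr_NJ] at h1
    exact_mod_cast h1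
  refine ⟨hS, ?_⟩
  have h2 : tr (YJ J * YJ J) = tr (YJ J₀ * YJ J₀) := by
    rw [YJ_sq', YJ_sq', hS]
    simp only [tr_add, tr_sub, tr_smul, tr_NJ, hS]
    rw [hN 1]
  have h4 : tr ((YJ J * YJ J) * (YJ J * YJ J)) = tr ((YJ J₀ * YJ J₀) * (YJ J₀ * YJ J₀)) := by
    rw [YJ_four', YJ_four', hS]
    simp only [tr_add, tr_sub, tr_smul]
    rw [hN 3, hN 2, hN 1, hN 0]
  rw [tr_YJ_sq, tr_YJ_sq] at h2
  rw [tr_YJ_four, tr_YJ_four] at h4
  have h2' : ∑ h : Fin k × Bool, AJ J h.1 ^ 2 = ∑ h : Fin k × Bool, AJ J₀ h.1 ^ 2 := by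
    exact_mod_cast h2
  have h4' : 2 * (∑ h : Fin k × Bool, AJ J h.1 ^ 2) ^ 2 - ∑ h : Fin k × Bool, AJ J h.1 ^ 4 =
      2 * (∑ h : Fin k × Bool, AJ J₀ h.1 ^ 2) ^ 2 - ∑ h : Fin k × Bool, AJ J₀ h.1 ^ 4 :=
    Complex.ofReal_injective h4
  rw [h2'] at h4'
  have h5 : ∑ h : Fin k × Bool, AJ J h.1 ^ 4 = ∑ h : Fin k × Bool, AJ J₀ h.1 ^ 4 := by linarith
  simp only [hA] at h2' h5
  have h6 : ∑ h : Fin k × Bool, (AJ J h.1 ^ 2 - A ^ 2) ^ 2 = 0 := by
    have e : ∀ h : Fin k × Bool, (AJ J h.1 ^ 2 - A ^ 2) ^ 2 =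
        AJ J h.1 ^ 4 - 2 * A ^ 2 * AJ J h.1 ^ 2 + A ^ 4 := fun h => by ring
    simp only [e]
    rw [Finset.sum_add_distrib, Finset.sum_sub_distrib, ← Finset.mul_sum, h2', h5,
      Finset.mul_sum, ← Finset.sum_sub_distrib, ← Finset.sum_add_distrib]
    refine Finset.sum_eq_zero (fun h _ => ?_)
    ring
  intro c
  have h7 := (Finset.sum_eq_zero_iff_of_nonneg (fun h _ => sq_nonneg _)).1 h6 (c, false)
    (Finset.mem_univ _)
  have h8 : AJ J c ^ 2 = A ^ 2 := by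
    have := pow_eq_zero_iff (two_ne_zero) |>.1 h7
    simpa using sub_eq_zero.1 this
  have hpos : 0 < AJ J c := mul_pos (J.2 _) (J.2 _)
  have hposA : 0 < A := by
    rw [← hA c]
    exact mul_pos (J₀.2 _) (J₀.2 _)
  exact (pow_left_inj₀ hpos.le hposA.le two_ne_zero).1 h8

/-- Rigidity. -/
theorem rigidity (hk : 3 ≤ k) {J J₀ : Params (Option (Fin k)) (Fin k × Bool)}
    (hb₀ : J₀.1.1 = 0) {A : ℝ} (hA : ∀ c, AJ J₀ c = A)
    (hρ : 0 < ∑ c, (J₀.1.2 (c, false) - J₀.1.2 (c, true)) ^ 2)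
    (h : ∀ n, tr (HJ J ^ n) = tr (HJ J₀ ^ n)) :
    J.1.1 = 0 ∧ SJ J = SJ J₀ ∧ ∀ c, AJ J c = A := by
  have h1 : (tr (kerProj (HJ J))).re = (tr (kerProj (HJ J₀))).re := by
    rw [tr_kerProj, tr_kerProj]
    have := sum_kerProj_congr (HJ J) (HJ_isSelfAdjoint J) (HJ J₀) (HJ_isSelfAdjoint J₀)
      (fun x : Option (Fin k) => (delta (1, x) : HB k)) (fun x => (delta (1, x) : HB k)) (by
        intro n
        simp only [inner_delta_left]
        exact h n)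
    rw [this]
  have h2 := tr_kerProj_ge hb₀ hρ
  rw [← h1] at h2
  have h3 := b_some_eq_zero hk h2
  have h4 : J.1.1 = 0 := by
    funext x
    rcases x with _ | c
    · have h5 := h 1
      rw [pow_one, pow_one, tr_HJ, tr_HJ, hb₀, Fintype.sum_option] at h5
      simp only [h3] at h5
      simpa using h5
    · exact h3 c
  exact ⟨h4, rigidity_A h4 hb₀ hA h⟩

end Pool.Agent.Work.MP_24ca2e_an
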