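import Pool.Agent.Work.MP_24ca2e_an.Kernel

set_option autoImplicit false
set_option linter.unusedSectionVars false

/-!
Moments of Jacobi operators over the bouquet with `b = 0`, and rigidity.
-/

namespace Pool.Agent.Work.MP_24ca2e_an

open MeasureTheory Filter Topology

variable {k : ℕ}

/-! ### Right translations over the centre -/

lemma rt_injective (g : FreeGroup (Fin k × Bool)) :
    Function.Injective (fun t : FreeGroup (Fin k × Bool) × Option (Fin k) => (t.1 * g, t.2)) := by
  intro s t h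
  have h1 : s.1 * g = t.1 * g := (Prod.ext_iff.1 h).1
  have h2 : s.2 = t.2 := (Prod.ext_iff.1 h).2
  exact Prod.ext (mul_right_cancel h1) h2

/-- Right translation on the functions over the centre. -/
noncomputable def Rt (g : FreeGroup (Fin k × Bool)) : HB k →L[ℂ] HB k :=
  Pr none * pull (rt_injective g)

lemma Rt_apply (g : FreeGroup (Fin k × Bool)) (u : HB k)
    (t : FreeGroup (Fin k × Bool) × Option (Fin k)) :
    Rt g u t = if t.2 = none then u (t.1 * g, none) else 0 := by
  change Pr none (pull (rt_injective g) u) t = _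
  rw [Pr_apply]
  by_cases h : t.2 = none
  · rw [if_pos h, if_pos h]
    change u (t.1 * g, t.2) = _
    rw [h]
  · rw [if_neg h, if_neg h]

lemma Rt_one : (Rt 1 : HB k →L[ℂ] HB k) = Pr none := by
  refine ContinuousLinearMap.ext (fun u => ell2_ext (fun t => ?_))
  rw [Rt_apply, Pr_apply]
  by_cases h : t.2 = none
  · rw [if_pos h, if_pos h, mul_one]
    obtain ⟨a, b⟩ := t
    have : b = none := h
    rw [this]
  · rw [if_neg h, if_neg h]

lemma Rt_mul (g h : FreeGroup (Fin k × Bool)) : (Rt g * Rt h : HB k →L[ℂ] HB k) = Rt (g * h) := by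
  refine ContinuousLinearMap.ext (fun u => ell2_ext (fun t => ?_))
  change Rt g (Rt h u) t = _
  rw [Rt_apply, Rt_apply, Rt_apply]
  by_cases ht : t.2 = none
  · rw [if_pos ht, if_pos ht, if_pos rfl, mul_assoc]
  · rw [if_neg ht, if_neg ht]

open Classical in
lemma tr_Rt (g : FreeGroup (Fin k × Bool)) :
    tr (Rt g : HB k →L[ℂ] HB k) = if g = 1 then 1 else 0 := by
  unfold tr
  rw [Fintype.sum_option]
  have h1 : ∑ c : Fin k, (Rt g (delta (1, some c))) (1, some c) = 0 := by
    refine Finset.sum_eq_zero (fun c _ => ?_)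
    rw [Rt_apply]
    exact if_neg (by simp)
  rw [h1, add_zero, Rt_apply, if_pos rfl, one_mul]
  by_cases h : g = 1
  · rw [if_pos h, h]
    exact delta_self _
  · rw [if_neg h]
    refine delta_ne (fun h2 => h ?_)
    exact congrArg Prod.fst h2

/-! ### The square of the Jacobi operator -/

lemma mk_false (e : Fin k × Bool) : FreeGroup.mk [(e, false)] = (FreeGroup.of e)⁻¹ := rfl

lemma adjoint_Up_mul_Up (e e' : Fin k × Bool) :
    ContinuousLinearMap.adjoint (Up e) * Up e' =
      if e'.1 = e.1 then Rt ((FreeGroup.of e)⁻¹ * FreeGroup.of e') else 0 := by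
  refine ContinuousLinearMap.ext (fun u => ell2_ext (fun t => ?_))
  change ContinuousLinearMap.adjoint (Up e) (Up e' u) t = _
  rw [Down_apply, Up_apply]
  by_cases h : e'.1 = e.1
  · rw [if_pos h, Rt_apply]
    by_cases ht : t.2 = none
    · rw [if_pos ht.symm, if_pos ht, if_pos (by rw [h]), mk_false, mk_true, mul_assoc]
    · rw [if_neg (fun h2 => ht h2.symm), if_neg ht]
  · rw [if_neg h]
    change _ = (0 : ℂ)
    by_cases ht : t.2 = none
    · rw [if_pos ht.symm, if_neg]
      intro h2
      exact h (Option.some_injective _ h2)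
    · rw [if_neg (fun h2 => ht h2.symm)]

/-- The generator belonging to the `c`-th cycle. -/
def tau (c : Fin k) : FreeGroup (Fin k × Bool) :=
  (FreeGroup.of (c, false))⁻¹ * FreeGroup.of (c, true)

/-- The homomorphism sending the `c`-th generator to `tau c`. -/
def psi : FreeGroup (Fin k) →* FreeGroup (Fin k × Bool) := FreeGroup.lift tau

/-- A left inverse of `psi`. -/
def psi' : FreeGroup (Fin k × Bool) →* FreeGroup (Fin k) :=
  FreeGroup.lift (fun e => if e.2 then FreeGroup.of e.1 else 1)

lemma psi'_psi (g : FreeGroup (Fin k)) : psi' (psi g) = g := by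
  have h : (psi' (k := k)).comp psi = MonoidHom.id _ := by
    refine FreeGroup.ext_hom _ _ (fun c => ?_)
    change psi' (psi (FreeGroup.of c)) = FreeGroup.of c
    unfold psi psi'
    rw [FreeGroup.lift_apply_of]
    unfold tau
    rw [map_mul, map_inv, FreeGroup.lift_apply_of, FreeGroup.lift_apply_of]
    simp
  exact DFunLike.congr_fun h g

lemma psi_injective : Function.Injective (psi (k := k)) :=
  Function.LeftInverse.injective psi'_psi

/-- The sum of squares of the edge weights. -/
def SJ (J : Params (Option (Fin k)) (Fin k × Bool)) : ℝ := ∑ e, J.1.2 e ^ 2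

/-- The products of the two weights of a cycle. -/
def AJ (J : Params (Option (Fin k)) (Fin k × Bool)) (c : Fin k) : ℝ :=
  J.1.2 (c, false) * J.1.2 (c, true)

/-- The off-diagonal part of `H²` over the centre. -/
noncomputable def YJ (J : Params (Option (Fin k)) (Fin k × Bool)) : HB k →L[ℂ] HB k :=
  ∑ h : Fin k × Bool, (AJ J h.1 : ℂ) • Rt (psi (FreeGroup.mk [h]))

/-- The operator `H²` over the centre. -/
noncomputable def NJ (J : Params (Option (Fin k)) (Fin k × Bool)) : HB k →L[ℂ] HB k :=
  ContinuousLinearMap.adjoint (Wp J) * Wp J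

lemma psi_mk_true (c : Fin k) : psi (FreeGroup.mk [(c, true)]) = tau c := by
  change psi (FreeGroup.of c) = tau c
  unfold psi
  rw [FreeGroup.lift_apply_of]

lemma psi_mk_false (c : Fin k) : psi (FreeGroup.mk [(c, false)]) = (tau c)⁻¹ := by
  change psi ((FreeGroup.of c)⁻¹) = (tau c)⁻¹
  unfold psi
  rw [map_inv, FreeGroup.lift_apply_of]

lemma NJ_eq (J : Params (Option (Fin k)) (Fin k × Bool)) :
    NJ J = (SJ J : ℂ) • Pr none + YJ J := by
  classical
  have h1 : NJ J = ∑ e : Fin k × Bool, ∑ e' : Fin k × Bool,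
      ((J.1.2 e : ℂ) * (J.1.2 e' : ℂ)) • (ContinuousLinearMap.adjoint (Up e) * Up e') := by
    unfold NJ Wp
    rw [map_sum, Finset.sum_mul]
    refine Finset.sum_congr rfl (fun e _ => ?_)
    rw [Finset.mul_sum]
    refine Finset.sum_congr rfl (fun e' _ => ?_)
    rw [map_smulₛₗ, smul_mul_smul_comm]
    simp
  rw [h1, Fintype.sum_prod_type]
  have h2 : ∀ c : Fin k, (∑ κ : Bool, ∑ e' : Fin k × Bool,
      ((J.1.2 (c, κ) : ℂ) * (J.1.2 e' : ℂ)) • (ContinuousLinearMap.adjoint (Up (c, κ)) * Up e'))
      = ((J.1.2 (c, false) ^ 2 + J.1.2 (c, true) ^ 2 : ℝ) : ℂ) • Pr none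
        + ((AJ J c : ℂ) • Rt (psi (FreeGroup.mk [(c, true)]))
          + (AJ J c : ℂ) • Rt (psi (FreeGroup.mk [(c, false)]))) := by
    intro c
    have h3 : ∀ κ : Bool, ∑ e' : Fin k × Bool,
        ((J.1.2 (c, κ) : ℂ) * (J.1.2 e' : ℂ)) •
          (ContinuousLinearMap.adjoint (Up (c, κ)) * Up e') =
        ∑ κ' : Bool, ((J.1.2 (c, κ) : ℂ) * (J.1.2 (c, κ') : ℂ)) •
          Rt ((FreeGroup.of (c, κ))⁻¹ * FreeGroup.of (c, κ')) := by
      intro κ
      rw [Fintype.sum_prod_type, Finset.sum_eq_single c]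
      · refine Finset.sum_congr rfl (fun κ' _ => ?_)
        rw [adjoint_Up_mul_Up, if_pos rfl]
      · intro c' _ hc'
        refine Finset.sum_eq_zero (fun κ' _ => ?_)
        rw [adjoint_Up_mul_Up, if_neg hc', smul_zero]
      · intro h; exact absurd (Finset.mem_univ _) h
    simp only [h3, Fintype.sum_bool]
    rw [inv_mul_cancel, inv_mul_cancel, Rt_one, psi_mk_true, psi_mk_false]
    have h4 : (FreeGroup.of (c, true))⁻¹ * FreeGroup.of (c, false) = (tau c)⁻¹ := by
      unfold tau
      rw [mul_inv_rev, inv_inv]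
    have h5 : (FreeGroup.of (c, false))⁻¹ * FreeGroup.of (c, true) = tau c := rfl
    rw [h4, h5]
    unfold AJ
    push_cast
    module
  rw [Finset.sum_congr rfl (fun c _ => h2 c), Finset.sum_add_distrib, ← Finset.sum_smul]
  congr 1
  · congr 1
    unfold SJ
    rw [Fintype.sum_prod_type]
    push_cast
    refine Finset.sum_congr rfl (fun c _ => ?_)
    rw [Fintype.sum_bool, add_comm]
  · unfold YJ
    rw [Fintype.sum_prod_type]
    refine Finset.sum_congr rfl (fun c _ => ?_)
    rw [Fintype.sum_bool]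

/-! ### Traces -/

lemma tr_zero : tr (0 : HB k →L[ℂ] HB k) = 0 := by
  have := tr_smul (0 : ℂ) (0 : HB k →L[ℂ] HB k)
  rw [zero_smul, zero_mul] at this
  exact this

lemma tr_sum {I : Type} (s : Finset I) (S : I → HB k →L[ℂ] HB k) :
    tr (∑ i ∈ s, S i) = ∑ i ∈ s, tr (S i) := by
  classical
  induction s using Finset.induction_on with
  | empty => simp [tr_zero]
  | insert i s hi ih => rw [Finset.sum_insert hi, Finset.sum_insert hi, tr_add, ih]

/-- The inverse letter. -/
def inv' (h : Fin k × Bool) : Fin k × Bool := (h.1, !h.2)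

lemma inv'_inv' (h : Fin k × Bool) : inv' (inv' h) = h := by
  unfold inv'
  simp

lemma reduce_pair (x y : Fin k × Bool) :
    FreeGroup.reduce [x, y] = if y = inv' x then [] else [x, y] := by
  unfold inv'
  obtain ⟨a, b⟩ := x
  obtain ⟨c, d⟩ := y
  by_cases h : a = c
  · subst h
    cases b <;> cases d <;> simp [FreeGroup.reduce]
  · have h' : ¬ c = a := fun h2 => h h2.symm
    simp [FreeGroup.reduce, h, h']

/-- The group element of a pair of letters. -/
def el (p : (Fin k × Bool) × (Fin k × Bool)) : FreeGroup (Fin k) := FreeGroup.mk [p.1, p.2]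

lemma el_eq_iff (p q : (Fin k × Bool) × (Fin k × Bool)) :
    el p = el q ↔ p = q ∨ (p.2 = inv' p.1 ∧ q.2 = inv' q.1) := by
  unfold el
  rw [← FreeGroup.toWord_inj, FreeGroup.toWord_mk, FreeGroup.toWord_mk, reduce_pair, reduce_pair]
  obtain ⟨a, b⟩ := p
  obtain ⟨c, d⟩ := q
  by_cases h1 : b = inv' a <;> by_cases h2 : d = inv' c
  · simp [h1, h2]
  · simp only [h1, h2, if_true, if_false]
    constructor
    · intro h; simp at h
    · rintro (h | h)
      · exfalso
        apply h2
        have e1 : a = c := congrArg Prod.fst h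
        have e2 : inv' a = d := congrArg Prod.snd h
        rw [← e2, e1]
      · exact absurd h.2 (by simp)
  · simp only [h1, h2, if_true, if_false]
    constructor
    · intro h; simp at h
    · rintro (h | h)
      · exfalso
        apply h1
        have e1 : a = c := congrArg Prod.fst h
        have e2 : b = inv' c := congrArg Prod.snd h
        rw [e2, e1]
      · exact absurd h.1 (by simp)
  · simp only [h1, h2, if_false]
    simp [Prod.ext_iff]

lemma el_eq_one_iff (p : (Fin k × Bool) × (Fin k × Bool)) : el p = 1 ↔ p.2 = inv' p.1 := by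
  unfold el
  rw [← FreeGroup.toWord_inj, FreeGroup.toWord_mk, reduce_pair, FreeGroup.toWord_one]
  by_cases h1 : p.2 = inv' p.1 <;> simp [h1]

/-- The involution on pairs inverting the group element. -/
def invp (p : (Fin k × Bool) × (Fin k × Bool)) : (Fin k × Bool) × (Fin k × Bool) :=
  (inv' p.2, inv' p.1)

lemma invp_invp (p : (Fin k × Bool) × (Fin k × Bool)) : invp (invp p) = p := by
  unfold invp
  simp [inv'_inv']

lemma el_invp (p : (Fin k × Bool) × (Fin k × Bool)) : el (invp p) = (el p)⁻¹ := by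
  unfold el invp inv'
  rw [FreeGroup.inv_mk]
  rfl

/-- The weight of a pair. -/
def FJ (J : Params (Option (Fin k)) (Fin k × Bool)) (p : (Fin k × Bool) × (Fin k × Bool)) : ℝ :=
  AJ J p.1.1 * AJ J p.2.1

lemma YJ_sq (J : Params (Option (Fin k)) (Fin k × Bool)) :
    YJ J * YJ J = ∑ p, (FJ J p : ℂ) • Rt (psi (el p)) := by
  unfold YJ
  rw [Finset.sum_mul_sum,
    Fintype.sum_prod_type (f := fun p : (Fin k × Bool) × (Fin k × Bool) =>
      (FJ J p : ℂ) • (Rt (psi (el p)) : HB k →L[ℂ] HB k))]
  refine Finset.sum_congr rfl (fun h _ => ?_)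
  refine Finset.sum_congr rfl (fun h' _ => ?_)
  rw [smul_mul_smul_comm, Rt_mul, ← map_mul, FreeGroup.mul_mk]
  unfold FJ el
  push_cast
  rfl

open Classical in
lemma psi_eq_one_iff (g : FreeGroup (Fin k)) : psi g = 1 ↔ g = 1 := by
  constructor
  · intro h
    apply psi_injective
    rw [h, map_one]
  · rintro rfl
    exact map_one _

open Classical in
lemma tr_YJ_sq (J : Params (Option (Fin k)) (Fin k × Bool)) :
    tr (YJ J * YJ J) = ((∑ h : Fin k × Bool, AJ J h.1 ^ 2 : ℝ) : ℂ) := by
  rw [YJ_sq, tr_sum]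
  push_cast
  rw [Fintype.sum_prod_type]
  refine Finset.sum_congr rfl (fun h _ => ?_)
  rw [Finset.sum_eq_single (inv' h)]
  · rw [tr_smul, tr_Rt, if_pos, mul_one]
    · unfold FJ inv'
      push_cast
      ring
    · rw [psi_eq_one_iff, el_eq_one_iff]
  · intro h' _ hh
    rw [tr_smul, tr_Rt, if_neg, mul_zero]
    rw [psi_eq_one_iff, el_eq_one_iff]
    exact hh
  · intro h; exact absurd (Finset.mem_univ _) h

open Classical in
lemma tr_YJ_four (J : Params (Option (Fin k)) (Fin k × Bool)) :
    tr ((YJ J * YJ J) * (YJ J * YJ J)) =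
      ((2 * (∑ h : Fin k × Bool, AJ J h.1 ^ 2) ^ 2 - ∑ h : Fin k × Bool, AJ J h.1 ^ 4 : ℝ) : ℂ) := by
  have e1 : tr ((YJ J * YJ J) * (YJ J * YJ J)) =
      ((∑ p, ∑ q, FJ J p * FJ J q * (if el p = el q then 1 else 0) : ℝ) : ℂ) := by
    rw [YJ_sq, Finset.sum_mul, tr_sum]
    push_cast
    refine Finset.sum_congr rfl (fun p _ => ?_)
    rw [Finset.mul_sum, tr_sum]
    rw [← Equiv.sum_comp (Function.Involutive.toPerm invp invp_invp)]
    refine Finset.sum_congr rfl (fun q _ => ?_)
    change tr (((FJ J p : ℂ) • Rt (psi (el p))) * ((FJ J (invp q) : ℂ) • Rt (psi (el (invp q)))))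
      = _
    rw [smul_mul_smul_comm, Rt_mul, ← map_mul, tr_smul, tr_Rt, el_invp]
    have e2 : FJ J (invp q) = FJ J q := by
      unfold FJ invp inv'
      exact mul_comm _ _
    rw [e2]
    by_cases h : el p = el q
    · rw [if_pos h, if_pos (by rw [h, mul_inv_cancel, map_one])]
      simp
    · rw [if_neg h, if_neg (by rw [psi_eq_one_iff, mul_inv_eq_one]; exact h)]
      simp
  rw [e1]
  congr 1
  have e3 : ∀ p q : (Fin k × Bool) × (Fin k × Bool),
      FJ J p * FJ J q * (if el p = el q then 1 else 0) =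
      (if p = q then FJ J p * FJ J q else 0) +
        (if p.2 = inv' p.1 then FJ J p else 0) * (if q.2 = inv' q.1 then FJ J q else 0) -
        (if p = q then (if p.2 = inv' p.1 then FJ J p * FJ J q else 0) else 0) := by
    intro p q
    by_cases h1 : p = q
    · subst h1
      by_cases h2 : p.2 = inv' p.1 <;> simp [h2]
    · by_cases h2 : p.2 = inv' p.1 <;> by_cases h3 : q.2 = inv' q.1 <;>
        simp [h1, h2, h3, el_eq_iff]
  simp only [e3]
  simp only [Finset.sum_sub_distrib, Finset.sum_add_distrib, Finset.sum_ite_eq, Finset.mem_univ,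
    if_true]
  have e4 : ∑ p : (Fin k × Bool) × (Fin k × Bool), FJ J p * FJ J p =
      (∑ h : Fin k × Bool, AJ J h.1 ^ 2) ^ 2 := by
    rw [sq (∑ h : Fin k × Bool, AJ J h.1 ^ 2), Finset.sum_mul_sum, Fintype.sum_prod_type]
    refine Finset.sum_congr rfl (fun h _ => Finset.sum_congr rfl (fun h' _ => ?_))
    unfold FJ
    ring
  have e5 : ∑ p : (Fin k × Bool) × (Fin k × Bool), ∑ q : (Fin k × Bool) × (Fin k × Bool),
      (if p.2 = inv' p.1 then FJ J p else 0) * (if q.2 = inv' q.1 then FJ J q else 0) =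
      (∑ h : Fin k × Bool, AJ J h.1 ^ 2) ^ 2 := by
    rw [← Finset.sum_mul_sum, ← sq]
    congr 1
    rw [Fintype.sum_prod_type]
    refine Finset.sum_congr rfl (fun h _ => ?_)
    rw [Finset.sum_eq_single (inv' h) (fun y _ hy => if_neg hy)
      (fun h2 => absurd (Finset.mem_univ _) h2), if_pos rfl]
    unfold FJ inv'
    ring
  have e6 : ∑ p : (Fin k × Bool) × (Fin k × Bool),
      (if p.2 = inv' p.1 then FJ J p * FJ J p else 0) = ∑ h : Fin k × Bool, AJ J h.1 ^ 4 := by
    rw [Fintype.sum_prod_type]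
    refine Finset.sum_congr rfl (fun h _ => ?_)
    rw [Finset.sum_eq_single (inv' h) (fun y _ hy => if_neg hy)
      (fun h2 => absurd (Finset.mem_univ _) h2), if_pos rfl]
    unfold FJ inv'
    ring
  rw [e4, e5, e6]
  ring

end Pool.Agent.Work.MP_24ca2e_an
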