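import Pool.Agent.Work.MP_24ca2e_an.Transfer

set_option autoImplicit false
set_option linter.unusedSectionVars false

/-!
Operators on `ℓ²(Γ × V)` commuting with the left translations of a group `Γ`, and their trace.
-/

namespace Pool.Agent.Work.MP_24ca2e_an

open MeasureTheory Filter Topology

section Trace

variable {Γ V : Type} [Group Γ]

/-- Left translation. -/
def lt (V : Type) (h : Γ) : Γ × V → Γ × V := fun i => (h * i.1, i.2)

lemma lt_injective (h : Γ) : Function.Injective (lt V h) := by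
  intro i j hij
  have h1 : h * i.1 = h * j.1 := (Prod.ext_iff.1 hij).1
  have h2 : i.2 = j.2 := (Prod.ext_iff.1 hij).2
  exact Prod.ext (mul_left_cancel h1) h2

/-- The translation operator `u ↦ u(h ·)`. -/
noncomputable def trans (V : Type) (h : Γ) : Ell2 (Γ × V) →L[ℂ] Ell2 (Γ × V) :=
  pull (lt_injective (V := V) h)

lemma trans_apply (h : Γ) (u : Ell2 (Γ × V)) (i : Γ × V) :
    trans V h u i = u (h * i.1, i.2) := rfl

lemma trans_delta (h : Γ) (g : Γ) (x : V) :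
    trans V h (delta (h * g, x)) = delta (g, x) :=
  pull_delta (lt_injective (V := V) h) (g, x)

/-- An operator is equivariant if it commutes with all translations. -/
def Eqv (S : Ell2 (Γ × V) →L[ℂ] Ell2 (Γ × V)) : Prop :=
  ∀ h : Γ, S * trans V h = trans V h * S

lemma Eqv.apply {S : Ell2 (Γ × V) →L[ℂ] Ell2 (Γ × V)} (hS : Eqv S) (h : Γ) (u : Ell2 (Γ × V)) :
    S (trans V h u) = trans V h (S u) := by
  have := congrArg (fun T : Ell2 (Γ × V) →L[ℂ] Ell2 (Γ × V) => T u) (hS h)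
  exact this

lemma Eqv.coef {S : Ell2 (Γ × V) →L[ℂ] Ell2 (Γ × V)} (hS : Eqv S) (h g g' : Γ) (x y : V) :
    (S (delta (h * g, y))) (h * g', x) = (S (delta (g, y))) (g', x) := by
  rw [← trans_delta h g y, hS.apply]
  rfl

lemma Eqv.of_coef {S : Ell2 (Γ × V) →L[ℂ] Ell2 (Γ × V)}
    (hS : ∀ (h g g' : Γ) (x y : V),
      (S (delta (h * g, y))) (h * g', x) = (S (delta (g, y))) (g', x)) : Eqv S := by
  intro h
  refine clm_ext (fun i => ell2_ext (fun j => ?_))
  change S (trans V h (delta i)) j = trans V h (S (delta i)) j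
  have h1 : i = (h * (h⁻¹ * i.1), i.2) := by simp
  rw [h1, trans_delta, trans_apply]
  exact (hS h (h⁻¹ * i.1) j.1 j.2 i.2).symm

lemma Eqv.one : Eqv (1 : Ell2 (Γ × V) →L[ℂ] Ell2 (Γ × V)) := fun h => by
  rw [one_mul, mul_one]

lemma Eqv.zero : Eqv (0 : Ell2 (Γ × V) →L[ℂ] Ell2 (Γ × V)) := fun h => by
  rw [zero_mul, mul_zero]

lemma Eqv.mul {S T : Ell2 (Γ × V) →L[ℂ] Ell2 (Γ × V)} (hS : Eqv S) (hT : Eqv T) :
    Eqv (S * T) := fun h => by
  rw [mul_assoc, hT h, ← mul_assoc, hS h, mul_assoc]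

lemma Eqv.add {S T : Ell2 (Γ × V) →L[ℂ] Ell2 (Γ × V)} (hS : Eqv S) (hT : Eqv T) :
    Eqv (S + T) := fun h => by
  rw [add_mul, mul_add, hS h, hT h]

lemma Eqv.sub {S T : Ell2 (Γ × V) →L[ℂ] Ell2 (Γ × V)} (hS : Eqv S) (hT : Eqv T) :
    Eqv (S - T) := fun h => by
  rw [sub_mul, mul_sub, hS h, hT h]

lemma Eqv.smul {S : Ell2 (Γ × V) →L[ℂ] Ell2 (Γ × V)} (c : ℂ) (hS : Eqv S) :
    Eqv (c • S) := fun h => by
  rw [smul_mul_assoc, hS h, mul_smul_comm]

lemma Eqv.sum {I : Type} (s : Finset I) {S : I → Ell2 (Γ × V) →L[ℂ] Ell2 (Γ × V)}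
    (hS : ∀ i ∈ s, Eqv (S i)) : Eqv (∑ i ∈ s, S i) := fun h => by
  rw [Finset.sum_mul, Finset.mul_sum]
  exact Finset.sum_congr rfl (fun i hi => hS i hi h)

lemma Eqv.pow {S : Ell2 (Γ × V) →L[ℂ] Ell2 (Γ × V)} (hS : Eqv S) (n : ℕ) : Eqv (S ^ n) := by
  induction n with
  | zero => rw [pow_zero]; exact Eqv.one
  | succ n ih => rw [pow_succ]; exact ih.mul hS

lemma Eqv.adjoint {S : Ell2 (Γ × V) →L[ℂ] Ell2 (Γ × V)} (hS : Eqv S) :
    Eqv (ContinuousLinearMap.adjoint S) := by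
  refine Eqv.of_coef (fun h g g' x y => ?_)
  rw [← inner_delta_left, ← inner_delta_left, ContinuousLinearMap.adjoint_inner_right,
    ContinuousLinearMap.adjoint_inner_right, inner_delta_right, inner_delta_right, hS.coef]

lemma Eqv.inverse {S T : Ell2 (Γ × V) →L[ℂ] Ell2 (Γ × V)} (hS : Eqv S) (h1 : S * T = 1)
    (h2 : T * S = 1) : Eqv T := fun h => by
  calc T * trans V h = T * trans V h * (S * T) := by rw [h1, mul_one]
    _ = T * (trans V h * S) * T := by simp only [mul_assoc]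
    _ = T * (S * trans V h) * T := by rw [hS h]
    _ = (T * S) * (trans V h * T) := by simp only [mul_assoc]
    _ = trans V h * T := by rw [h2, one_mul]

lemma hasSum_comp {ι : Type} (S T : Ell2 ι →L[ℂ] Ell2 ι) (i j : ι) :
    HasSum (fun k => (S (delta k)) i * (T (delta j)) k) ((S (T (delta j))) i) := by
  classical
  have h1 := lp.hasSum_single (p := 2) (by norm_num) (T (delta j))
  have h2 := S.hasSum h1
  have h3 := (lp.evalCLM ℂ (fun _ : ι => ℂ) (p := 2) i).hasSum h2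
  have h4 : ∀ k, (lp.evalCLM ℂ (fun _ : ι => ℂ) (p := 2) i)
      (S (lp.single 2 k ((T (delta j)) k))) = (S (delta k)) i * (T (delta j)) k := by
    intro k
    have e : (lp.single 2 k ((T (delta j)) k) : Ell2 ι) = ((T (delta j)) k) • delta k := by
      unfold delta
      rw [← lp.single_smul]
      simp
    rw [e, map_smul, map_smul, smul_eq_mul, mul_comm]
    rfl
  simp only [h4] at h3
  exact h3

variable [Fintype V]

/-- The trace of an equivariant operator. -/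
noncomputable def tr (S : Ell2 (Γ × V) →L[ℂ] Ell2 (Γ × V)) : ℂ :=
  ∑ x : V, (S (delta (1, x))) (1, x)

lemma tr_add (S T : Ell2 (Γ × V) →L[ℂ] Ell2 (Γ × V)) : tr (S + T) = tr S + tr T := by
  unfold tr
  rw [← Finset.sum_add_distrib]
  rfl

lemma tr_sub (S T : Ell2 (Γ × V) →L[ℂ] Ell2 (Γ × V)) : tr (S - T) = tr S - tr T := by
  unfold tr
  rw [← Finset.sum_sub_distrib]
  rfl

lemma tr_smul (c : ℂ) (S : Ell2 (Γ × V) →L[ℂ] Ell2 (Γ × V)) : tr (c • S) = c * tr S := by
  unfold tr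
  rw [Finset.mul_sum]
  rfl

lemma tr_mul (S T : Ell2 (Γ × V) →L[ℂ] Ell2 (Γ × V)) :
    tr (S * T) = ∑ x : V, ∑ y : V, ∑' g : Γ,
      (S (delta (g, y))) (1, x) * (T (delta (1, x))) (g, y) := by
  unfold tr
  refine Finset.sum_congr rfl (fun x _ => ?_)
  have h1 := hasSum_comp S T (1, x) (1, x)
  have h2 : ((S * T) (delta (1, x))) (1, x) = (S (T (delta (1, x)))) (1, x) := rfl
  rw [h2, ← h1.tsum_eq]
  have hs := h1.summable
  rw [hs.tsum_prod' (fun g => Summable.of_finite)]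
  simp only [tsum_fintype]
  rw [Summable.tsum_finsetSum]
  intro y _
  exact hs.comp_injective (i := fun g : Γ => (g, y)) (fun g g' h => congrArg Prod.fst h)

/-- The trace property. -/
theorem tr_comm {S T : Ell2 (Γ × V) →L[ℂ] Ell2 (Γ × V)} (hS : Eqv S) (hT : Eqv T) :
    tr (S * T) = tr (T * S) := by
  rw [tr_mul, tr_mul, Finset.sum_comm]
  refine Finset.sum_congr rfl (fun y _ => Finset.sum_congr rfl (fun x _ => ?_))
  rw [← Equiv.tsum_eq (Equiv.inv Γ)]
  refine tsum_congr (fun g => ?_)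
  have h1 : (S (delta (g⁻¹, y))) (1, x) = (S (delta (1, y))) (g, x) := by
    have := hS.coef g⁻¹ 1 g x y
    rwa [mul_one, inv_mul_cancel] at this
  have h2 : (T (delta (1, x))) (g⁻¹, y) = (T (delta (g, x))) (1, y) := by
    have := hT.coef g⁻¹ g 1 y x
    rwa [mul_one, inv_mul_cancel] at this
  change (S (delta (g⁻¹, y))) (1, x) * (T (delta (1, x))) (g⁻¹, y) = _
  rw [h1, h2, mul_comm]

lemma tr_re_nonneg {S : Ell2 (Γ × V) →L[ℂ] Ell2 (Γ × V)}
    (hS : ∀ u, 0 ≤ (inner ℂ u (S u)).re) : 0 ≤ (tr S).re := by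
  unfold tr
  rw [Complex.re_sum]
  refine Finset.sum_nonneg (fun x _ => ?_)
  rw [← inner_delta_left]
  exact hS _

/-- The projection onto the range of an equivariant operator which is bounded below on the range of
the projection `E₀` and vanishes on its complement. -/
theorem exists_range_proj {E₀ Z : Ell2 (Γ × V) →L[ℂ] Ell2 (Γ × V)} (hE : Eqv E₀) (hZ : Eqv Z)
    (hE1 : IsSelfAdjoint E₀) (hE2 : E₀ * E₀ = E₀) (hZE : Z * E₀ = Z) {c : ℝ} (hc : 0 < c)
    (hZc : ∀ u, c * ‖E₀ u‖ ^ 2 ≤ ‖Z u‖ ^ 2) :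
    ∃ Q R : Ell2 (Γ × V) →L[ℂ] Ell2 (Γ × V), Eqv Q ∧ IsSelfAdjoint Q ∧ Q * Q = Q ∧ Q * Z = Z ∧
      Q = Z * R ∧ tr Q = tr E₀ := by
  set Zs := ContinuousLinearMap.adjoint Z with hZs
  have hE1' : ContinuousLinearMap.adjoint E₀ = E₀ := hE1.adjoint_eq
  have hEZs : E₀ * Zs = Zs := by
    have := congrArg ContinuousLinearMap.adjoint hZE
    rw [ContinuousLinearMap.mul_def, ContinuousLinearMap.adjoint_comp, hE1'] at this
    exact this
  set M := Zs * Z + (1 - E₀) with hM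
  have hMsa : ContinuousLinearMap.adjoint M = M := by
    rw [hM, map_add, map_sub, hE1', ContinuousLinearMap.mul_def, ContinuousLinearMap.adjoint_comp,
      hZs, ContinuousLinearMap.adjoint_adjoint]
    congr 1
    congr 1
    exact ContinuousLinearMap.adjoint_id
  have hMe : Eqv M := (hZ.adjoint.mul hZ).add (Eqv.one.sub hE)
  have hE0u : ∀ u, inner ℂ u (E₀ u) = ((‖E₀ u‖ ^ 2 : ℝ) : ℂ) := by
    intro u
    have e1 : E₀ u = E₀ (E₀ u) := by
      conv_lhs => rw [← hE2]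
      rfl
    rw [e1, ← ContinuousLinearMap.adjoint_inner_left, hE1', ← e1, inner_self_eq_norm_sq_to_K]
    norm_cast
  have hMu : ∀ u, inner ℂ u (M u) = ((‖Z u‖ ^ 2 + ‖u‖ ^ 2 - ‖E₀ u‖ ^ 2 : ℝ) : ℂ) := by
    intro u
    have e1 : M u = Zs (Z u) + (u - E₀ u) := rfl
    rw [e1, inner_add_right, inner_sub_right, hE0u, hZs, ContinuousLinearMap.adjoint_inner_right,
      inner_self_eq_norm_sq_to_K, inner_self_eq_norm_sq_to_K]
    push_cast
    simp only [Complex.coe_algebraMap]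
    ring
  have hE0le : ∀ u, ‖E₀ u‖ ^ 2 ≤ ‖u‖ ^ 2 := by
    intro u
    have h1 : ‖E₀ u‖ ^ 2 ≤ ‖u‖ * ‖E₀ u‖ := by
      have h2 := norm_inner_le_norm (𝕜 := ℂ) u (E₀ u)
      rw [hE0u, Complex.norm_real, Real.norm_eq_abs, abs_of_nonneg (sq_nonneg _)] at h2
      exact h2
    have h3 : ‖E₀ u‖ ≤ ‖u‖ := by
      by_contra h4
      push Not at h4
      nlinarith [norm_nonneg u, norm_nonneg (E₀ u)]
    exact pow_le_pow_left₀ (norm_nonneg _) h3 2
  set m : ℝ := min c 1 with hm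
  have hm0 : 0 < m := lt_min hc one_pos
  have hlow : ∀ u, m * ‖u‖ ^ 2 ≤ ‖Z u‖ ^ 2 + ‖u‖ ^ 2 - ‖E₀ u‖ ^ 2 := by
    intro u
    have h1 := hZc u
    have h2 := hE0le u
    have h3 : m ≤ c := min_le_left _ _
    have h4 : m ≤ 1 := min_le_right _ _
    have h5 : m * ‖E₀ u‖ ^ 2 ≤ c * ‖E₀ u‖ ^ 2 := mul_le_mul_of_nonneg_right h3 (sq_nonneg _)
    have h6 : m * (‖u‖ ^ 2 - ‖E₀ u‖ ^ 2) ≤ 1 * (‖u‖ ^ 2 - ‖E₀ u‖ ^ 2) :=
      mul_le_mul_of_nonneg_right h4 (by linarith)
    nlinarith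
  have hunit : IsUnit M := by
    refine ContinuousLinearMap.isUnit_of_forall_le_norm_inner_map M (c := ⟨m, hm0.le⟩) hm0
      (fun u => ?_)
    rw [norm_inner_symm, hMu, Complex.norm_real, Real.norm_eq_abs]
    refine le_trans ?_ (le_abs_self _)
    have := hlow u
    rw [mul_comm]
    exact this
  obtain ⟨N, hN1⟩ := hunit.exists_right_inv
  obtain ⟨N', hN2⟩ := hunit.exists_left_inv
  have hNN : N' = N := by
    calc N' = N' * (M * N) := by rw [hN1, mul_one]
      _ = N := by rw [← mul_assoc, hN2, one_mul]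
  rw [hNN] at hN2
  have hNe : Eqv N := hMe.inverse hN1 hN2
  have hMnE : M * (1 - E₀) = 1 - E₀ := by
    rw [hM, add_mul]
    have e1 : Zs * Z * (1 - E₀) = 0 := by
      rw [mul_assoc, mul_sub, mul_one, hZE, sub_self, mul_zero]
    have e2 : (1 - E₀) * (1 - E₀) = 1 - E₀ := by
      rw [sub_mul, mul_sub, mul_sub, one_mul, mul_one, one_mul, hE2]
      abel
    rw [e1, e2, zero_add]
  have hNnE : N * (1 - E₀) = 1 - E₀ := by
    calc N * (1 - E₀) = N * (M * (1 - E₀)) := by rw [hMnE]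
      _ = 1 - E₀ := by rw [← mul_assoc, hN2, one_mul]
  have hNsa : ContinuousLinearMap.adjoint N = N := by
    have h1 : ContinuousLinearMap.adjoint N * M = 1 := by
      have := congrArg ContinuousLinearMap.adjoint hN1
      rw [ContinuousLinearMap.mul_def, ContinuousLinearMap.adjoint_comp, hMsa] at this
      rw [ContinuousLinearMap.mul_def, this]
      exact ContinuousLinearMap.adjoint_id
    calc ContinuousLinearMap.adjoint N = ContinuousLinearMap.adjoint N * (M * N) := by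
          rw [hN1, mul_one]
      _ = N := by rw [← mul_assoc, h1, one_mul]
  have hZsZ : Zs * Z = M - (1 - E₀) := by rw [hM]; abel
  have hZnE : Z * (1 - E₀) = 0 := by rw [mul_sub, mul_one, hZE, sub_self]
  have hQZ : Z * N * Zs * Z = Z := by
    calc Z * N * Zs * Z = Z * N * (Zs * Z) := by simp only [mul_assoc]
      _ = Z * (N * M) - Z * (N * (1 - E₀)) := by
          rw [hZsZ, mul_sub]; simp only [mul_assoc]
      _ = Z := by rw [hN2, hNnE, hZnE, mul_one, sub_zero]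
  refine ⟨Z * N * Zs, N * Zs, (hZ.mul hNe).mul hZ.adjoint, ?_, ?_, hQZ, by rw [mul_assoc], ?_⟩
  · rw [IsSelfAdjoint, ContinuousLinearMap.star_eq_adjoint]
    simp only [ContinuousLinearMap.mul_def, ContinuousLinearMap.adjoint_comp]
    rw [hNsa, hZs, ContinuousLinearMap.adjoint_adjoint]
    rfl
  · calc Z * N * Zs * (Z * N * Zs) = (Z * N * Zs * Z) * (N * Zs) := by simp only [mul_assoc]
      _ = Z * N * Zs := by rw [hQZ]; simp only [mul_assoc]
  · have h1 : tr (Z * N * Zs) = tr (N * (Zs * Z)) := by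
      rw [mul_assoc, tr_comm hZ (hNe.mul hZ.adjoint), mul_assoc]
    rw [h1, hZsZ, mul_sub, hN2, hNnE, tr_sub, tr_sub]
    ring

end Trace

end Pool.Agent.Work.MP_24ca2e_an
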