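import Pool.Agent.Work.MP_24ca2e_an.CoverBasic

set_option autoImplicit false
set_option linter.unusedSectionVars false

/-!
Comparison of an arbitrary universal cover with the forest `FreeGroup E × V`, and existence of a
universal cover.
-/

namespace Pool.Agent.Work.MP_24ca2e_an

open MeasureTheory Filter Topology

variable {V E : Type} {G : MGraph V E}

namespace MGraph

lemma isWalk_append {x z : V} {w w' : List (E × Bool)} :
    G.IsWalk x (w ++ w') z ↔ ∃ y, G.IsWalk x w y ∧ G.IsWalk y w' z := by
  induction w generalizing x with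
  | nil =>
    constructor
    · intro h; exact ⟨x, rfl, h⟩
    · rintro ⟨y, h1, h2⟩
      have h1' : x = y := h1
      subst h1'; exact h2
  | cons d w ih =>
    constructor
    · rintro ⟨h1, h2⟩
      obtain ⟨y, h3, h4⟩ := ih.1 h2
      exact ⟨y, ⟨h1, h3⟩, h4⟩
    · rintro ⟨y, ⟨h1, h3⟩, h4⟩
      exact ⟨h1, ih.2 ⟨y, h3, h4⟩⟩

lemma isWalk_det {x y z : V} {w : List (E × Bool)} (h : G.IsWalk x w y) (h' : G.IsWalk x w z) :
    y = z := by
  induction w generalizing x with
  | nil =>
    have h1 : x = y := h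
    have h2 : x = z := h'
    rw [← h1, ← h2]
  | cons d w ih => exact ih h.2 h'.2

lemma isWalk_singleton {d : E × Bool} : G.IsWalk (G.start d) [d] (G.stop d) := ⟨rfl, rfl⟩

lemma isWalk_invRev {x y : V} {w : List (E × Bool)} (h : G.IsWalk x w y) :
    G.IsWalk y (FreeGroup.invRev w) x := by
  induction w generalizing x with
  | nil =>
    have h1 : x = y := h
    subst h1
    exact rfl
  | cons d w ih =>
    have h1 := ih h.2
    have e : FreeGroup.invRev (d :: w) = FreeGroup.invRev w ++ [MGraph.rev d] := by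
      simp [FreeGroup.invRev, MGraph.rev]
    rw [e, isWalk_append]
    refine ⟨_, h1, ?_⟩
    refine ⟨Cover.start_rev G d, ?_⟩
    rw [Cover.stop_rev]
    exact h.1

lemma isWalk_step {x y : V} {w w' : List (E × Bool)} (h : G.IsWalk x w y)
    (hs : FreeGroup.Red.Step w w') : G.IsWalk x w' y := by
  obtain @⟨L₁, L₂, e, b⟩ := hs
  obtain ⟨z, h1, h2, h3, h4⟩ := isWalk_append.1 h
  refine isWalk_append.2 ⟨z, h1, ?_⟩
  have h5 : G.stop (e, !b) = G.start (e, b) := Cover.stop_rev G (e, b)
  rw [h5, h2] at h4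
  exact h4

end MGraph

namespace Cover

variable (C : Cover G)

lemma follow_append (t : C.T) (w w' : List (E × Bool)) :
    C.follow t (w ++ w') = C.follow (C.follow t w) w' := by
  simp [follow]

lemma follow_cons (t : C.T) (d : E × Bool) (w : List (E × Bool)) :
    C.follow t (d :: w) = C.follow (C.nbr t d) w := rfl

lemma proj_follow {t : C.T} {w : List (E × Bool)} {y : V} (h : G.IsWalk (C.proj t) w y) :
    C.proj (C.follow t w) = y := by
  induction w generalizing t with
  | nil => exact h
  | cons d w ih =>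
    rw [follow_cons]
    refine ih ?_
    rw [C.proj_nbr t d h.1]
    exact h.2

lemma follow_step {t : C.T} {w w' : List (E × Bool)} {y : V} (h : G.IsWalk (C.proj t) w y)
    (hs : FreeGroup.Red.Step w w') : C.follow t w = C.follow t w' := by
  obtain @⟨L₁, L₂, e, b⟩ := hs
  obtain ⟨z, h1, h2, h3, h4⟩ := MGraph.isWalk_append.1 h
  rw [follow_append, follow_append, follow_cons, follow_cons]
  have h5 := C.proj_follow h1
  have h6 := C.nbr_rev (C.follow t L₁) (e, b) (by rw [h5, h2])
  have h7 : MGraph.rev (e, b) = (e, !b) := rfl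
  rw [h7] at h6
  rw [h6]

lemma red_aux {t : C.T} {w w' : List (E × Bool)} {y : V} (h : G.IsWalk (C.proj t) w y)
    (hs : FreeGroup.Red w w') : G.IsWalk (C.proj t) w' y ∧ C.follow t w = C.follow t w' := by
  induction hs with
  | refl => exact ⟨h, rfl⟩
  | tail _ hst ih =>
    obtain ⟨h1, h2⟩ := ih
    exact ⟨MGraph.isWalk_step h1 hst, h2.trans (C.follow_step h1 hst)⟩

lemma follow_eq_of_mk_eq {t : C.T} {w w' : List (E × Bool)} {y y' : V}
    (h : G.IsWalk (C.proj t) w y) (h' : G.IsWalk (C.proj t) w' y')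
    (hm : FreeGroup.mk w = FreeGroup.mk w') : C.follow t w = C.follow t w' := by
  classical
  have e := FreeGroup.reduce.sound hm
  rw [(C.red_aux h FreeGroup.reduce.red).2, (C.red_aux h' FreeGroup.reduce.red).2, e]

lemma follow_invRev {t : C.T} {w : List (E × Bool)} {y : V} (h : G.IsWalk (C.proj t) w y) :
    C.follow (C.follow t w) (FreeGroup.invRev w) = t := by
  have h1 := MGraph.isWalk_invRev h
  have h2 : G.IsWalk (C.proj t) (w ++ FreeGroup.invRev w) (C.proj t) :=
    MGraph.isWalk_append.2 ⟨y, h, h1⟩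
  have h3 : FreeGroup.mk (w ++ FreeGroup.invRev w) = FreeGroup.mk [] := by
    rw [← FreeGroup.mul_mk, ← FreeGroup.inv_mk, mul_inv_cancel]
    rfl
  have h4 := C.follow_eq_of_mk_eq (w' := []) h2 (y' := C.proj t) rfl h3
  rw [follow_append] at h4
  exact h4

lemma nonBacktracking_iff {w : List (E × Bool)} :
    MGraph.NonBacktracking w ↔ FreeGroup.IsReduced w := by
  unfold MGraph.NonBacktracking FreeGroup.IsReduced
  have : (fun d d' : E × Bool => d' ≠ MGraph.rev d) = fun a b => a.1 = b.1 → a.2 = b.2 := by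
    funext d d'
    rcases d with ⟨e, b⟩
    rcases d' with ⟨e', b'⟩
    simp only [MGraph.rev, ne_eq, Prod.mk.injEq, not_and, eq_iff_iff]
    constructor
    · intro h he
      have := h he.symm
      cases b <;> cases b' <;> simp_all
    · intro h he
      have := h he.symm
      cases b <;> cases b' <;> simp_all
  rw [this]

variable {C}

lemma IsUniversal.mk_eq_one (hC : C.IsUniversal) {t : C.T} {w : List (E × Bool)}
    (h : G.IsWalk (C.proj t) w (C.proj t)) (hf : C.follow t w = t) :
    FreeGroup.mk w = 1 := by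
  classical
  obtain ⟨h1, h2⟩ := C.red_aux h (FreeGroup.reduce.red (L := w))
  have h3 : FreeGroup.reduce w = [] := by
    refine hC.tree t _ h1 ?_ (by rw [← h2, hf])
    rw [nonBacktracking_iff]
    exact FreeGroup.IsReduced.of_reduce_eq FreeGroup.reduce.idem
  rw [← FreeGroup.reduce.self, h3]
  rfl

lemma IsUniversal.mk_eq (hC : C.IsUniversal) {t : C.T} {w w' : List (E × Bool)} {y y' : V}
    (h : G.IsWalk (C.proj t) w y) (h' : G.IsWalk (C.proj t) w' y')
    (hf : C.follow t w = C.follow t w') : FreeGroup.mk w = FreeGroup.mk w' := by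
  have hy : y = y' := by
    rw [← C.proj_follow h, ← C.proj_follow h', hf]
  subst hy
  have h1 : G.IsWalk (C.proj t) (w ++ FreeGroup.invRev w') (C.proj t) :=
    MGraph.isWalk_append.2 ⟨y, h, MGraph.isWalk_invRev h'⟩
  have h2 := hC.mk_eq_one h1 (by rw [follow_append, hf, C.follow_invRev h'])
  rw [← FreeGroup.mul_mk, ← FreeGroup.inv_mk] at h2
  exact mul_inv_eq_one.1 h2

end Cover

/-- The forest `FreeGroup E × V` covering `G`. -/
abbrev forest (G : MGraph V E) : Cover G where
  T := FreeGroup E × V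
  proj := Prod.snd
  nbr := fun t d => (t.1 * FreeGroup.mk [d], G.stop d)
  proj_nbr := fun _ _ _ => rfl
  nbr_rev := fun t d h => by
    refine Prod.ext ?_ ?_
    · change t.1 * FreeGroup.mk [d] * FreeGroup.mk [MGraph.rev d] = t.1
      have : FreeGroup.mk [MGraph.rev d] = (FreeGroup.mk [d])⁻¹ := by
        rw [FreeGroup.inv_mk]
        rfl
      rw [this, mul_inv_cancel_right]
    · change G.stop (MGraph.rev d) = t.2
      rw [Cover.stop_rev]
      exact h

lemma forest_follow (t : (forest G).T) (w : List (E × Bool)) :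
    ((forest G).follow t w).1 = t.1 * FreeGroup.mk w := by
  induction w generalizing t with
  | nil =>
    change t.1 = t.1 * FreeGroup.mk []
    have : (FreeGroup.mk [] : FreeGroup E) = 1 := rfl
    rw [this, mul_one]
  | cons d w ih =>
    rw [Cover.follow_cons, ih]
    change t.1 * FreeGroup.mk [d] * FreeGroup.mk w = _
    rw [mul_assoc, FreeGroup.mul_mk]
    rfl

section Pull

variable {ι κ : Type}

lemma pull_sum_le {φ : ι → κ} (hφ : Function.Injective φ) (u : Ell2 κ) (s : Finset ι) :
    ∑ i ∈ s, ‖u (φ i)‖ ^ (2 : ℝ) ≤ ‖u‖ ^ (2 : ℝ) := by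
  classical
  calc ∑ i ∈ s, ‖u (φ i)‖ ^ (2 : ℝ)
      = ∑ k ∈ s.image φ, ‖u k‖ ^ (2 : ℝ) := by
        rw [Finset.sum_image hφ.injOn]
    _ ≤ ‖u‖ ^ (2 : ℝ) := by
        have := lp.sum_rpow_le_norm_rpow (p := 2) (by simp) u (s.image φ)
        simpa using this

/-- Pull-back along an injective map. -/
noncomputable def pull {φ : ι → κ} (hφ : Function.Injective φ) : Ell2 κ →L[ℂ] Ell2 ι :=
  LinearMap.mkContinuous
    { toFun := fun u => ⟨fun i => u (φ i),
        memℓp_gen' (C := ‖u‖ ^ (2 : ℝ)) (fun s => by simpa using pull_sum_le hφ u s)⟩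
      map_add' := by
        intro u v
        exact lp.ext (funext fun t => rfl)
      map_smul' := by
        intro c u
        exact lp.ext (funext fun t => rfl) } 1
    (by
      intro u
      refine lp.norm_le_of_forall_sum_le (by simp) (by positivity) (fun s => ?_)
      have := pull_sum_le hφ u s
      simpa using this)

lemma pull_apply {φ : ι → κ} (hφ : Function.Injective φ) (u : Ell2 κ) (i : ι) :
    pull hφ u i = u (φ i) := rfl

lemma pull_delta {φ : ι → κ} (hφ : Function.Injective φ) (i : ι) :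
    pull hφ (delta (φ i)) = delta i := by
  classical
  refine ell2_ext (fun j => ?_)
  rw [pull_apply, delta_apply, delta_apply]
  by_cases h : j = i
  · subst h; simp
  · rw [if_neg h, if_neg (fun h2 => h (hφ h2))]

end Pull

namespace Cover

variable {C : Cover G}

lemma IsUniversal.exists_embedding (hC : C.IsUniversal) (t₀ : C.T) :
    ∃ φ : C.T → (forest G).T, Function.Injective φ ∧ φ t₀ = (1, C.proj t₀) ∧
      (∀ t, (forest G).proj (φ t) = C.proj t) ∧
      ∀ t d, G.start d = C.proj t → φ (C.nbr t d) = (forest G).nbr (φ t) d := by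
  choose w hw1 hw2 using fun t => hC.connected t₀ t
  refine ⟨fun t => (FreeGroup.mk (w t), C.proj t), ?_, ?_, fun _ => rfl, ?_⟩
  · intro t t' h
    have h1 : FreeGroup.mk (w t) = FreeGroup.mk (w t') := congrArg Prod.fst h
    rw [← hw2 t, ← hw2 t']
    exact C.follow_eq_of_mk_eq (hw1 t) (hw1 t') h1
  · refine Prod.ext ?_ rfl
    exact hC.mk_eq_one (hw1 t₀) (hw2 t₀)
  · intro t d hd
    refine Prod.ext ?_ ?_
    · change FreeGroup.mk (w (C.nbr t d)) = FreeGroup.mk (w t) * FreeGroup.mk [d]
      rw [FreeGroup.mul_mk]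
      have h1 : G.IsWalk (C.proj t₀) (w t ++ [d]) (G.stop d) :=
        MGraph.isWalk_append.2 ⟨C.proj t, hw1 t, hd, rfl⟩
      refine hC.mk_eq (hw1 _) h1 ?_
      rw [hw2, follow_append, hw2]
      rfl
    · exact C.proj_nbr t d hd

/-- Moments at a vertex of the universal cover agree with moments in the forest. -/
theorem IsUniversal.moment_eq [Fintype V] [Fintype E] (hC : C.IsUniversal) (J : Params V E)
    (t₀ : C.T) (n : ℕ) :
    inner ℂ (delta t₀) ((C.jacobiOp J ^ n) (delta t₀)) =
      inner ℂ (delta ((1, C.proj t₀) : (forest G).T))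
        (((forest G).jacobiOp J ^ n) (delta ((1, C.proj t₀) : (forest G).T))) := by
  classical
  obtain ⟨φ, hφ, h0, h1, h2⟩ := hC.exists_embedding t₀
  have key : ∀ u : Ell2 (forest G).T,
      pull hφ ((forest G).jacobiOp J u) = C.jacobiOp J (pull hφ u) := by
    intro u
    refine ell2_ext (fun t => ?_)
    rw [pull_apply, jacobiOp_apply, jacobiOp_apply]
    unfold jacobiFun
    rw [h1 t, pull_apply]
    congr 1
    refine Finset.sum_congr rfl (fun d _ => ?_)
    by_cases h : G.start d = C.proj t
    · rw [if_pos h, if_pos h, pull_apply, h2 t d h]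
    · rw [if_neg h, if_neg h]
  have key2 : ∀ (n : ℕ) (u : Ell2 (forest G).T),
      pull hφ (((forest G).jacobiOp J ^ n) u) = (C.jacobiOp J ^ n) (pull hφ u) := by
    intro n
    induction n with
    | zero => intro u; rfl
    | succ n ih =>
      intro u
      rw [pow_succ, pow_succ]
      change pull hφ (((forest G).jacobiOp J ^ n) ((forest G).jacobiOp J u))
        = (C.jacobiOp J ^ n) (C.jacobiOp J (pull hφ u))
      rw [ih, key]
  rw [inner_delta_left, inner_delta_left, ← h0]
  rw [← pull_apply hφ, key2, pull_delta]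

end Cover

/-! ### Existence of a universal cover -/

open Classical in
/-- The component of `(1, x₀)` in the forest. -/
noncomputable def treeCover (G : MGraph V E) (x₀ : V) : Cover G where
  T := {v : FreeGroup E × V // ∃ w, G.IsWalk x₀ w v.2 ∧ FreeGroup.mk w = v.1}
  proj := fun v => v.1.2
  nbr := fun v d => if h : G.start d = v.1.2 then
    ⟨(v.1.1 * FreeGroup.mk [d], G.stop d), by
      obtain ⟨w, h1, h2⟩ := v.2
      refine ⟨w ++ [d], MGraph.isWalk_append.2 ⟨_, h1, h, rfl⟩, ?_⟩
      rw [← FreeGroup.mul_mk, h2]⟩ else v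
  proj_nbr := fun v d h => by
    rw [dif_pos h]
  nbr_rev := fun v d h => by
    have h1 : G.start (MGraph.rev d) = G.stop d := Cover.start_rev G d
    rw [dif_pos h]
    rw [dif_pos h1]
    refine Subtype.ext (Prod.ext ?_ ?_)
    · change v.1.1 * FreeGroup.mk [d] * FreeGroup.mk [MGraph.rev d] = v.1.1
      have : FreeGroup.mk [MGraph.rev d] = (FreeGroup.mk [d])⁻¹ := by
        rw [FreeGroup.inv_mk]
        rfl
      rw [this, mul_inv_cancel_right]
    · change G.stop (MGraph.rev d) = v.1.2
      rw [Cover.stop_rev]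
      exact h

lemma treeCover_nbr (x₀ : V) (t : (treeCover G x₀).T) (d : E × Bool) (h : G.start d = t.1.2) :
    ((treeCover G x₀).nbr t d).1 = (t.1.1 * FreeGroup.mk [d], G.stop d) := by
  simp only [treeCover]
  rw [dif_pos h]

lemma treeCover_follow (x₀ : V) (t : (treeCover G x₀).T) {w : List (E × Bool)} {y : V}
    (h : G.IsWalk ((treeCover G x₀).proj t) w y) :
    ((treeCover G x₀).follow t w).1 = (t.1.1 * FreeGroup.mk w, y) := by
  induction w generalizing t with
  | nil =>
    have h' : t.1.2 = y := h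
    refine Prod.ext ?_ h'
    change t.1.1 = t.1.1 * FreeGroup.mk []
    have : (FreeGroup.mk [] : FreeGroup E) = 1 := rfl
    rw [this, mul_one]
  | cons d w ih =>
    rw [Cover.follow_cons]
    have h1 : G.start d = t.1.2 := h.1
    have h2 := treeCover_nbr x₀ t d h1
    have h3 : G.IsWalk ((treeCover G x₀).proj ((treeCover G x₀).nbr t d)) w y := by
      rw [(treeCover G x₀).proj_nbr t d h1]
      exact h.2
    rw [ih _ h3, h2]
    refine Prod.ext ?_ rfl
    change t.1.1 * FreeGroup.mk [d] * FreeGroup.mk w = _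
    rw [mul_assoc, FreeGroup.mul_mk]
    rfl

theorem treeCover_isUniversal (x₀ : V) : (treeCover G x₀).IsUniversal where
  nonempty := ⟨⟨(1, x₀), [], rfl, rfl⟩⟩
  connected := by
    intro t t'
    obtain ⟨w, h1, h2⟩ := t.2
    obtain ⟨w', h1', h2'⟩ := t'.2
    have h3 : G.IsWalk ((treeCover G x₀).proj t) (FreeGroup.invRev w ++ w')
        ((treeCover G x₀).proj t') :=
      MGraph.isWalk_append.2 ⟨x₀, MGraph.isWalk_invRev h1, h1'⟩
    refine ⟨_, h3, ?_⟩
    refine Subtype.ext ?_
    rw [treeCover_follow x₀ t h3]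
    refine Prod.ext ?_ rfl
    change t.1.1 * FreeGroup.mk (FreeGroup.invRev w ++ w') = t'.1.1
    rw [← FreeGroup.mul_mk, ← FreeGroup.inv_mk, h2, h2', mul_inv_cancel_left]
  tree := by
    classical
    intro t w hw hn hf
    have h1 := treeCover_follow x₀ t hw
    rw [hf] at h1
    have h2 : t.1.1 * FreeGroup.mk w = t.1.1 := (congrArg Prod.fst h1).symm
    have h3 : FreeGroup.mk w = 1 := mul_eq_left.1 h2
    have h4 := (Cover.nonBacktracking_iff.1 hn).reduce_eq
    have h5 : FreeGroup.reduce w = FreeGroup.reduce [] := FreeGroup.reduce.sound h3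
    rw [← h4, h5]
    rfl

end Pool.Agent.Work.MP_24ca2e_an
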